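import Pool.Agent.Lib.MP_377e48_co.Order

set_option autoImplicit false

/-! # Alternation of crossings of a closed curve -/

namespace Pool.Agent.Lib.MP_377e48_co

open Finset

/-- alternating sum over an initial segment -/
theorem alt_sum {ι α : Type*} [Fintype ι] [DecidableEq ι] [LinearOrder α] (κ : ι → α)
    (hκ : Function.Injective κ) :
    ∀ (n : ℕ) (R : Finset ι), R.card = n → (∀ i ∈ R, ∀ j, κ j < κ i → j ∈ R) →
      ∑ i ∈ R, (-1 : ℤ) ^ (univ.filter (fun j => κ j < κ i)).card = if Even n then 0 else 1 := by
  intro n
  induction n with
  | zero =>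
    intro R hR _
    rw [card_eq_zero] at hR
    subst hR
    simp
  | succ n ih =>
    intro R hR hin
    have hne : R.Nonempty := by
      rw [← card_pos]; omega
    obtain ⟨m, hm, hmax⟩ := exists_max_image R κ hne
    have h1 : (R.erase m).card = n := by rw [card_erase_of_mem hm, hR]; rfl
    have h2 := ih (R.erase m) h1 (by
      intro i hi j hj
      rw [mem_erase] at hi ⊢
      refine ⟨?_, hin i hi.2 j hj⟩
      rintro rfl
      exact absurd hj (not_lt.2 (hmax i hi.2)))
    have h3 : univ.filter (fun j => κ j < κ m) = R.erase m := by
      ext j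
      simp only [mem_filter, mem_univ, true_and, mem_erase]
      constructor
      · intro hj
        exact ⟨fun e => by rw [e] at hj; exact lt_irrefl _ hj, hin m hm j hj⟩
      · rintro ⟨h4, h5⟩
        exact lt_of_le_of_ne (hmax j h5) (fun e => h4 (hκ e))
    rw [← add_sum_erase R _ hm, h2, h3, h1]
    by_cases he : Even n
    · rw [if_pos he, if_neg (by rw [Nat.even_add_one]; exact fun h => h he), he.neg_one_pow]
      norm_num
    · rw [if_neg he, if_pos (by rw [Nat.even_add_one]; exact he),
        (Nat.not_even_iff_odd.1 he).neg_one_pow]
      norm_num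

/-- a finite set with a fixed point free involution has an even number of elements -/
theorem even_of_invol {ι : Type*} [DecidableEq ι] (S : Finset ι) (σ : ι → ι)
    (h1 : ∀ i ∈ S, σ i ∈ S) (h2 : ∀ i ∈ S, σ i ≠ i) (h3 : ∀ i ∈ S, σ (σ i) = i) :
    Even S.card := by
  have h : ∑ _i ∈ S, (1 : ZMod 2) = 0 := by
    apply Finset.sum_involution (fun i _ => σ i)
    · intro i _; decide
    · intro i hi _; exact h2 i hi
    · intro i hi; exact h1 i hi
    · intro i hi; exact h3 i hi
  rw [sum_const, nsmul_eq_mul, mul_one] at h
  rwa [ZMod.natCast_eq_zero_iff_even] at h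

/-- the ranks of the two ends of a chord have different parities -/
theorem rank_odd {ι : Type*} [Fintype ι] [DecidableEq ι] (p : ℝ × ℝ) (hp : p ≠ 0)
    (τ : ι → ℝ × ℝ) (hτp : ∀ i, cr p (τ i) ≠ 0)
    (hτ : ∀ i j, i ≠ j → cr (τ i) (τ j) ≠ 0 ∨ τ j = - τ i) (σ : ι → ι) (hσ : ∀ i, σ (σ i) = i)
    (hσ1 : ∀ i, σ i ≠ i) (hcr : ∀ i, cr (τ i) (τ (σ i)) ≠ 0)
    (hnc : ∀ i j, j ≠ i → j ≠ σ i →
      (InCone (τ i) (τ (σ i)) (τ j) ↔ InCone (τ i) (τ (σ i)) (τ (σ j)))) (i : ι) :
    Odd ((univ.filter (fun j => key p (τ j) < key p (τ i))).card +
      (univ.filter (fun j => key p (τ j) < key p (τ (σ i)))).card) := by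
  classical
  have hinj : ∀ i j, i ≠ j → key p (τ i) ≠ key p (τ j) := fun i j hij =>
    key_ne hp (hτp i) (hτp j) (hτ i j hij)
  have hcone_self : ∀ a b : ℝ × ℝ, ¬ InCone a b a := by
    intro a b h
    unfold InCone at h
    rw [cr_self] at h
    linarith [h.1]
  have hcone_self' : ∀ a b : ℝ × ℝ, ¬ InCone a b b := by
    intro a b h
    unfold InCone at h
    rw [cr_self] at h
    linarith [h.2]
  -- number of elements in the cone
  have hcone : ∀ i, Even (univ.filter (fun j => InCone (τ i) (τ (σ i)) (τ j))).card := by
    intro i
    apply even_of_invol _ σ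
    · intro j hj
      simp only [mem_filter, mem_univ, true_and] at hj ⊢
      refine (hnc i j ?_ ?_).1 hj
      · rintro rfl; exact hcone_self _ _ hj
      · rintro rfl; exact hcone_self' _ _ hj
    · intro j _; exact hσ1 j
    · intro j _; exact hσ j
  have htot : Even (Fintype.card ι) := by
    have := even_of_invol (univ : Finset ι) σ (fun i _ => mem_univ _) (fun i _ => hσ1 i)
      (fun i _ => hσ i)
    rwa [card_univ] at this
  -- symmetric situation
  have main : ∀ i, key p (τ i) < key p (τ (σ i)) →
      Odd ((univ.filter (fun j => key p (τ j) < key p (τ i))).card +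
      (univ.filter (fun j => key p (τ j) < key p (τ (σ i)))).card) := by
    intro i hlt
    have hsplit : univ.filter (fun j => key p (τ j) < key p (τ (σ i))) =
        (univ.filter (fun j => key p (τ j) < key p (τ i)) ∪ {i}) ∪
          univ.filter (fun j => key p (τ i) < key p (τ j) ∧ key p (τ j) < key p (τ (σ i))) := by
      ext j
      simp only [mem_filter, mem_univ, true_and, mem_union, mem_singleton]
      constructor
      · intro h
        rcases lt_trichotomy (key p (τ j)) (key p (τ i)) with h1 | h1 | h1
        · exact Or.inl (Or.inl h1)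
        · left; right
          by_contra hne
          exact hinj j i hne h1
        · exact Or.inr ⟨h1, h⟩
      · rintro ((h | h) | h)
        · exact h.trans hlt
        · rw [h]; exact hlt
        · exact h.2
    have hd1 : Disjoint (univ.filter (fun j => key p (τ j) < key p (τ i))) {i} := by
      rw [disjoint_singleton_right]
      simp
    have hd2 : Disjoint (univ.filter (fun j => key p (τ j) < key p (τ i)) ∪ {i})
        (univ.filter (fun j => key p (τ i) < key p (τ j) ∧ key p (τ j) < key p (τ (σ i)))) := by
      rw [disjoint_left]
      intro j hj hj2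
      simp only [mem_filter, mem_univ, true_and, mem_union, mem_singleton] at hj hj2
      rcases hj with hj | hj
      · exact lt_asymm hj hj2.1
      · rw [hj] at hj2; exact lt_irrefl _ hj2.1
    have hcard : (univ.filter (fun j => key p (τ j) < key p (τ (σ i)))).card =
        (univ.filter (fun j => key p (τ j) < key p (τ i))).card + 1 +
          (univ.filter (fun j => key p (τ i) < key p (τ j) ∧
            key p (τ j) < key p (τ (σ i)))).card := by
      rw [hsplit, card_union_of_disjoint hd2, card_union_of_disjoint hd1, card_singleton]
    have hbt : Even (univ.filter (fun j => key p (τ i) < key p (τ j) ∧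
        key p (τ j) < key p (τ (σ i)))).card := by
      rcases lt_or_gt_of_ne (hcr i) with hneg | hpos
      · -- complement of the cone
        have hset : univ.filter (fun j => key p (τ i) < key p (τ j) ∧
            key p (τ j) < key p (τ (σ i))) =
            (univ \ univ.filter (fun j => InCone (τ i) (τ (σ i)) (τ j))) \ {i, σ i} := by
          ext j
          simp only [mem_filter, mem_univ, true_and, mem_sdiff, mem_insert, mem_singleton]
          by_cases hji : j = i
          · subst hji
            simp
          by_cases hjs : j = σ i
          · subst hjs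
            simp
          have := (between_iff hp (hτp i) (hτp (σ i)) (hτp j) (hcr i) (hτ i j (Ne.symm hji))
            (hτ (σ i) j (Ne.symm hjs)) hlt).2 hneg
          rw [this]
          simp [hji, hjs]
        rw [hset]
        have hsub : ({i, σ i} : Finset ι) ⊆
            univ \ univ.filter (fun j => InCone (τ i) (τ (σ i)) (τ j)) := by
          intro j hj
          simp only [mem_insert, mem_singleton] at hj
          simp only [mem_filter, mem_univ, true_and, mem_sdiff]
          rcases hj with rfl | rfl
          · exact hcone_self _ _
          · exact hcone_self' _ _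
        have e1 := card_sdiff_add_card_eq_card hsub
        have e2 := card_sdiff_add_card_eq_card
          (subset_univ (univ.filter (fun j => InCone (τ i) (τ (σ i)) (τ j))))
        have e3 : ({i, σ i} : Finset ι).card = 2 := card_pair (hσ1 i).symm
        rw [card_univ] at e2
        rw [e3] at e1
        obtain ⟨a, ha⟩ := hcone i
        obtain ⟨b, hb⟩ := htot
        rw [Nat.even_iff]
        omega
      · have hset : univ.filter (fun j => key p (τ i) < key p (τ j) ∧
            key p (τ j) < key p (τ (σ i))) =
            univ.filter (fun j => InCone (τ i) (τ (σ i)) (τ j)) := by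
          ext j
          simp only [mem_filter, mem_univ, true_and]
          by_cases hji : j = i
          · subst hji
            simp [hcone_self]
          by_cases hjs : j = σ i
          · subst hjs
            simp [hcone_self']
          exact (between_iff hp (hτp i) (hτp (σ i)) (hτp j) (hcr i) (hτ i j (Ne.symm hji))
            (hτ (σ i) j (Ne.symm hjs)) hlt).1 hpos
        rw [hset]
        exact hcone i
    rw [hcard]
    obtain ⟨c, hc⟩ := hbt
    rw [Nat.odd_iff]
    omega
  rcases lt_or_gt_of_ne (hinj i (σ i) (hσ1 i).symm) with h | h
  · exact main i h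
  · have := main (σ i) (by rw [hσ]; exact h)
    rw [hσ] at this
    rwa [add_comm] at this

end Pool.Agent.Lib.MP_377e48_co
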