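import Mathlib

set_option autoImplicit false

/-!
# Geometric graphs in the plane whose edge rays are disjoint

`cr` is the planar cross product.  A drawing `P : V → ℝ × ℝ` of a graph `G` is *good* (`Geo`)
if different edges are not parallel and the rays `P u + ℝ≥0 (P u - P v)`, `P w + ℝ≥0 (P w - P z)`
(`uv`, `wz` edges, `u ≠ w`) are disjoint.
-/

namespace Pool.Agent.Lib.MP_377e48_co

/-- cross product -/
def cr (a b : ℝ × ℝ) : ℝ := a.1 * b.2 - a.2 * b.1

theorem cr_add_left (a b c : ℝ × ℝ) : cr (a + b) c = cr a c + cr b c := by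
  simp only [cr, Prod.fst_add, Prod.snd_add]; ring

theorem cr_add_right (a b c : ℝ × ℝ) : cr a (b + c) = cr a b + cr a c := by
  simp only [cr, Prod.fst_add, Prod.snd_add]; ring

theorem cr_sub_left (a b c : ℝ × ℝ) : cr (a - b) c = cr a c - cr b c := by
  simp only [cr, Prod.fst_sub, Prod.snd_sub]; ring

theorem cr_sub_right (a b c : ℝ × ℝ) : cr a (b - c) = cr a b - cr a c := by
  simp only [cr, Prod.fst_sub, Prod.snd_sub]; ring

theorem cr_neg_left (a b : ℝ × ℝ) : cr (-a) b = - cr a b := by
  simp only [cr, Prod.fst_neg, Prod.snd_neg]; ring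

theorem cr_neg_right (a b : ℝ × ℝ) : cr a (-b) = - cr a b := by
  simp only [cr, Prod.fst_neg, Prod.snd_neg]; ring

theorem cr_smul_left (r : ℝ) (a b : ℝ × ℝ) : cr (r • a) b = r * cr a b := by
  simp only [cr, Prod.smul_fst, Prod.smul_snd, smul_eq_mul]; ring

theorem cr_smul_right (r : ℝ) (a b : ℝ × ℝ) : cr a (r • b) = r * cr a b := by
  simp only [cr, Prod.smul_fst, Prod.smul_snd, smul_eq_mul]; ring

theorem cr_self (a : ℝ × ℝ) : cr a a = 0 := by simp only [cr]; ring

theorem cr_comm (a b : ℝ × ℝ) : cr b a = - cr a b := by simp only [cr]; ring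

/-- Plücker relation -/
theorem plucker (p a b d : ℝ × ℝ) :
    cr p a * cr b d - cr p b * cr a d + cr p d * cr a b = 0 := by
  simp only [cr]; ring

/-- coordinates with respect to a basis -/
theorem decomp (a b z : ℝ × ℝ) (h : cr a b ≠ 0) :
    z = (cr z b / cr a b) • a + (cr a z / cr a b) • b := by
  ext
  · simp only [Prod.fst_add, Prod.smul_fst, smul_eq_mul]
    field_simp
    simp only [cr]; ring
  · simp only [Prod.snd_add, Prod.smul_snd, smul_eq_mul]
    field_simp
    simp only [cr]; ring

/-- `d` is in the open convex cone spanned by `a` and `b` -/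
def InCone (a b d : ℝ × ℝ) : Prop := 0 < cr a d * cr a b ∧ 0 < cr d b * cr a b

theorem inCone_comm (a b d : ℝ × ℝ) : InCone a b d ↔ InCone b a d := by
  unfold InCone
  rw [cr_comm a b, cr_comm d b, cr_comm a d]
  constructor
  · rintro ⟨h1, h2⟩; constructor <;> nlinarith
  · rintro ⟨h1, h2⟩; constructor <;> nlinarith

theorem inCone_neg (a b d : ℝ × ℝ) : InCone (-a) (-b) (-d) ↔ InCone a b d := by
  unfold InCone
  simp only [cr_neg_left, cr_neg_right, neg_neg]

theorem inCone_iff (a b d : ℝ × ℝ) (h : cr a b ≠ 0) :
    InCone a b d ↔ 0 < cr d b / cr a b ∧ 0 < cr a d / cr a b := by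
  unfold InCone
  rw [div_eq_mul_inv, div_eq_mul_inv]
  have h2 : 0 < (cr a b) ^ 2 := by positivity
  have e : ∀ x : ℝ, x * (cr a b)⁻¹ = x * cr a b / (cr a b) ^ 2 := by
    intro x; field_simp
  rw [e, e]
  constructor
  · rintro ⟨h3, h4⟩; exact ⟨div_pos h4 h2, div_pos h3 h2⟩
  · rintro ⟨h3, h4⟩
    rw [div_pos_iff_of_pos_right h2] at h3 h4
    exact ⟨h4, h3⟩

/-- the hypothesis on the drawing -/
structure Geo {V : Type*} (G : SimpleGraph V) (P : V → ℝ × ℝ) : Prop where
  np : ∀ u v w z, G.Adj u v → G.Adj w z → ¬ (u = w ∧ v = z) → ¬ (u = z ∧ v = w) →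
    cr (P u - P v) (P w - P z) ≠ 0
  ray : ∀ u v w z, G.Adj u v → G.Adj w z → u ≠ w → ∀ s t : ℝ, 0 ≤ s → 0 ≤ t →
    P u + s • (P u - P v) ≠ P w + t • (P w - P z)

variable {V : Type*} {G : SimpleGraph V} {P : V → ℝ × ℝ}

theorem aux_div (y z c : ℝ) (hc : c ≠ 0) : y + z / c = (y * c + z) / c := by
  field_simp

theorem aux_div' (y z w c : ℝ) (hc : c ≠ 0) : y + z / c * w = (y * c + z * w) / c := by
  field_simp

/-- two pairs of rays starting at different vertices do not interleave -/
theorem Geo.noncross (h : Geo G P) {u w v1 v2 v3 v4 : V} (huw : u ≠ w) (h1 : G.Adj u v1)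
    (h2 : G.Adj u v2) (h12 : v1 ≠ v2) (h3 : G.Adj w v3) (h4 : G.Adj w v4)
    (hc : InCone (P u - P v1) (P u - P v2) (P w - P v3)) :
    InCone (P u - P v1) (P u - P v2) (P w - P v4) := by
  set a := P u - P v1 with ha
  set b := P u - P v2 with hb
  set f := P w - P v3 with hf
  set g := P w - P v4 with hg
  have hab : cr a b ≠ 0 := h.np u v1 u v2 h1 h2 (fun e => h12 e.2) (fun e => h2.ne e.1)
  rw [inCone_iff _ _ _ hab] at hc ⊢
  obtain ⟨hα, hβ⟩ := hc
  have ef := decomp a b f hab
  have eg := decomp a b g hab
  have ez := decomp a b (P w - P u) hab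
  set α := cr f b / cr a b
  set β := cr a f / cr a b
  set γ := cr g b / cr a b with hγ
  set δ := cr a g / cr a b with hδ
  set x := cr (P w - P u) b / cr a b
  set y := cr a (P w - P u) / cr a b
  have hw : P w = P u + (x • a + y • b) := by rw [← ez]; abel
  -- intersection with the ray in direction `a` or `b`
  have ra : ∀ (s t : ℝ) (v : V), G.Adj w v → 0 ≤ s → 0 ≤ t →
      P w + t • (P w - P v) ≠ P u + s • a := by
    intro s t v hv hs ht e
    exact h.ray u v1 w v h1 hv huw s t hs ht e.symm
  have rb : ∀ (s t : ℝ) (v : V), G.Adj w v → 0 ≤ s → 0 ≤ t →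
      P w + t • (P w - P v) ≠ P u + s • b := by
    intro s t v hv hs ht e
    exact h.ray u v2 w v h2 hv huw s t hs ht e.symm
  by_cases hxy : 0 ≤ x ∧ 0 ≤ y
  · obtain ⟨hx, hy⟩ := hxy
    by_contra hcon
    have hneg : γ < 0 ∨ δ < 0 := by
      by_contra hcon2
      push Not at hcon2
      obtain ⟨c1, c2⟩ := hcon2
      rcases lt_or_eq_of_le c1 with c3 | c3
      · rcases lt_or_eq_of_le c2 with c4 | c4
        · exact hcon ⟨c3, c4⟩
        · -- δ = 0 : g parallel to a
          have c5 : cr a g = 0 := by
            have := c4.symm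
            rw [hδ, div_eq_zero_iff] at this
            rcases this with h | h
            · exact h
            · exact absurd h hab
          by_cases hsame : u = v4 ∧ v1 = w
          · obtain ⟨e1, e2⟩ := hsame
            have e3 : g = -a := by rw [hg, ha, e1, e2]; abel
            have : γ = -1 := by
              rw [hγ, e3, cr_neg_left, neg_div, div_self hab]
            linarith
          · exact h.np u v1 w v4 h1 h4 (fun e => huw e.1) hsame c5
      · -- γ = 0 : g parallel to b
        have c5 : cr g b = 0 := by
          have := c3.symm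
          rw [hγ, div_eq_zero_iff] at this
          rcases this with h | h
          · exact h
          · exact absurd h hab
        by_cases hsame : w = v2 ∧ v4 = u
        · obtain ⟨e1, e2⟩ := hsame
          have e3 : g = -b := by rw [hg, hb, e2, e1]; abel
          have : δ = -1 := by
            rw [hδ, e3, cr_neg_right, neg_div, div_self hab]
          linarith
        · exact h.np w v4 u v2 h4 h2 (fun e => huw e.1.symm) hsame c5
    -- the point at time `t`
    have hpt : ∀ t : ℝ, P w + t • (P w - P v4) = P u + ((x + t * γ) • a + (y + t * δ) • b) := by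
      intro t
      rw [← hg, eg, hw]
      module
    -- common argument
    have main : (γ < 0 ∧ 0 ≤ y + (x / (-γ)) * δ) ∨ (δ < 0 ∧ 0 ≤ x + (y / (-δ)) * γ) := by
      rcases hneg with hn | hn
      · by_cases hq : 0 ≤ y + (x / (-γ)) * δ
        · exact Or.inl ⟨hn, hq⟩
        · right
          push Not at hq
          have hd : δ < 0 := by
            by_contra hd
            push Not at hd
            have : 0 ≤ x / (-γ) * δ := mul_nonneg (div_nonneg hx (by linarith)) hd
            linarith
          refine ⟨hd, ?_⟩
          have e1 : x / (-γ) * δ = x * δ / (-γ) := by ring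
          rw [e1] at hq
          have h5 : y * (-γ) + x * δ < 0 := by
            have h6 : y + x * δ / (-γ) = (y * (-γ) + x * δ) / (-γ) :=
              aux_div _ _ _ (by linarith)
            rw [h6] at hq
            have := (div_neg_iff.1 hq)
            rcases this with ⟨_, h8⟩ | ⟨h8, _⟩
            · linarith
            · exact h8
          have e2 : x + y / (-δ) * γ = (x * (-δ) + y * γ) / (-δ) :=
            aux_div' _ _ _ _ (by linarith)
          rw [e2]
          apply div_nonneg _ (by linarith)
          nlinarith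
      · by_cases hq : 0 ≤ x + (y / (-δ)) * γ
        · exact Or.inr ⟨hn, hq⟩
        · left
          push Not at hq
          have hd : γ < 0 := by
            by_contra hd
            push Not at hd
            have : 0 ≤ y / (-δ) * γ := mul_nonneg (div_nonneg hy (by linarith)) hd
            linarith
          refine ⟨hd, ?_⟩
          have e1 : y / (-δ) * γ = y * γ / (-δ) := by ring
          rw [e1] at hq
          have h5 : x * (-δ) + y * γ < 0 := by
            have h6 : x + y * γ / (-δ) = (x * (-δ) + y * γ) / (-δ) :=
              aux_div _ _ _ (by linarith)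
            rw [h6] at hq
            have := (div_neg_iff.1 hq)
            rcases this with ⟨_, h8⟩ | ⟨h8, _⟩
            · linarith
            · exact h8
          have e2 : y + x / (-γ) * δ = (y * (-γ) + x * δ) / (-γ) :=
            aux_div' _ _ _ _ (by linarith)
          rw [e2]
          apply div_nonneg _ (by linarith)
          nlinarith
    rcases main with ⟨hn, hq⟩ | ⟨hn, hq⟩
    · apply rb (y + (x / (-γ)) * δ) (x / (-γ)) v4 h4 hq (div_nonneg hx (by linarith))
      rw [hpt]
      have : x + x / (-γ) * γ = 0 := by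
        have : γ ≠ 0 := hn.ne
        field_simp
        ring
      rw [this, zero_smul, zero_add]
    · apply ra (x + (y / (-δ)) * γ) (y / (-δ)) v4 h4 hq (div_nonneg hy (by linarith))
      rw [hpt]
      have : y + y / (-δ) * δ = 0 := by
        have : δ ≠ 0 := hn.ne
        field_simp
        ring
      rw [this, zero_smul, add_zero]
  · exfalso
    have hpt : ∀ t : ℝ, P w + t • (P w - P v3) = P u + ((x + t * α) • a + (y + t * β) • b) := by
      intro t
      rw [← hf, ef, hw]
      module
    have hneg : x < 0 ∨ y < 0 := by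
      by_contra hc
      push Not at hc
      exact hxy hc
    -- time when both coordinates are nonnegative for the first time
    rcases le_total (-x / α) (-y / β) with hle | hle
    · have ht : 0 ≤ -y / β := by
        rcases hneg with hn | hn
        · exact (div_nonneg (by linarith) hα.le).trans hle
        · exact div_nonneg (by linarith) hβ.le
      apply ra (x + (-y / β) * α) (-y / β) v3 h3 _ ht
      · rw [hpt]
        have : y + -y / β * β = 0 := by
          field_simp
          ring
        rw [this, zero_smul, add_zero]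
      · have : -x / α * α ≤ -y / β * α := mul_le_mul_of_nonneg_right hle hα.le
        rw [div_mul_cancel₀ _ hα.ne'] at this
        linarith
    · have ht : 0 ≤ -x / α := by
        rcases hneg with hn | hn
        · exact div_nonneg (by linarith) hα.le
        · exact (div_nonneg (by linarith) hβ.le).trans hle
      apply rb (y + (-x / α) * β) (-x / α) v3 h3 _ ht
      · rw [hpt]
        have : x + -x / α * α = 0 := by
          field_simp
          ring
        rw [this, zero_smul, zero_add]
      · have : -y / β * β ≤ -x / α * β := mul_le_mul_of_nonneg_right hle hβ.le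
        rw [div_mul_cancel₀ _ hβ.ne'] at this
        linarith

theorem Geo.noncross_iff (h : Geo G P) {u w v1 v2 v3 v4 : V} (huw : u ≠ w) (h1 : G.Adj u v1)
    (h2 : G.Adj u v2) (h12 : v1 ≠ v2) (h3 : G.Adj w v3) (h4 : G.Adj w v4) :
    InCone (P u - P v1) (P u - P v2) (P w - P v3) ↔
      InCone (P u - P v1) (P u - P v2) (P w - P v4) :=
  ⟨h.noncross huw h1 h2 h12 h3 h4, h.noncross huw h1 h2 h12 h4 h3⟩

end Pool.Agent.Lib.MP_377e48_co
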