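import Pool.Agent.Lib.MP_377e48_co.Count

set_option autoImplicit false

/-! # A minimal non-3-colourable graph has at least `2n - 2` edges -/

namespace Pool.Agent.Lib.MP_377e48_co

open SimpleGraph Finset

variable {V : Type*} {G : SimpleGraph V} {P : V → ℝ × ℝ} {o y o' z : V}

theorem exists_pquad [Fintype V] (h : Geo G P) (p : ℝ × ℝ) (hp : p ≠ 0)
    (hgen : ∀ u v, G.Adj u v → cr p (P u - P v) ≠ 0) (hcol : ¬ G.Colorable 3) :
    ∃ o y o' z, PQuad G P o y o' z ∧ (InA P o y o' z p ∨ InA P o y o' z (-p)) := by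
  obtain ⟨o, y, o', z, q, hc⟩ := exists_quad h p hp hgen hcol
  have hc' : InA P o y o' z p ∨ InA P o y o' z (-p) := by
    rcases hc with h | h
    · exact Or.inl (Or.inr h)
    · exact Or.inr (Or.inr h)
  rcases q.ori with hpos | hneg
  · exact ⟨o, y, o', z, ⟨q.oy, q.yo', q.o'z, q.oz, q.ne1, q.ne2, hpos.1, hpos.2.1, hpos.2.2.1,
      hpos.2.2.2⟩, hc'⟩
  · have q' := q.swap
    have hp' : 0 < cr (P o - P z) (P o' - P z) ∧ 0 < cr (P o' - P z) (P o' - P y) ∧
      0 < cr (P o' - P y) (P o - P y) ∧ 0 < cr (P o - P z) (P o - P y) := by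
      rcases q'.ori with h1 | h1
      · exact h1
      · exfalso
        have := h1.1
        have h2 := hneg.2.2.1
        rw [cr_comm] at h2
        linarith
    refine ⟨o, z, o', y, ⟨q'.oy, q'.yo', q'.o'z, q'.oz, q'.ne1, q'.ne2, hp'.1, hp'.2.1, hp'.2.2.1,
      hp'.2.2.2⟩, ?_⟩
    exact hc'.imp (inA_swap _).2 (inA_swap _).2

theorem core [Fintype V] [DecidableEq V] [DecidableRel G.Adj] (hG : Geo G P)
    (hcol : ¬ G.Colorable 3)
    (hmin : ∀ X : Set V, X ≠ Set.univ → ∃ f : V → Fin 3, ∀ u ∈ X, ∀ v ∈ X, G.Adj u v → f u ≠ f v) :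
    2 * Fintype.card V ≤ G.edgeFinset.card + 2 := by
  classical
  -- every vertex has a neighbour
  have hdeg : ∀ v, ∃ w, G.Adj v w := by
    intro v
    by_contra hno
    push Not at hno
    obtain ⟨f, hf⟩ := hmin {x | x ≠ v} (fun h => by
      have : v ∈ ({x | x ≠ v} : Set V) := by rw [h]; trivial
      exact this rfl)
    apply hcol
    refine ⟨SimpleGraph.Coloring.mk f ?_⟩
    intro a b hab
    apply hf a _ b _ hab
    · rintro rfl; exact hno b hab
    · rintro rfl; exact hno a hab.symm
  -- there are at least two edges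
  have hother : ∀ δ : G.Dart, ∃ δ' : G.Dart, δ' ≠ δ ∧ δ' ≠ δ.symm := by
    intro δ
    by_contra hno
    push Not at hno
    apply hcol
    refine ⟨SimpleGraph.Coloring.mk (fun x => if x = δ.fst then (0 : Fin 3) else 1) ?_⟩
    intro a b hab
    by_cases h1 : (⟨(a, b), hab⟩ : G.Dart) = δ
    · have e1 : a = δ.fst := by rw [← h1]
      have e2 : b ≠ δ.fst := by rw [← e1]; exact hab.ne.symm
      show (if a = δ.fst then (0 : Fin 3) else 1) ≠ if b = δ.fst then (0 : Fin 3) else 1
      rw [if_pos e1, if_neg e2]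
      decide
    · have h2 := hno _ h1
      have e1 : b = δ.fst := by
        have := congrArg (fun d : G.Dart => d.symm.fst) h2
        simpa using this
      have e2 : a ≠ δ.fst := by rw [← e1]; exact hab.ne
      show (if a = δ.fst then (0 : Fin 3) else 1) ≠ if b = δ.fst then (0 : Fin 3) else 1
      rw [if_pos e1, if_neg e2]
      decide
  choose nx hnx using fun δ => exists_nx hG hother δ
  -- the four darts of a quadrilateral
  have hface : ∀ {o y o' z : V} (q : PQuad G P o y o' z),
      Nx P (⟨(o, y), q.oy⟩ : G.Dart) ⟨(o', y), q.yo'⟩ ∧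
      Nx P (⟨(o', z), q.o'z⟩ : G.Dart) ⟨(o, z), q.oz⟩ := by
    intro o y o' z q
    constructor
    · refine ⟨q.c12, ?_⟩
      rintro σ ⟨h1, h2⟩
      apply q.empty hG hcol hmin σ.adj
      left
      rw [inCone_pos q.c12]
      refine ⟨h1, ?_⟩
      have h2' : 0 < cr (P σ.fst - P σ.snd) (P o' - P y) := h2
      rw [cr_comm] at h2'
      linarith
    · refine ⟨q.c34, ?_⟩
      rintro σ ⟨h1, h2⟩
      apply q.empty hG hcol hmin σ.adj
      right
      rw [inCone_pos q.c34]
      refine ⟨h1, ?_⟩
      have h2' : 0 < cr (P σ.fst - P σ.snd) (P o - P z) := h2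
      rw [cr_comm] at h2'
      linarith
  -- every dart is in such a quadrilateral
  have hall : ∀ δ : G.Dart, ∃ (o y o' z : V) (q : PQuad G P o y o' z),
      δ = ⟨(o, y), q.oy⟩ ∨ δ = ⟨(o', z), q.o'z⟩ ∨ δ = (⟨(o, y), q.oy⟩ : G.Dart).symm ∨
        δ = (⟨(o', z), q.o'z⟩ : G.Dart).symm := by
    intro δ
    have hn := hnx δ
    set p := dir P δ + dir P (nx δ) with hp
    have h1 : 0 < cr (dir P δ) p := by
      rw [hp, cr_add_right, cr_self, zero_add]; exact hn.1
    have h2 : 0 < cr p (dir P (nx δ)) := by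
      rw [hp, cr_add_left, cr_self, add_zero]; exact hn.1
    have hp0 : p ≠ 0 := by
      intro h0
      rw [h0] at h1
      simp [cr] at h1
    have hgen : ∀ u v, G.Adj u v → cr p (P u - P v) ≠ 0 := by
      intro u v huv h0
      -- the dart or its reverse is a positive multiple of `p`
      have hh : ∀ σ : G.Dart, cr p (dir P σ) = 0 → ¬ 0 < cr (dir P δ) (dir P σ) := by
        intro σ hσ hpos
        apply hn.2 σ
        refine ⟨hpos, ?_⟩
        have m := plucker (dir P δ) p (dir P σ) (dir P (nx δ))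
        rw [hσ, mul_zero, add_zero] at m
        have e1 : 0 < cr (dir P δ) (dir P σ) * cr p (dir P (nx δ)) := mul_pos hpos h2
        have e2 : 0 < cr (dir P δ) p * cr (dir P σ) (dir P (nx δ)) := by linarith
        exact (pos_iff_pos_of_mul_pos e2).1 h1
      have a1 := hh ⟨(u, v), huv⟩ h0
      have a2 := hh (⟨(u, v), huv⟩ : G.Dart).symm (by
        rw [dir_symm, cr_neg_right]
        show - cr p (P u - P v) = 0
        rw [h0, neg_zero])
      rw [dir_symm, cr_neg_right] at a2
      have a3 : cr (dir P δ) (dir P (⟨(u, v), huv⟩ : G.Dart)) = 0 := by linarith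
      rcases dart_eq_of hG a3 with e | e
      · rw [← e] at h1
        have : cr p (dir P (⟨(u, v), huv⟩ : G.Dart)) = 0 := h0
        rw [cr_comm] at h1
        linarith
      · have e3 : dir P (⟨(u, v), huv⟩ : G.Dart) = - dir P δ := by rw [e, dir_symm]
        have : cr p (dir P (⟨(u, v), huv⟩ : G.Dart)) = 0 := h0
        rw [e3, cr_neg_right, cr_comm] at this
        linarith
    obtain ⟨o, y, o', z, q, hq⟩ := exists_pquad hG p hp0 hgen hcol
    obtain ⟨f1, f2⟩ := hface q
    refine ⟨o, y, o', z, q, ?_⟩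
    have fin : ∀ (r : ℝ × ℝ) (σ σ₁ : G.Dart), Nx P σ σ₁ → 0 < cr (dir P σ) r →
        0 < cr r (dir P σ₁) → InA P o y o' z r →
        σ = ⟨(o, y), q.oy⟩ ∨ σ = ⟨(o', z), q.o'z⟩ := by
      intro r σ σ₁ hσ g1 g2 hr
      unfold InA at hr
      rw [inCone_pos q.c12, inCone_pos q.c34] at hr
      rcases hr with ⟨g3, g4⟩ | ⟨g3, g4⟩
      · left
        exact gap_unique hG hσ f1 g1 g2 g3 (by
          show 0 < cr r (P o' - P y)
          rw [cr_comm]; linarith)
      · right
        exact gap_unique hG hσ f2 g1 g2 g3 (by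
          show 0 < cr r (P o - P z)
          rw [cr_comm]; linarith)
    rcases hq with hq | hq
    · rcases fin p δ (nx δ) hn h1 h2 hq with h | h
      · exact Or.inl h
      · exact Or.inr (Or.inl h)
    · rcases fin (-p) δ.symm (nx δ).symm hn.symm
        (by rw [dir_symm, cr_neg_left, cr_neg_right, neg_neg]; exact h1)
        (by rw [dir_symm, cr_neg_left, cr_neg_right, neg_neg]; exact h2) hq with h | h
      · right; right; left
        rw [← h, SimpleGraph.Dart.symm_symm]
      · right; right; right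
        rw [← h, SimpleGraph.Dart.symm_symm]
  -- the auxiliary graph
  set T : SimpleGraph V := SimpleGraph.fromRel (fun a b => ∃ δ : G.Dart, δ.fst = a ∧ (nx δ).fst = b)
    with hT
  set φ : G.Dart → Sym2 V := fun δ =>
    if δ.fst = (nx δ).fst then s(δ.snd, (nx δ).snd) else s(δ.fst, (nx δ).fst) with hφ
  have hfib : ∀ e ∈ T.edgeFinset, 4 ≤ (univ.filter (fun δ => φ δ = e)).card := by
    intro e he
    rw [SimpleGraph.mem_edgeFinset] at he
    -- `e` comes from a dart
    have hδ : ∃ δ : G.Dart, δ.fst ≠ (nx δ).fst ∧ e = s(δ.fst, (nx δ).fst) := by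
      induction e with
      | _ a b =>
        rw [SimpleGraph.mem_edgeSet, hT, SimpleGraph.fromRel_adj] at he
        obtain ⟨hab, ⟨δ, h1, h2⟩ | ⟨δ, h1, h2⟩⟩ := he
        · exact ⟨δ, by rw [h1, h2]; exact hab, by rw [h1, h2]⟩
        · exact ⟨δ, by rw [h1, h2]; exact hab.symm, by rw [h1, h2, Sym2.eq_swap]⟩
    obtain ⟨δ, hne, rfl⟩ := hδ
    obtain ⟨o, y, o', z, q, hq⟩ := hall δ
    obtain ⟨f1, f2⟩ := hface q
    have n1 : nx ⟨(o, y), q.oy⟩ = ⟨(o', y), q.yo'⟩ := nx_unique hG (hnx _) f1
    have n2 : nx ⟨(o', z), q.o'z⟩ = ⟨(o, z), q.oz⟩ := nx_unique hG (hnx _) f2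
    have n3 : nx (⟨(o, y), q.oy⟩ : G.Dart).symm = (⟨(o', y), q.yo'⟩ : G.Dart).symm :=
      nx_unique hG (hnx _) f1.symm
    have n4 : nx (⟨(o', z), q.o'z⟩ : G.Dart).symm = (⟨(o, z), q.oz⟩ : G.Dart).symm :=
      nx_unique hG (hnx _) f2.symm
    have he : s(δ.fst, (nx δ).fst) = s(o, o') := by
      rcases hq with h | h | h | h
      · rw [h, n1]
      · rw [h, n2]; exact Sym2.eq_swap
      · exfalso
        apply hne
        rw [h, n3]
        rfl
      · exfalso
        apply hne
        rw [h, n4]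
        rfl
    rw [he]
    have hsub : ({(⟨(o, y), q.oy⟩ : G.Dart), ⟨(o', z), q.o'z⟩, (⟨(o, y), q.oy⟩ : G.Dart).symm,
        (⟨(o', z), q.o'z⟩ : G.Dart).symm} : Finset G.Dart) ⊆
        univ.filter (fun δ => φ δ = s(o, o')) := by
      intro d hd
      simp only [mem_insert, mem_singleton] at hd
      rw [mem_filter]
      refine ⟨mem_univ _, ?_⟩
      rcases hd with h | h | h | h
      · rw [h]
        simp only [hφ]
        rw [n1, if_neg (show ¬ (o = o') from q.ne1)]
      · rw [h]
        simp only [hφ]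
        rw [n2, if_neg (show ¬ (o' = o) from q.ne1.symm)]
        exact Sym2.eq_swap
      · rw [h]
        simp only [hφ]
        rw [n3, if_pos (show (⟨(o, y), q.oy⟩ : G.Dart).symm.fst =
          (⟨(o', y), q.yo'⟩ : G.Dart).symm.fst from rfl)]
        rfl
      · rw [h]
        simp only [hφ]
        rw [n4, if_pos (show (⟨(o', z), q.o'z⟩ : G.Dart).symm.fst =
          (⟨(o, z), q.oz⟩ : G.Dart).symm.fst from rfl)]
        exact Sym2.eq_swap
    have hcard : ({(⟨(o, y), q.oy⟩ : G.Dart), ⟨(o', z), q.o'z⟩, (⟨(o, y), q.oy⟩ : G.Dart).symm,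
        (⟨(o', z), q.o'z⟩ : G.Dart).symm} : Finset G.Dart).card = 4 := by
      rw [card_insert_of_notMem, card_insert_of_notMem, card_insert_of_notMem, card_singleton]
      · rw [mem_singleton]
        intro h
        have := congrArg (fun d : G.Dart => d.fst) h
        exact q.ne2 this
      · simp only [mem_insert, mem_singleton, not_or]
        constructor
        · intro h
          have := congrArg (fun d : G.Dart => d.fst) h
          exact q.yo'.ne this
        · intro h
          have := congrArg (fun d : G.Dart => d.fst) h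
          exact q.o'z.ne this
      · simp only [mem_insert, mem_singleton, not_or]
        refine ⟨?_, ?_, ?_⟩
        · intro h
          have := congrArg (fun d : G.Dart => d.fst) h
          exact q.ne1 this
        · intro h
          have := congrArg (fun d : G.Dart => d.fst) h
          exact q.oy.ne this
        · intro h
          have := congrArg (fun d : G.Dart => d.fst) h
          exact q.oz.ne this
    calc 4 = _ := hcard.symm
      _ ≤ _ := card_le_card hsub
  -- counting
  have hcount : 4 * T.edgeFinset.card ≤ 2 * G.edgeFinset.card := by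
    rw [← G.dart_card_eq_twice_card_edges]
    have h1 := card_nsmul_le_sum T.edgeFinset (fun e => (univ.filter (fun δ => φ δ = e)).card) 4 hfib
    have h2 : ∑ e ∈ T.edgeFinset, (univ.filter (fun δ => φ δ = e)).card ≤ Fintype.card G.Dart := by
      rw [← card_biUnion]
      · rw [← card_univ]
        exact card_le_card (subset_univ _)
      · intro a _ b _ hab
        simp only [Function.onFun]
        rw [Finset.disjoint_left]
        intro x hx hx'
        rw [mem_filter] at hx hx'
        exact hab (hx.2.symm.trans hx'.2)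
    rw [smul_eq_mul, mul_comm] at h1
    exact h1.trans h2
  -- connectedness
  have hV : Nonempty V := by
    by_contra hno
    rw [not_nonempty_iff] at hno
    exact hcol ⟨SimpleGraph.Coloring.mk (fun x => (hno.false x).elim) (fun {a} => (hno.false a).elim)⟩
  obtain ⟨v0⟩ := hV
  have hreach : ∀ v, T.Reachable v0 v := by
    have h1 := closed_univ hG hother nx hnx (fun δ => T.Reachable v0 δ.fst) (by
      obtain ⟨w, hw⟩ := hdeg v0
      exact ⟨⟨(v0, w), hw⟩, SimpleGraph.Reachable.refl _⟩) (by
      intro δ hδ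
      by_cases he : δ.fst = (nx δ).fst
      · rw [← he]; exact hδ
      · apply hδ.trans
        apply SimpleGraph.Adj.reachable
        rw [hT, SimpleGraph.fromRel_adj]
        exact ⟨he, Or.inl ⟨δ, rfl, rfl⟩⟩)
    intro v
    obtain ⟨w, hw⟩ := hdeg v
    exact h1 ⟨(v, w), hw⟩
  have hconn : T.Connected := by
    have : Nonempty V := ⟨v0⟩
    exact ⟨fun a b => (hreach a).symm.trans (hreach b)⟩
  have h3 := hconn.card_vert_le_card_edgeSet_add_one
  rw [Nat.card_eq_fintype_card, Nat.card_eq_fintype_card, ← SimpleGraph.edgeFinset_card] at h3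
  omega

end Pool.Agent.Lib.MP_377e48_co
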