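import Pool.Agent.Lib.MP_377e48_co.Face

set_option autoImplicit false

/-! # Counting edges of a minimal graph -/

namespace Pool.Agent.Lib.MP_377e48_co

open SimpleGraph Finset

variable {V : Type*} {G : SimpleGraph V} {P : V → ℝ × ℝ}

/-- direction of a dart -/
def dir (P : V → ℝ × ℝ) (δ : G.Dart) : ℝ × ℝ := P δ.fst - P δ.snd

theorem dir_symm (δ : G.Dart) : dir P δ.symm = - dir P δ := by
  unfold dir
  simp [SimpleGraph.Dart.symm]

theorem dart_eq_of (hG : Geo G P) {δ δ' : G.Dart} (h : cr (dir P δ) (dir P δ') = 0) :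
    δ' = δ ∨ δ' = δ.symm := by
  by_contra hc
  rw [not_or] at hc
  apply hG.np δ.fst δ.snd δ'.fst δ'.snd δ.adj δ'.adj _ _ h
  · rintro ⟨h1, h2⟩
    exact hc.1 (SimpleGraph.Dart.ext _ _ (Prod.ext h1.symm h2.symm))
  · rintro ⟨h1, h2⟩
    exact hc.2 (SimpleGraph.Dart.ext _ _ (Prod.ext h2.symm h1.symm))

/-- `δ'` is the next dart after `δ` -/
def Nx (P : V → ℝ × ℝ) (δ δ' : G.Dart) : Prop :=
  0 < cr (dir P δ) (dir P δ') ∧
    ∀ σ : G.Dart, ¬ (0 < cr (dir P δ) (dir P σ) ∧ 0 < cr (dir P σ) (dir P δ'))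

theorem dir_ne_zero (hG : Geo G P) (hother : ∀ δ : G.Dart, ∃ δ' : G.Dart, δ' ≠ δ ∧ δ' ≠ δ.symm)
    (δ : G.Dart) : dir P δ ≠ 0 := by
  intro h0
  obtain ⟨δ', h1, h2⟩ := hother δ
  rcases dart_eq_of hG (δ := δ) (δ' := δ') (by rw [h0]; simp [cr]) with h | h
  · exact h1 h
  · exact h2 h

theorem exists_nx [Fintype V] (hG : Geo G P)
    (hother : ∀ δ : G.Dart, ∃ δ' : G.Dart, δ' ≠ δ ∧ δ' ≠ δ.symm) (δ : G.Dart) :
    ∃ δ', Nx P δ δ' := by
  classical
  set S : Finset G.Dart := univ.filter (fun σ => 0 < cr (dir P δ) (dir P σ)) with hS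
  have hne : S.Nonempty := by
    obtain ⟨δ', h1, h2⟩ := hother δ
    have h3 : cr (dir P δ) (dir P δ') ≠ 0 := fun h => by
      rcases dart_eq_of hG h with h | h
      · exact h1 h
      · exact h2 h
    rcases lt_or_gt_of_ne h3 with h | h
    · refine ⟨δ'.symm, ?_⟩
      rw [hS, mem_filter]
      refine ⟨mem_univ _, ?_⟩
      rw [dir_symm, cr_neg_right]; linarith
    · exact ⟨δ', by rw [hS, mem_filter]; exact ⟨mem_univ _, h⟩⟩
  obtain ⟨m, hm, hmin⟩ := exists_min_image S (fun σ => key (dir P δ) (dir P σ)) hne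
  rw [hS, mem_filter] at hm
  refine ⟨m, hm.2, ?_⟩
  rintro σ ⟨h1, h2⟩
  have h3 := hmin σ (by rw [hS, mem_filter]; exact ⟨mem_univ _, h1⟩)
  have hd := dir_ne_zero hG hother δ
  rw [← not_lt, key_lt_iff hd h1.ne' hm.2.ne'] at h3
  exact h3 (Or.inr ⟨mul_pos h1 hm.2, h2⟩)

theorem Nx.symm {δ δ' : G.Dart} (h : Nx P δ δ') : Nx P δ.symm δ'.symm := by
  constructor
  · rw [dir_symm, dir_symm, cr_neg_left, cr_neg_right, neg_neg]
    exact h.1
  · rintro σ ⟨h1, h2⟩
    apply h.2 σ.symm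
    rw [dir_symm] at h1 h2 ⊢
    rw [cr_neg_left] at h1 ⊢
    rw [cr_neg_right] at h2 ⊢
    exact ⟨h1, h2⟩

/-- a point of two gaps -/
theorem gap_unique (hG : Geo G P) {δ δ₁ σ σ₁ : G.Dart} (h : Nx P δ δ₁) (h' : Nx P σ σ₁)
    {p : ℝ × ℝ} (h1 : 0 < cr (dir P δ) p) (h2 : 0 < cr p (dir P δ₁)) (h3 : 0 < cr (dir P σ) p)
    (h4 : 0 < cr p (dir P σ₁)) : δ = σ := by
  -- general step
  have step : ∀ {a a₁ b : G.Dart}, Nx P a a₁ → 0 < cr (dir P a) p → 0 < cr p (dir P a₁) →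
      0 < cr (dir P b) p → 0 < cr (dir P a) (dir P b) → False := by
    intro a a₁ b ha k1 k2 k3 k4
    apply ha.2 b
    refine ⟨k4, ?_⟩
    have m := plucker (dir P a) (dir P b) p (dir P a₁)
    have e1 := mul_pos k4 k2
    have e2 := mul_pos ha.1 k3
    have e3 : 0 < cr (dir P a) p * cr (dir P b) (dir P a₁) := by linarith
    exact (pos_iff_pos_of_mul_pos e3).1 k1
  by_contra hne
  have h0 : cr (dir P δ) (dir P σ) ≠ 0 := by
    intro h0
    rcases dart_eq_of hG h0 with e | e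
    · exact hne e.symm
    · rw [e, dir_symm, cr_neg_left] at h3
      linarith
  rcases lt_or_gt_of_ne h0 with hlt | hgt
  · exact step h' h3 h4 h1 (by rw [cr_comm]; linarith)
  · exact step h h1 h2 h3 hgt

theorem nx_unique (hG : Geo G P) {δ a b : G.Dart} (ha : Nx P δ a) (hb : Nx P δ b) : a = b := by
  by_contra hne
  have h0 : cr (dir P a) (dir P b) ≠ 0 := by
    intro h0
    rcases dart_eq_of hG h0 with e | e
    · exact hne e.symm
    · have := hb.1
      rw [e, dir_symm, cr_neg_right] at this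
      linarith [ha.1]
  rcases lt_or_gt_of_ne h0 with hlt | hgt
  · exact ha.2 b ⟨hb.1, by rw [cr_comm]; linarith⟩
  · exact hb.2 a ⟨ha.1, hgt⟩

/-- a set of darts closed under the successor is everything -/
theorem closed_univ [Fintype V] (hG : Geo G P)
    (hother : ∀ δ : G.Dart, ∃ δ' : G.Dart, δ' ≠ δ ∧ δ' ≠ δ.symm) (nx : G.Dart → G.Dart)
    (hnx : ∀ δ, Nx P δ (nx δ)) (X : G.Dart → Prop) (hX : ∃ δ, X δ) (hcl : ∀ δ, X δ → X (nx δ)) :
    ∀ σ, X σ := by
  classical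
  intro σ
  by_contra hσ
  have hd := dir_ne_zero hG hother σ
  have step1 : ∀ x, X x → ¬ 0 < cr (dir P x) (dir P σ) := by
    intro x hx hpos
    set S : Finset G.Dart := univ.filter (fun y => X y ∧ 0 < cr (dir P y) (dir P σ)) with hS
    have hne : S.Nonempty := ⟨x, by rw [hS, mem_filter]; exact ⟨mem_univ _, hx, hpos⟩⟩
    obtain ⟨m, hm, hmax⟩ := exists_max_image S (fun y => key (-dir P σ) (dir P y)) hne
    rw [hS, mem_filter] at hm
    obtain ⟨-, hmX, hmp⟩ := hm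
    have hn := hnx m
    have h1 : ¬ 0 < cr (dir P σ) (dir P (nx m)) := fun h => hn.2 σ ⟨hmp, h⟩
    have h2 : cr (dir P σ) (dir P (nx m)) ≠ 0 := by
      intro h0
      rcases dart_eq_of hG h0 with e | e
      · exact hσ (e ▸ hcl m hmX)
      · have := hn.1
        rw [e, dir_symm, cr_neg_right] at this
        linarith
    have h3 : 0 < cr (dir P (nx m)) (dir P σ) := by
      rw [cr_comm]
      rcases lt_or_gt_of_ne h2 with h | h
      · linarith
      · exact absurd h h1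
    have h4 := hmax (nx m) (by rw [hS, mem_filter]; exact ⟨mem_univ _, hcl m hmX, h3⟩)
    have hd' : -dir P σ ≠ 0 := neg_ne_zero.2 hd
    have e1 : ∀ y : G.Dart, cr (-dir P σ) (dir P y) = cr (dir P y) (dir P σ) := by
      intro y; rw [cr_neg_left, cr_comm (dir P y)]; ring
    rw [← not_lt, key_lt_iff hd' (by rw [e1]; exact hmp.ne') (by rw [e1]; exact h3.ne'), e1, e1]
      at h4
    exact h4 (Or.inr ⟨mul_pos hmp h3, hn.1⟩)
  by_cases hs : X σ.symm
  · have h1 := (hnx σ.symm).1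
    rw [dir_symm, cr_neg_left] at h1
    apply step1 _ (hcl _ hs)
    rw [cr_comm]
    linarith
  · have hpos : ∀ x, X x → 0 < cr (dir P σ) (dir P x) := by
      intro x hx
      have h1 := step1 x hx
      rw [cr_comm (dir P σ)] at h1
      have h2 : cr (dir P σ) (dir P x) ≠ 0 := by
        intro h0
        rcases dart_eq_of hG h0 with e | e
        · exact hσ (e ▸ hx)
        · exact hs (e ▸ hx)
      rcases lt_or_gt_of_ne h2 with h | h
      · exact absurd (by linarith) h1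
      · exact h
    obtain ⟨x0, hx0⟩ := hX
    set S : Finset G.Dart := univ.filter (fun y => X y) with hS
    have hne : S.Nonempty := ⟨x0, by rw [hS, mem_filter]; exact ⟨mem_univ _, hx0⟩⟩
    obtain ⟨m, hm, hmax⟩ := exists_max_image S (fun y => key (dir P σ) (dir P y)) hne
    rw [hS, mem_filter] at hm
    have h4 := hmax (nx m) (by rw [hS, mem_filter]; exact ⟨mem_univ _, hcl m hm.2⟩)
    have p1 := hpos m hm.2
    have p2 := hpos (nx m) (hcl m hm.2)
    rw [← not_lt, key_lt_iff hd p1.ne' p2.ne'] at h4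
    exact h4 (Or.inr ⟨mul_pos p1 p2, (hnx m).1⟩)

end Pool.Agent.Lib.MP_377e48_co
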