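import Pool.Agent.Lib.MP_377e48_co.Disc

set_option autoImplicit false

/-! # A critical subfamily has many tangencies -/

namespace Pool.Agent.Lib.MP_377e48_co

open Finset

variable {V : Type*}

/-- `G` restricted to `S` has a proper colouring with three colours -/
def Good (G : SimpleGraph V) (S : Finset V) : Prop :=
  ∃ f : V → Fin 3, ∀ u ∈ S, ∀ v ∈ S, G.Adj u v → f u ≠ f v

theorem exists_min_bad (G : SimpleGraph V) [Fintype V] [DecidableEq V] (h : ¬ G.Colorable 3) :
    ∃ S : Finset V, ¬ Good G S ∧ ∀ v ∈ S, Good G (S.erase v) := by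
  classical
  have h0 : ¬ Good G Finset.univ := by
    rintro ⟨f, hf⟩
    apply h
    exact ⟨SimpleGraph.Coloring.mk f (fun {u v} huv => hf u (mem_univ _) v (mem_univ _) huv)⟩
  have hex : ∃ n : ℕ, ∃ S : Finset V, ¬ Good G S ∧ S.card = n := ⟨_, _, h0, rfl⟩
  obtain ⟨S, hS, hc⟩ := Nat.find_spec hex
  refine ⟨S, hS, ?_⟩
  intro v hv
  by_contra hcon
  have := Nat.find_min' hex ⟨S.erase v, hcon, rfl⟩
  have h2 := Finset.card_erase_lt_of_mem hv
  omega

variable {c : V → E2} {ρ : V → ℝ}

theorem Discs.sub (h : Discs c ρ) (S : Finset V) :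
    Discs (fun v : {x // x ∈ S} => c v.1) (fun v : {x // x ∈ S} => ρ v.1) :=
  ⟨fun a b e => Subtype.ext (h.inj e), fun i => h.pos _, fun i j => h.meet _ _⟩

theorem tg_sub_adj (h : Discs c ρ) (S : Finset V) (u v : {x // x ∈ S}) :
    (tg (fun v : {x // x ∈ S} => c v.1) (fun v : {x // x ∈ S} => ρ v.1)).Adj u v ↔
      (tg c ρ).Adj u.1 v.1 := by
  rw [tg_adj (h.sub S), tg_adj h]

/-- **Main theorem.** If the tangent graph of a pairwise intersecting family of discs is not
3-colourable then some subfamily of `m ≥ 4` discs has at least `2 m - 2` tangencies. -/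
theorem exists_dense [Fintype V] [DecidableEq V] (h : Discs c ρ) (hcol : ¬ (tg c ρ).Colorable 3) :
    ∃ S : Finset V, 4 ≤ S.card ∧
      ∀ [DecidableRel (tg (fun v : {x // x ∈ S} => c v.1) (fun v : {x // x ∈ S} => ρ v.1)).Adj],
      2 * S.card ≤
        (tg (fun v : {x // x ∈ S} => c v.1) (fun v : {x // x ∈ S} => ρ v.1)).edgeFinset.card + 2 := by
  classical
  obtain ⟨S, hbad, hgood⟩ := exists_min_bad (tg c ρ) hcol
  have hD := h.sub S
  have hA := tg_sub_adj h S
  set G' := tg (fun v : {x // x ∈ S} => c v.1) (fun v : {x // x ∈ S} => ρ v.1) with hG'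
  have hcol' : ¬ G'.Colorable 3 := by
    rintro ⟨C⟩
    apply hbad
    refine ⟨fun x => if hx : x ∈ S then C ⟨x, hx⟩ else 0, ?_⟩
    intro u hu v hv huv
    simp only [hu, hv, dif_pos]
    exact C.valid ((hA ⟨u, hu⟩ ⟨v, hv⟩).2 huv)
  have hmin : ∀ X : Set {x // x ∈ S}, X ≠ Set.univ →
      ∃ f : {x // x ∈ S} → Fin 3, ∀ u ∈ X, ∀ v ∈ X, G'.Adj u v → f u ≠ f v := by
    intro X hX
    obtain ⟨y, hy⟩ := (Set.ne_univ_iff_exists_notMem X).1 hX
    obtain ⟨f, hf⟩ := hgood y.1 y.2
    refine ⟨fun v => f v.1, ?_⟩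
    intro u hu v hv huv
    apply hf u.1 _ v.1 _ ((hA u v).1 huv)
    · exact Finset.mem_erase.2 ⟨fun e => hy (by rwa [Subtype.ext e] at hu), u.2⟩
    · exact Finset.mem_erase.2 ⟨fun e => hy (by rwa [Subtype.ext e] at hv), v.2⟩
  have hcrit : Crit G' := by
    intro a b hab
    by_contra hcon
    push Not at hcon
    obtain ⟨f, hf⟩ := hmin {x | x ≠ a} (by
      rw [Set.ne_univ_iff_exists_notMem]
      exact ⟨a, by simp⟩)
    apply hcol'
    refine ⟨SimpleGraph.Coloring.mk (fun x => if x = a then f b else f x) ?_⟩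
    intro u v huv
    by_cases hu : u = a
    · subst hu
      have hv : v ≠ u := huv.ne.symm
      simp only [if_true, hv, if_false]
      exact hf b hab.symm v hv (hcon v huv)
    · by_cases hv : v = a
      · subst hv
        simp only [if_true, hu, if_false]
        exact fun e => hf b hab.symm u hu (hcon u huv.symm) e.symm
      · simp only [hu, hv, if_false]
        exact hf u hu v hv huv
  refine ⟨S, ?_, ?_⟩
  · by_contra hlt
    apply hcol'
    have h1 := G'.colorable_of_fintype
    apply h1.mono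
    rw [Fintype.card_coe]
    omega
  · intro inst
    have := core (geo_of_crit hD hcrit) hcol' hmin
    rw [Fintype.card_coe] at this
    exact this

end Pool.Agent.Lib.MP_377e48_co
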