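import Pool.Agent.Lib.MP_377e48_co.Alt

set_option autoImplicit false

/-! # Number of ascents of a closed curve -/

namespace Pool.Agent.Lib.MP_377e48_co

open Finset

variable {V : Type*} {G : SimpleGraph V} {P : V → ℝ × ℝ}

/-- white end of a crossing -/
def Wh {K : ℕ} (w : ZMod K → V) : ZMod K × Bool → V
  | (j, false) => w j
  | (j, true) => w (j + 1)

def sN {K : ℕ} : ZMod K × Bool → ZMod K × Bool
  | (j, false) => (j - 1, true)
  | (j, true) => (j + 1, false)

def sS {K : ℕ} : ZMod K × Bool → ZMod K × Bool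
  | (j, false) => (j, true)
  | (j, true) => (j, false)

def sgn {K : ℕ} : ZMod K × Bool → ℤ
  | (_, false) => 1
  | (_, true) => -1

theorem curve_bound (h : Geo G P) (p : ℝ × ℝ) (hp : p ≠ 0)
    (hgen : ∀ u v, G.Adj u v → cr p (P u - P v) ≠ 0) (K : ℕ) [NeZero K] (hK : 2 ≤ K)
    (w b : ZMod K → V) (hw : Function.Injective w) (hb : Function.Injective b)
    (hwb : ∀ j, G.Adj (w j) (b j)) (hbw : ∀ j, G.Adj (b j) (w (j + 1))) :
    (univ.filter (fun j => cr p (P (w j)) < cr p (P (b j)))).card +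
      (univ.filter (fun j => cr p (P (b j)) < cr p (P (w (j + 1))))).card ≤ K + 1 := by
  classical
  set τ : ZMod K × Bool → ℝ × ℝ := fun i => P (Wh w i) - P (b i.1) with hτdef
  have h1ne : (1 : ZMod K) ≠ 0 := by
    intro h1
    have : (K : ℕ) ∣ 1 := by
      rw [← ZMod.natCast_eq_zero_iff]; exact_mod_cast h1
    have := Nat.le_of_dvd one_pos this
    omega
  have hjj : ∀ j : ZMod K, j + 1 ≠ j := by
    intro j hj
    exact h1ne (by simpa using hj)
  have hadj : ∀ i, G.Adj (Wh w i) (b i.1) := by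
    rintro ⟨j, _ | _⟩
    · exact hwb j
    · exact (hbw j).symm
  have hτp : ∀ i, cr p (τ i) ≠ 0 := fun i => hgen _ _ (hadj i)
  have hdart : ∀ i i', Wh w i = Wh w i' → i.1 = i'.1 → i = i' := by
    rintro ⟨j, s⟩ ⟨j', s'⟩ h1 h2
    simp only at h2
    subst h2
    cases s <;> cases s' <;> simp only [Wh] at h1
    · rfl
    · exact absurd (hw h1).symm (hjj j)
    · exact absurd (hw h1) (hjj j)
    · rfl
  have hτ : ∀ i j, i ≠ j → cr (τ i) (τ j) ≠ 0 ∨ τ j = - τ i := by
    intro i j hij
    by_cases hrev : Wh w i = b j.1 ∧ b i.1 = Wh w j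
    · right
      simp only [hτdef]
      rw [hrev.1, hrev.2]; abel
    · left
      apply h.np _ _ _ _ (hadj i) (hadj j) _ hrev
      rintro ⟨h1, h2⟩
      exact hij (hdart i j h1 (hb h2))
  have hN : ∀ i : ZMod K × Bool, sN (sN i) = i := by
    rintro ⟨j, _ | _⟩ <;> simp [sN]
  have hS : ∀ i : ZMod K × Bool, sS (sS i) = i := by
    rintro ⟨j, _ | _⟩ <;> simp [sS]
  have hN1 : ∀ i : ZMod K × Bool, sN i ≠ i := by
    rintro ⟨j, _ | _⟩ <;> simp [sN]
  have hS1 : ∀ i : ZMod K × Bool, sS i ≠ i := by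
    rintro ⟨j, _ | _⟩ <;> simp [sS]
  have hNW : ∀ i, Wh w (sN i) = Wh w i := by
    rintro ⟨j, _ | _⟩ <;> simp [sN, Wh]
  have hSB : ∀ i : ZMod K × Bool, (sS i).1 = i.1 := by
    rintro ⟨j, _ | _⟩ <;> simp [sS]
  have hNB : ∀ i : ZMod K × Bool, (sN i).1 ≠ i.1 := by
    rintro ⟨j, _ | _⟩
    · simp only [sN]
      intro hj
      exact h1ne (by simpa using hj)
    · simp only [sN]; exact hjj j
  have hSW : ∀ i : ZMod K × Bool, Wh w (sS i) ≠ Wh w i := by
    rintro ⟨j, _ | _⟩
    · simp only [sS, Wh]; exact fun e => hjj j (hw e)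
    · simp only [sS, Wh]; exact fun e => hjj j (hw e).symm
  -- whites of different chords differ
  have hNdiff : ∀ i j, j ≠ i → j ≠ sN i → Wh w i ≠ Wh w j := by
    rintro ⟨i, s⟩ ⟨j, s'⟩ h1 h2 h3
    cases s <;> cases s' <;> simp only [Wh, sN, ne_eq, Prod.mk.injEq, and_true, and_false,
      not_false_eq_true] at h1 h2 h3
    · exact h1 (hw h3).symm
    · exact h2 (by rw [hw h3]; simp)
    · exact h2 (hw h3).symm
    · exact h1 (by simpa using (hw h3).symm)
  have hSdiff : ∀ i j : ZMod K × Bool, j ≠ i → j ≠ sS i → b i.1 ≠ b j.1 := by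
    rintro ⟨i, s⟩ ⟨j, s'⟩ h1 h2 h3
    have h4 := hb h3
    simp only at h4
    subst h4
    cases s <;> cases s' <;> simp [sS] at h1 h2
  have hcrN : ∀ i, cr (τ i) (τ (sN i)) ≠ 0 := by
    intro i
    have e : τ (sN i) = P (Wh w i) - P (b (sN i).1) := by simp only [hτdef]; rw [hNW]
    rw [e]
    apply h.np _ _ _ _ (hadj i) (by rw [← hNW i]; exact hadj (sN i))
    · rintro ⟨_, h2⟩
      exact hNB i (hb h2).symm
    · rintro ⟨h1, h2⟩
      exact (hadj i).ne h2.symm
  have hcrS : ∀ i, cr (τ i) (τ (sS i)) ≠ 0 := by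
    intro i
    have e : τ (sS i) = P (Wh w (sS i)) - P (b i.1) := by simp only [hτdef]; rw [hSB]
    rw [e]
    apply h.np _ _ _ _ (hadj i) (by have := hadj (sS i); rwa [hSB] at this)
    · rintro ⟨h1, _⟩
      exact hSW i h1.symm
    · rintro ⟨h1, h2⟩
      exact (hadj i).ne h1
  have hncN : ∀ i j, j ≠ i → j ≠ sN i →
      (InCone (τ i) (τ (sN i)) (τ j) ↔ InCone (τ i) (τ (sN i)) (τ (sN j))) := by
    intro i j h1 h2
    have e : τ (sN i) = P (Wh w i) - P (b (sN i).1) := by simp only [hτdef]; rw [hNW]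
    have e' : τ (sN j) = P (Wh w j) - P (b (sN j).1) := by simp only [hτdef]; rw [hNW]
    rw [e, e']
    exact h.noncross_iff (hNdiff i j h1 h2) (hadj i) (by rw [← hNW i]; exact hadj (sN i))
      (fun e => hNB i (hb e).symm) (hadj j) (by rw [← hNW j]; exact hadj (sN j))
  have hncS : ∀ i j, j ≠ i → j ≠ sS i →
      (InCone (τ i) (τ (sS i)) (τ j) ↔ InCone (τ i) (τ (sS i)) (τ (sS j))) := by
    intro i j h1 h2
    have e0 : ∀ k, τ k = -(P (b k.1) - P (Wh w k)) := by
      intro k; simp only [hτdef]; abel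
    have e : τ (sS i) = -(P (b i.1) - P (Wh w (sS i))) := by rw [e0, hSB]
    have e' : τ (sS j) = -(P (b j.1) - P (Wh w (sS j))) := by rw [e0, hSB]
    rw [e, e', e0 i, e0 j, inCone_neg, inCone_neg]
    have a1 : G.Adj (b i.1) (Wh w (sS i)) := by
      have := (hadj (sS i)).symm; rwa [hSB] at this
    have a2 : G.Adj (b j.1) (Wh w (sS j)) := by
      have := (hadj (sS j)).symm; rwa [hSB] at this
    exact h.noncross_iff (hSdiff i j h1 h2) (hadj i).symm a1
      (fun e => hSW i e.symm) (hadj j).symm a2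
  set F : ZMod K × Bool → ℕ := fun i => (univ.filter (fun j => key p (τ j) < key p (τ i))).card
    with hF
  have hFN : ∀ i, Odd (F i + F (sN i)) := rank_odd p hp τ hτp hτ sN hN hN1 hcrN hncN
  have hFS : ∀ i, Odd (F i + F (sS i)) := rank_odd p hp τ hτp hτ sS hS hS1 hcrS hncS
  have hflip : ∀ a c : ℕ, Odd (a + c) → (-1 : ℤ) ^ a = -(-1 : ℤ) ^ c := by
    intro a c hac
    rcases Nat.even_or_odd a with ha | ha
    · have hc : Odd c := by
        rcases Nat.even_or_odd c with hc | hc
        · exact absurd (ha.add hc) (Nat.not_even_iff_odd.2 hac)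
        · exact hc
      rw [ha.neg_one_pow, hc.neg_one_pow]; norm_num
    · have hc : Even c := by
        rcases Nat.even_or_odd c with hc | hc
        · exact hc
        · exact absurd (ha.add_odd hc) (Nat.not_even_iff_odd.2 hac)
      rw [ha.neg_one_pow, hc.neg_one_pow]
  set g : ZMod K × Bool → ℤ := fun i => sgn i * (-1) ^ (F i) with hg
  have hgS : ∀ j, g (j, true) = g (j, false) := by
    intro j
    have h1 := hflip _ _ (hFS (j, false))
    simp only [sS] at h1
    simp only [hg, sgn]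
    rw [h1]; ring
  have hgN : ∀ j, g (j + 1, false) = g (j, true) := by
    intro j
    have h1 := hflip _ _ (hFN (j, true))
    simp only [sN] at h1
    simp only [hg, sgn]
    rw [h1]; ring
  have hconst : ∀ j, g (j, false) = g (0, false) := by
    have h1 : ∀ n : ℕ, g ((n : ZMod K), false) = g (0, false) := by
      intro n
      induction n with
      | zero => simp
      | succ n ih =>
        rw [Nat.cast_succ, hgN, hgS, ih]
    intro j
    have := h1 j.val
    rwa [ZMod.natCast_zmod_val] at this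
  set c : ℤ := g (0, false) with hc
  have hgc : ∀ i, g i = c := by
    rintro ⟨j, _ | _⟩
    · exact hconst j
    · rw [hgS]; exact hconst j
  have hsq : ∀ n : ℕ, (-1 : ℤ) ^ n * (-1) ^ n = 1 := by
    intro n
    rw [← mul_pow]; norm_num
  have hsgn : ∀ i, sgn i = c * (-1) ^ (F i) := by
    intro i
    rw [← hgc i]
    simp only [hg]
    rw [mul_assoc, hsq, mul_one]
  have hcabs : c = 1 ∨ c = -1 := by
    rw [hc]
    simp only [hg, sgn, one_mul]
    exact neg_one_pow_eq_or ℤ _
  set R : Finset (ZMod K × Bool) := univ.filter (fun i => 0 < cr p (τ i)) with hR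
  have hRin : ∀ i ∈ R, ∀ j, key p (τ j) < key p (τ i) → j ∈ R := by
    intro i hi j hj
    rw [hR, mem_filter] at hi ⊢
    refine ⟨mem_univ _, ?_⟩
    rw [key_lt_iff hp (hτp j) (hτp i)] at hj
    rcases hj with ⟨h1, h2⟩ | ⟨h1, _⟩
    · linarith [hi.2]
    · exact (pos_iff_pos_of_mul_pos h1).2 hi.2
  have hinj : Function.Injective (fun i => key p (τ i)) := by
    intro i j hij
    by_contra hne
    exact key_ne hp (hτp i) (hτp j) (hτ i j hne) hij
  have hsum := alt_sum (fun i => key p (τ i)) hinj R.card R rfl hRin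
  have hD : ∑ i ∈ R, sgn i = c * (if Even R.card then 0 else 1) := by
    rw [← hsum, mul_sum]
    apply sum_congr rfl
    intro i _
    exact hsgn i
  have hDle : -1 ≤ ∑ i ∈ R, sgn i := by
    rw [hD]
    rcases hcabs with h1 | h1 <;> rw [h1] <;> split_ifs <;> norm_num
  -- counting
  have hsplit : ∑ i ∈ R, sgn i = (univ.filter (fun j : ZMod K => 0 < cr p (τ (j, false)))).card -
      ((univ.filter (fun j : ZMod K => 0 < cr p (τ (j, true)))).card : ℤ) := by
    rw [hR, sum_filter, Fintype.sum_prod_type]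
    simp only [Fintype.sum_bool, sgn]
    rw [sum_add_distrib, card_filter, card_filter]
    push_cast
    have : ∀ j : ZMod K, (if 0 < cr p (τ (j, true)) then (-1 : ℤ) else 0) =
        - (if 0 < cr p (τ (j, true)) then (1 : ℤ) else 0) := by
      intro j; split_ifs <;> simp
    simp only [this, sum_neg_distrib]
    ring
  have ht : univ.filter (fun j : ZMod K => cr p (P (b j)) < cr p (P (w (j + 1)))) =
      univ.filter (fun j : ZMod K => 0 < cr p (τ (j, true))) := by
    ext j
    simp only [mem_filter, mem_univ, true_and, hτdef, Wh]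
    rw [cr_sub_right, sub_pos]
  have hf : univ.filter (fun j : ZMod K => cr p (P (w j)) < cr p (P (b j))) =
      univ \ univ.filter (fun j : ZMod K => 0 < cr p (τ (j, false))) := by
    ext j
    simp only [mem_filter, mem_univ, true_and, hτdef, Wh, mem_sdiff]
    have h1 := hτp (j, false)
    simp only [hτdef, Wh] at h1
    rw [cr_sub_right] at h1 ⊢
    rw [sub_pos, not_lt]
    exact ⟨fun h => h.le, fun h => lt_of_le_of_ne h (fun e => h1 (by rw [e]; ring))⟩
  rw [ht, hf]
  have e1 := card_sdiff_add_card_eq_card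
    (subset_univ (univ.filter (fun j : ZMod K => 0 < cr p (τ (j, false)))))
  rw [card_univ, ZMod.card] at e1
  rw [hsplit] at hDle
  omega

end Pool.Agent.Lib.MP_377e48_co
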