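import Pool.Agent.Lib.MP_377e48_co.Cyc1a

set_option autoImplicit false

namespace Pool.Agent.MP_377e48_co

open Finset

theorem Cyc1_w_mod {V : Type*} (W : Wrd V) (s s' : ℤ) (h : (2 * W.m) ∣ (s - s')) :
    W.w s = W.w s' := by
  have hn : ∀ (n : ℕ) (x : ℤ), W.w (x + n * (2 * W.m)) = W.w x := by
    intro n
    induction n with
    | zero => intro x; simp
    | succ n ih =>
      intro x
      have e : x + ((n + 1 : ℕ) : ℤ) * (2 * W.m) = (x + n * (2 * W.m)) + 2 * W.m := by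
        push_cast; ring
      rw [e, W.per, ih]
  obtain ⟨k, hk⟩ := h
  rcases Int.eq_nat_or_neg k with ⟨n, rfl | rfl⟩
  · have e : s = s' + n * (2 * W.m) := by linarith
    rw [e, hn]
  · have e : s' = s + n * (2 * W.m) := by linarith
    rw [e, hn]

theorem Cyc1_rep (M : ℤ) (hM : 0 < M) (s x : ℤ) :
    ∃ x', s ≤ x' ∧ x' < s + M ∧ M ∣ (x' - x) := by
  refine ⟨s + (x - s) % M, ?_, ?_, ?_⟩
  · have := Int.emod_nonneg (x - s) hM.ne'
    linarith
  · have := Int.emod_lt_of_pos (x - s) hM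
    linarith
  · have h := Int.emod_add_mul_ediv (x - s) M
    refine ⟨-((x - s) / M), ?_⟩
    linarith [h]

theorem Cyc1_hsum_one {V : Type*} (W : Wrd V) (s1 s2 x x' : ℤ) (h1 : s1 < x') (h2 : x' < s2)
    (h3 : s2 ≤ s1 + 2 * W.m) (hd : (2 * W.m) ∣ (x' - x)) :
    ∑ s ∈ Ioo s1 s2, W.hit x s = 1 := by
  rw [Finset.sum_eq_single x']
  · simp [Wrd.hit, hd]
  · intro s hs hne
    rw [mem_Ioo] at hs
    have : ¬ (2 * W.m) ∣ (s - x) := by
      intro hc
      have h4 : (2 * W.m) ∣ (s - x') := by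
        have := dvd_sub hc hd
        have e : s - x - (x' - x) = s - x' := by ring
        rwa [e] at this
      have h5 : s - x' = 0 := by
        apply Int.eq_zero_of_abs_lt_dvd h4
        rw [abs_lt]; constructor <;> linarith [hs.1, hs.2]
      exact hne (by linarith)
    simp [Wrd.hit, this]
  · intro hn
    exact absurd (mem_Ioo.mpr ⟨h1, h2⟩) hn

theorem Cyc1_hsum_zero {V : Type*} (W : Wrd V) (s1 s2 x : ℤ)
    (h : ∀ x', s1 < x' → x' < s2 → ¬ (2 * W.m) ∣ (x' - x)) :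
    ∑ s ∈ Ioo s1 s2, W.hit x s = 0 := by
  apply Finset.sum_eq_zero
  intro s hs
  rw [mem_Ioo] at hs
  simp [Wrd.hit, h s hs.1 hs.2]

theorem Cyc1_side {V : Type*} (W : Wrd V) (s1 s2 x y x' : ℤ) (h12 : s1 < s2)
    (hw : W.w s1 = W.w s2) (hxy : W.w x = W.w y) (hne : W.w y ≠ W.w s1)
    (h1 : s1 < x') (h2 : x' < s2) (hd : (2 * W.m) ∣ (x' - x)) :
    ∃ y', s1 < y' ∧ y' < s2 ∧ (2 * W.m) ∣ (y' - y) := by
  have hm := W.hm
  obtain ⟨y', ha, hb, hc⟩ := Cyc1_rep (2 * W.m) (by linarith) s1 y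
  have hwy : W.w y' = W.w y := Cyc1_w_mod W y' y hc
  have hwx : W.w x' = W.w x := Cyc1_w_mod W x' x hd
  have hy1 : s1 ≠ y' := by
    rintro rfl
    exact hne hwy.symm
  have hy2 : y' ≠ s2 := by
    rintro rfl
    exact hne (by rw [← hwy, ← hw])
  refine ⟨y', lt_of_le_of_ne ha hy1, ?_, hc⟩
  by_contra hcon
  have hlt : s2 < y' := lt_of_le_of_ne (not_lt.mp hcon) (Ne.symm hy2)
  have := W.nc s1 x' s2 y' h1 h2 hlt hb hw (by rw [hwx, hxy, hwy])
  exact hne (by rw [← hxy, ← hwx, ← this])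

theorem Cyc1_L1 {V : Type*} (W : Wrd V) (s1 s2 x y : ℤ) (h12 : s1 < s2)
    (h3 : s2 ≤ s1 + 2 * W.m)
    (hw : W.w s1 = W.w s2) (hxy : W.w x = W.w y) (hne : W.w y ≠ W.w s1) :
    ∑ s ∈ Ioo s1 s2, W.hit x s = ∑ s ∈ Ioo s1 s2, W.hit y s := by
  by_cases hx : ∃ x', s1 < x' ∧ x' < s2 ∧ (2 * W.m) ∣ (x' - x)
  · obtain ⟨x', a, b, c⟩ := hx
    obtain ⟨y', a', b', c'⟩ := Cyc1_side W s1 s2 x y x' h12 hw hxy hne a b c
    rw [Cyc1_hsum_one W s1 s2 x x' a b h3 c, Cyc1_hsum_one W s1 s2 y y' a' b' h3 c']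
  · by_cases hy : ∃ y', s1 < y' ∧ y' < s2 ∧ (2 * W.m) ∣ (y' - y)
    · obtain ⟨y', a, b, c⟩ := hy
      exact absurd (Cyc1_side W s1 s2 y x y' h12 hw hxy.symm (by rw [hxy]; exact hne) a b c) hx
    · rw [Cyc1_hsum_zero W s1 s2 x, Cyc1_hsum_zero W s1 s2 y]
      · intro y' a b c
        exact hy ⟨y', a, b, c⟩
      · intro x' a b c
        exact hx ⟨x', a, b, c⟩

section B1
variable {V : Type*} {W : Wrd V} {L : ℕ} [NeZero L] (Z : Cyc W L)

theorem Cyc1_tele (a b : ℤ) (hab : a ≤ b) :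
    Z.C b = Z.C a - 2 * ∑ s ∈ Ico a b, Z.eps s := by
  induction b, hab using Int.le_induction with
  | base => simp
  | succ b hab ih =>
    rw [C_succ, ih]
    have e : Ico a (b + 1) = insert b (Ico a b) := by
      ext s
      simp only [mem_Ico, mem_insert]
      omega
    rw [e, Finset.sum_insert (by simp)]
    ring

theorem Cyc1_sum_eps (s1 s2 : ℤ) :
    ∑ s ∈ Ioo s1 s2, Z.eps s =
      ∑ i, (∑ s ∈ Ioo s1 s2, W.hit (Z.p (i + 1)) s - ∑ s ∈ Ioo s1 s2, W.hit (Z.p i + W.m) s) := by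
  have h1 : ∀ s, Z.eps s = ∑ i, W.hit (Z.p (i + 1)) s - ∑ i, W.hit (Z.p i + W.m) s := by
    intro s
    unfold Cyc.eps
    rw [Finset.sum_sub_distrib]
    congr 1
    exact (Equiv.sum_comp (Equiv.addRight (1 : ZMod L)) (fun i => W.hit (Z.p i) s)).symm
  rw [Finset.sum_congr rfl (fun s _ => h1 s), Finset.sum_sub_distrib, Finset.sum_sub_distrib,
    Finset.sum_comm, Finset.sum_comm (s := Ioo s1 s2)]

/-- the main transport lemma -/
theorem Cyc1_main (s1 s2 : ℤ) (h12 : s1 < s2) (h3 : s2 < s1 + 2 * W.m)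
    (hw : W.w s1 = W.w s2)
    (h : ∀ i, Z.f (i + 1) ≠ W.w s1 ∨
      ((∀ x', s1 < x' → x' < s2 → ¬ (2 * W.m) ∣ (x' - Z.p (i + 1))) ∧
        (∀ x', s1 < x' → x' < s2 → ¬ (2 * W.m) ∣ (x' - (Z.p i + W.m))))) :
    Z.C s2 = Z.C (s1 + 1) := by
  rw [Cyc1_tele Z (s1 + 1) s2 (by omega)]
  have e : Ico (s1 + 1) s2 = Ioo s1 s2 := by
    ext s
    simp only [mem_Ico, mem_Ioo]
    omega
  rw [e, Cyc1_sum_eps]
  rw [Finset.sum_eq_zero, mul_zero, sub_zero]
  intro i _
  rcases h i with hi | ⟨ha, hb⟩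
  · rw [sub_eq_zero]
    apply Cyc1_L1 W s1 s2 _ _ h12 h3.le hw
    · rw [Z.hp, Z.hq]
    · rw [Z.hq]; exact hi
  · rw [Cyc1_hsum_zero W s1 s2 _ ha, Cyc1_hsum_zero W s1 s2 _ hb, sub_zero]

theorem Cyc1_step_zero (s : ℤ) (h1 : ∀ j, ¬ (2 * W.m) ∣ (s - Z.p j))
    (h2 : ∀ j, ¬ (2 * W.m) ∣ (s - (Z.p j + W.m))) : Z.C (s + 1) = Z.C s := by
  rw [C_succ, eps_zero Z s h1 h2]; ring

/-- the function `C` is constant on the positions of a vertex off the cycle -/
theorem C_off (s1 s2 : ℤ) (hw : W.w s1 = W.w s2) (hu : ∀ j, Z.f j ≠ W.w s1) :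
    Z.C s1 = Z.C s2 := by
  have hm := W.hm
  obtain ⟨t, ha, hb, hc⟩ := Cyc1_rep (2 * W.m) (by linarith) s1 s2
  rw [← C_mod Z t s2 hc]
  have hwt : W.w t = W.w s2 := Cyc1_w_mod W t s2 hc
  rcases eq_or_lt_of_le ha with rfl | hlt
  · rfl
  · rw [Cyc1_main Z s1 t hlt hb (by rw [hwt, hw]) (fun i => Or.inl (hu (i + 1)))]
    rw [Cyc1_step_zero Z s1]
    · intro j hj
      exact hu j (by rw [← Z.hp, Cyc1_w_mod W s1 (Z.p j) hj])
    · intro j hj
      exact hu (j + 1) (by rw [← Z.hq, Cyc1_w_mod W s1 (Z.p j + W.m) hj])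

theorem C_on (hL : 3 ≤ L) (s : ℤ) (j : ZMod L) (hs : W.w s = Z.f (j + 1)) :
    Z.C s = Z.C (Z.p j + W.m) ∨ Z.C s = Z.C (Z.p (j + 1)) := by
  have hm := W.hm
  by_cases h1 : (2 * W.m) ∣ (s - (Z.p j + W.m))
  · exact Or.inl (C_mod Z _ _ h1)
  by_cases h2 : (2 * W.m) ∣ (s - Z.p (j + 1))
  · exact Or.inr (C_mod Z _ _ h2)
  obtain ⟨x, xa, xb, xc⟩ := Cyc1_rep (2 * W.m) (by linarith) s (Z.p j + W.m)
  obtain ⟨y, ya, yb, yc⟩ := Cyc1_rep (2 * W.m) (by linarith) s (Z.p (j + 1))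
  have hxs : s < x := lt_of_le_of_ne xa (by rintro rfl; exact h1 xc)
  have hys : s < y := lt_of_le_of_ne ya (by rintro rfl; exact h2 yc)
  have hwx : W.w x = Z.f (j + 1) := by rw [Cyc1_w_mod W x _ xc, Z.hq]
  have hwy : W.w y = Z.f (j + 1) := by rw [Cyc1_w_mod W y _ yc, Z.hp]
  have hstep : Z.C (s + 1) = Z.C s := by
    apply Cyc1_step_zero Z s
    · intro i hi
      have e : Z.f i = Z.f (j + 1) := by rw [← hs, Cyc1_w_mod W s _ hi, Z.hp]
      have := Z.inj e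
      subst this
      exact h2 hi
    · intro i hi
      have e : Z.f (i + 1) = Z.f (j + 1) := by rw [← hs, Cyc1_w_mod W s _ hi, Z.hq]
      have := add_right_cancel (Z.inj e)
      subst this
      exact h1 hi
  -- uniqueness of representatives
  have huniq : ∀ z a b : ℤ, s < a → a < s + 2 * W.m → s < b → b < s + 2 * W.m →
      (2 * W.m) ∣ (a - z) → (2 * W.m) ∣ (b - z) → a = b := by
    intro z a b h1 h2 h3 h4 h5 h6
    have h7 : (2 * W.m) ∣ (a - b) := by
      have := dvd_sub h5 h6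
      have e : a - z - (b - z) = a - b := by ring
      rwa [e] at this
    have h8 : a - b = 0 := by
      apply Int.eq_zero_of_abs_lt_dvd h7
      rw [abs_lt]; constructor <;> linarith
    linarith
  have hkey : ∀ t, s < t → t < s + 2 * W.m → W.w t = Z.f (j + 1) → t ≤ x → t ≤ y →
      Z.C t = Z.C (s + 1) := by
    intro t ht1 ht2 hwt htx hty
    apply Cyc1_main Z s t ht1 ht2 (by rw [hs, hwt])
    intro i
    by_cases hij : i = j
    · subst hij
      right
      constructor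
      · intro x' a b c
        have := huniq _ x' y a (by linarith) hys yb c yc
        linarith
      · intro x' a b c
        have := huniq _ x' x a (by linarith) hxs xb c xc
        linarith
    · left
      rw [hs]
      intro e
      exact hij (add_right_cancel (Z.inj e))
  rcases le_total x y with hxy | hxy
  · left
    rw [← hstep, ← hkey x hxs xb hwx le_rfl hxy]
    exact C_mod Z _ _ xc
  · right
    rw [← hstep, ← hkey y hys yb hwy hxy le_rfl]
    exact C_mod Z _ _ yc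

theorem C_rec (hL : 3 ≤ L) (j : ZMod L) : Z.C (Z.p (j + 1)) = 2 - Z.C (Z.p j) := by
  have hm := W.hm
  obtain ⟨y, ya, yb, yc⟩ := Cyc1_rep (2 * W.m) (by linarith) (Z.p j + W.m) (Z.p (j + 1))
  have e1 : Z.eps (Z.p j + W.m) = -1 := eps_q Z hL j _ (by simp)
  have e2 : Z.eps y = 1 := eps_p Z hL (j + 1) _ yc
  have hlt : Z.p j + W.m < y := by
    apply lt_of_le_of_ne ya
    intro h
    rw [← h, e1] at e2
    norm_num at e2
  have hwy : W.w y = Z.f (j + 1) := by rw [Cyc1_w_mod W y _ yc, Z.hp]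
  have hmain : Z.C y = Z.C (Z.p j + W.m + 1) := by
    apply Cyc1_main Z _ _ hlt yb (by rw [hwy, Z.hq])
    intro i
    by_cases hij : i = j
    · subst hij
      right
      constructor
      · intro x' a b c
        have h7 : (2 * W.m) ∣ (y - x') := by
          have := dvd_sub yc c
          have e : y - Z.p (i + 1) - (x' - Z.p (i + 1)) = y - x' := by ring
          rwa [e] at this
        have h8 : y - x' = 0 := by
          apply Int.eq_zero_of_abs_lt_dvd h7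
          rw [abs_lt]; constructor <;> linarith
        linarith
      · intro x' a b c
        have h8 : x' - (Z.p i + W.m) = 0 := by
          apply Int.eq_zero_of_abs_lt_dvd c
          rw [abs_lt]; constructor <;> linarith
        linarith
    · left
      rw [Z.hq]
      intro e
      exact hij (add_right_cancel (Z.inj e))
  rw [← C_mod Z y _ yc, hmain, C_succ, e1, C_add_m]
  ring

end B1

end Pool.Agent.MP_377e48_co
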