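import Pool.Agent.Lib.MP_377e48_co.Defs

/-! Piece B1a: the step function `eps` and the counting function `C` of a cycle (helper78). -/

set_option autoImplicit false

namespace Pool.Agent.MP_377e48_co

open Finset

theorem Cyc1a_w_congr {V : Type*} (W : Wrd V) {a b : ℤ} (h : (2 * W.m) ∣ (a - b)) :
    W.w a = W.w b := by
  obtain ⟨k, hk⟩ := h
  have hp : Function.Periodic W.w (2 * W.m) := W.per
  have h1 := hp.int_mul k b
  have h2 : b + k * (2 * W.m) = a := by linarith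
  rwa [Int.cast_id, h2] at h1

theorem Cyc1a_hit_congr {V : Type*} (W : Wrd V) {x x' s s' : ℤ}
    (h : (2 * W.m) ∣ ((s - x) - (s' - x'))) : W.hit x s = W.hit x' s' := by
  unfold Wrd.hit
  have h1 : (2 * W.m) ∣ (s - x) ↔ (2 * W.m) ∣ (s' - x') := by
    constructor
    · intro h2
      have := dvd_sub h2 h
      rwa [sub_sub_cancel] at this
    · intro h2
      have := dvd_add h h2
      rwa [sub_add_cancel] at this
  by_cases h2 : (2 * W.m) ∣ (s' - x')
  · rw [if_pos (h1.2 h2), if_pos h2]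
  · rw [if_neg (fun h3 => h2 (h1.1 h3)), if_neg h2]

section B1
variable {V : Type*} {W : Wrd V} {L : ℕ} [NeZero L] (Z : Cyc W L)

theorem Cyc1a_eps_congr {s s' : ℤ} (h : (2 * W.m) ∣ (s - s')) : Z.eps s = Z.eps s' := by
  unfold Cyc.eps
  refine sum_congr rfl fun j _ => ?_
  rw [Cyc1a_hit_congr W (x := Z.p j) (x' := Z.p j) (s := s) (s' := s') (by simpa using h),
    Cyc1a_hit_congr W (x := Z.p j + W.m) (x' := Z.p j + W.m) (s := s) (s' := s')
      (by simpa using h)]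

theorem eps_add_m (s : ℤ) : Z.eps (s + W.m) = - Z.eps s := by
  unfold Cyc.eps
  rw [← sum_neg_distrib]
  refine sum_congr rfl fun j _ => ?_
  rw [Cyc1a_hit_congr W (x := Z.p j) (x' := Z.p j + W.m) (s := s + W.m) (s' := s)
      ⟨1, by ring⟩,
    Cyc1a_hit_congr W (x := Z.p j + W.m) (x' := Z.p j) (s := s + W.m) (s' := s)
      ⟨0, by ring⟩]
  ring

theorem C_succ (t : ℤ) : Z.C (t + 1) = Z.C t - 2 * Z.eps t := by
  have hm := W.hm
  unfold Cyc.C
  have h1 : Ico t (t + W.m) = insert t (Ioo t (t + W.m)) :=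
    (Ioo_insert_left (by omega)).symm
  have h2 : Ico (t + 1) (t + 1 + W.m) = insert (t + W.m) (Ioo t (t + W.m)) := by
    ext x
    simp only [mem_Ico, mem_insert, mem_Ioo]
    omega
  rw [h1, h2, sum_insert (by simp), sum_insert (by simp), eps_add_m]
  ring

theorem C_add_m (t : ℤ) : Z.C (t + W.m) = - Z.C t := by
  unfold Cyc.C
  rw [← sum_neg_distrib, ← sum_Ico_add' (fun x => Z.eps x) t (t + W.m) W.m]
  exact sum_congr rfl fun j _ => eps_add_m Z j

theorem C_mod (t t' : ℤ) (h : (2 * W.m) ∣ (t - t')) : Z.C t = Z.C t' := by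
  obtain ⟨c, rfl⟩ : ∃ c, t = t' + c := ⟨t - t', by ring⟩
  unfold Cyc.C
  have h2 : t' + c + W.m = t' + W.m + c := by ring
  rw [h2, ← sum_Ico_add' (fun x => Z.eps x) t' (t' + W.m) c]
  refine sum_congr rfl fun x _ => Cyc1a_eps_congr Z ?_
  simpa using h

omit [NeZero L] in
theorem Cyc1a_ne (hL : 3 ≤ L) (i j : ZMod L) : ¬ (2 * W.m) ∣ (Z.p j - (Z.p i + W.m)) := by
  intro h
  have h1 : Z.f j = Z.f (i + 1) := by
    rw [← Z.hp j, ← Z.hq i]
    exact Cyc1a_w_congr W h
  have h2 : Z.f (j + 1) = Z.f i := by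
    rw [← Z.hq j, ← Z.hp i]
    refine Cyc1a_w_congr W ?_
    obtain ⟨k, hk⟩ := h
    exact ⟨k + 1, by linear_combination hk⟩
  have h3 := Z.inj h1
  have h4 := Z.inj h2
  rw [h3] at h4
  have h5 : (2 : ZMod L) = 0 := by linear_combination h4
  have h6 : ((2 : ℕ) : ZMod L) = 0 := by exact_mod_cast h5
  rw [ZMod.natCast_eq_zero_iff] at h6
  have := Nat.le_of_dvd (by norm_num) h6
  omega

theorem eps_p (hL : 3 ≤ L) (j : ZMod L) (s : ℤ) (h : (2 * W.m) ∣ (s - Z.p j)) :
    Z.eps s = 1 := by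
  unfold Cyc.eps
  rw [sum_eq_single j]
  · unfold Wrd.hit
    rw [if_pos h, if_neg, sub_zero]
    intro h1
    refine Cyc1a_ne Z hL j j ?_
    have := dvd_sub h1 h
    rwa [sub_sub_sub_cancel_left] at this
  · intro i _ hij
    unfold Wrd.hit
    rw [if_neg, if_neg, sub_zero]
    · intro h1
      refine Cyc1a_ne Z hL i j ?_
      have := dvd_sub h1 h
      rwa [sub_sub_sub_cancel_left] at this
    · intro h1
      have h2 := dvd_sub h1 h
      rw [sub_sub_sub_cancel_left] at h2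
      refine hij (Z.inj ?_)
      rw [← Z.hp i, ← Z.hp j]
      exact (Cyc1a_w_congr W h2).symm
  · intro h1
    exact absurd (mem_univ _) h1

theorem eps_q (hL : 3 ≤ L) (j : ZMod L) (s : ℤ) (h : (2 * W.m) ∣ (s - (Z.p j + W.m))) :
    Z.eps s = -1 := by
  have h1 := eps_add_m Z (s - W.m)
  rw [sub_add_cancel, eps_p Z hL j (s - W.m) (by
    have e : s - W.m - Z.p j = s - (Z.p j + W.m) := by ring
    rwa [e])] at h1
  exact h1

theorem eps_zero (s : ℤ) (h1 : ∀ j, ¬ (2 * W.m) ∣ (s - Z.p j))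
    (h2 : ∀ j, ¬ (2 * W.m) ∣ (s - (Z.p j + W.m))) : Z.eps s = 0 := by
  unfold Cyc.eps
  refine sum_eq_zero fun j _ => ?_
  unfold Wrd.hit
  rw [if_neg (h1 j), if_neg (h2 j), sub_zero]

end B1

end Pool.Agent.MP_377e48_co
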