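import Pool.Agent.Lib.MP_377e48_co.Defs

set_option autoImplicit false

namespace Pool.Agent.MP_377e48_co

open Finset

section B2b
variable {V : Type*} {W : Wrd V} {L : ℕ} [NeZero L] (Z : Cyc W L)

/-- the number of `s` in `[0, m)` congruent to `x` modulo `2 m` -/
theorem cyc2b_hit (W : Wrd V) (x : ℤ) :
    ∑ s ∈ Finset.Ico (0 : ℤ) W.m, W.hit x s = if x % (2 * W.m) < W.m then 1 else 0 := by
  have hm := W.hm
  have h2m : (0 : ℤ) < 2 * W.m := by omega
  have hr0 : 0 ≤ x % (2 * W.m) := Int.emod_nonneg _ (by omega)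
  have hr1 : x % (2 * W.m) < 2 * W.m := Int.emod_lt_of_pos _ h2m
  -- for `s` in `[0, m)` : divisibility means `s = x % (2m)`
  have key : ∀ s ∈ Finset.Ico (0 : ℤ) W.m,
      W.hit x s = if s = x % (2 * W.m) then 1 else 0 := by
    intro s hs
    rw [Finset.mem_Ico] at hs
    unfold Wrd.hit
    have : (2 * W.m) ∣ (s - x) ↔ s = x % (2 * W.m) := by
      constructor
      · intro h
        have h1 : s % (2 * W.m) = x % (2 * W.m) :=
          Int.emod_eq_emod_iff_emod_sub_eq_zero.mpr (Int.emod_eq_zero_of_dvd h)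
        rw [Int.emod_eq_of_lt hs.1 (by omega)] at h1
        exact h1
      · intro h
        have h1 : x = 2 * W.m * (x / (2 * W.m)) + x % (2 * W.m) := (Int.mul_ediv_add_emod x (2 * W.m)).symm
        refine ⟨-(x / (2 * W.m)), ?_⟩
        rw [← h] at h1
        linarith
    by_cases h : s = x % (2 * W.m)
    · rw [if_pos h, if_pos (this.mpr h)]
    · rw [if_neg h, if_neg (fun h' => h (this.mp h'))]
  rw [Finset.sum_congr rfl key, Finset.sum_ite_eq']
  by_cases h : x % (2 * W.m) < W.m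
  · rw [if_pos h, if_pos (Finset.mem_Ico.mpr ⟨hr0, h⟩)]
  · rw [if_neg h, if_neg (fun h' => h (Finset.mem_Ico.mp h').2)]

/-- exactly one of `x` and `x + m` is congruent to a number in `[0, m)` -/
theorem cyc2b_opp (W : Wrd V) (x : ℤ) :
    (x + W.m) % (2 * W.m) < W.m ↔ ¬ x % (2 * W.m) < W.m := by
  have hm := W.hm
  have h2m : (0 : ℤ) < 2 * W.m := by omega
  have hr0 : 0 ≤ x % (2 * W.m) := Int.emod_nonneg _ (by omega)
  have hr1 : x % (2 * W.m) < 2 * W.m := Int.emod_lt_of_pos _ h2m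
  have e : (x + W.m) % (2 * W.m) = (x % (2 * W.m) + W.m) % (2 * W.m) := by
    rw [Int.emod_add_emod]
  rw [e]
  by_cases h : x % (2 * W.m) < W.m
  · rw [Int.emod_eq_of_lt (by omega) (by omega)]
    constructor
    · intro h'; omega
    · intro h'; exact absurd h h'
  · have e2 : (x % (2 * W.m) + W.m) % (2 * W.m) = x % (2 * W.m) - W.m := by
      have : x % (2 * W.m) + W.m = (x % (2 * W.m) - W.m) + 2 * W.m := by ring
      rw [this, Int.add_emod_right, Int.emod_eq_of_lt (by omega) (by omega)]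
    rw [e2]
    constructor
    · intro _; exact h
    · intro _; omega

omit [NeZero L] in
theorem cyc2b_dn (j : ZMod L) :
    W.dn (Z.f j) (Z.f (j + 1)) ↔ Z.p j % (2 * W.m) < W.m := by
  have hm := W.hm
  have h2m : (0 : ℤ) < 2 * W.m := by omega
  have hr0 : 0 ≤ Z.p j % (2 * W.m) := Int.emod_nonneg _ (by omega)
  have hr1 : Z.p j % (2 * W.m) < 2 * W.m := Int.emod_lt_of_pos _ h2m
  have hper : ∀ (k i : ℤ), W.w (i + 2 * W.m * k) = W.w i := by
    intro k
    induction k using Int.induction_on with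
    | zero => intro i; simp
    | succ k ih =>
      intro i
      have : i + 2 * W.m * ((k : ℤ) + 1) = (i + 2 * W.m * k) + 2 * W.m := by ring
      rw [this, W.per, ih]
    | pred k ih =>
      intro i
      have h := W.per (i + 2 * W.m * (-(k : ℤ) - 1))
      have : i + 2 * W.m * (-(k : ℤ) - 1) + 2 * W.m = i + 2 * W.m * (-(k : ℤ)) := by ring
      rw [this, ih] at h
      exact h.symm
  constructor
  · rintro ⟨i, hi0, hi1, h1, h2⟩
    have hd := W.smp i (Z.p j) (by rw [h1, Z.hp]) (by rw [h2, Z.hq])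
    have h3 : i % (2 * W.m) = Z.p j % (2 * W.m) :=
      Int.emod_eq_emod_iff_emod_sub_eq_zero.mpr (Int.emod_eq_zero_of_dvd hd)
    rw [Int.emod_eq_of_lt hi0 (by omega)] at h3
    omega
  · intro h
    have h1 : Z.p j = Z.p j % (2 * W.m) + 2 * W.m * (Z.p j / (2 * W.m)) :=
      (Int.emod_add_mul_ediv (Z.p j) (2 * W.m)).symm
    refine ⟨Z.p j % (2 * W.m), hr0, h, ?_, ?_⟩
    · rw [← Z.hp j]
      conv_rhs => rw [h1]
      rw [hper]
    · rw [← Z.hq j]
      conv_rhs => rw [h1]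
      have : Z.p j % (2 * W.m) + 2 * W.m * (Z.p j / (2 * W.m)) + W.m
        = (Z.p j % (2 * W.m) + W.m) + 2 * W.m * (Z.p j / (2 * W.m)) := by ring
      rw [this, hper]

open Classical in
theorem two_cost (hL : 3 ≤ L) :
    2 * ∑ j, (if W.dn (Z.f j) (Z.f (j + 1)) then (-1 : ℤ) else 2) = L - 3 * Z.C 0 := by
  have _ := hL
  have hC : Z.C 0 = ∑ j, ((if Z.p j % (2 * W.m) < W.m then (1 : ℤ) else 0) -
      (if (Z.p j + W.m) % (2 * W.m) < W.m then (1 : ℤ) else 0)) := by
    unfold Cyc.C Cyc.eps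
    rw [zero_add, Finset.sum_comm]
    refine Finset.sum_congr rfl fun j _ => ?_
    rw [Finset.sum_sub_distrib, cyc2b_hit, cyc2b_hit]
  have hcard : (∑ _j : ZMod L, (1 : ℤ)) = L := by
    rw [Finset.sum_const, Finset.card_univ, ZMod.card, nsmul_eq_mul, mul_one]
  rw [hC, Finset.mul_sum, Finset.mul_sum, ← hcard, ← Finset.sum_sub_distrib]
  refine Finset.sum_congr rfl fun j _ => ?_
  have h1 := cyc2b_opp W (Z.p j)
  have h2 := cyc2b_dn Z j
  by_cases h : Z.p j % (2 * W.m) < W.m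
  · rw [if_pos (h2.mpr h), if_pos h, if_neg (fun h' => (h1.mp h') h)]; norm_num
  · rw [if_neg (fun h' => h (h2.mp h')), if_neg h, if_pos (h1.mpr h)]; norm_num

end B2b

end Pool.Agent.MP_377e48_co
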