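import Pool.Agent.Lib.MP_377e48_co.Cyc1
import Pool.Agent.Lib.MP_377e48_co.Cyc2b

set_option autoImplicit false

namespace Pool.Agent.MP_377e48_co

open Finset

section B2
variable {V : Type*} {W : Wrd V} {L : ℕ} [NeZero L] (Z : Cyc W L)

/-- the value of `C` at `t` is its value at the first chord point after `t` -/
theorem Cyc2a_value (t : ℤ) : ∃ j, Z.C t = Z.C (Z.p j) ∨ Z.C t = - Z.C (Z.p j) := by
  classical
  -- a chord point at or after `t`
  have hm := W.hm
  have hex : ∃ n : ℕ, (∃ j, (2 * W.m) ∣ (t + n - Z.p j)) ∨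
      (∃ j, (2 * W.m) ∣ (t + n - (Z.p j + W.m))) := by
    obtain ⟨k, hk⟩ : ∃ k : ℤ, t ≤ Z.p 0 + 2 * W.m * k := by
      refine ⟨|t - Z.p 0|, ?_⟩
      have h1 : t - Z.p 0 ≤ |t - Z.p 0| := le_abs_self _
      have h2 : (0 : ℤ) ≤ |t - Z.p 0| := abs_nonneg _
      nlinarith
    refine ⟨(Z.p 0 + 2 * W.m * k - t).toNat, Or.inl ⟨0, k, ?_⟩⟩
    rw [Int.toNat_of_nonneg (by linarith)]
    ring
  obtain ⟨n, hn, hmin⟩ : ∃ n : ℕ, ((∃ j, (2 * W.m) ∣ (t + n - Z.p j)) ∨
      (∃ j, (2 * W.m) ∣ (t + n - (Z.p j + W.m)))) ∧ ∀ k < n,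
      ¬ ((∃ j, (2 * W.m) ∣ (t + k - Z.p j)) ∨ (∃ j, (2 * W.m) ∣ (t + k - (Z.p j + W.m)))) :=
    ⟨Nat.find hex, Nat.find_spec hex, fun k hk => Nat.find_min hex hk⟩
  have hconst : ∀ k : ℕ, k ≤ n → Z.C (t + k) = Z.C t := by
    intro k
    induction k with
    | zero => intro _; simp
    | succ k ih =>
      intro hk
      have h1 := hmin k (by omega)
      push Not at h1
      have h2 := C_succ Z (t + k)
      rw [eps_zero Z (t + k) h1.1 h1.2, ih (by omega)] at h2
      have e : t + ((k + 1 : ℕ) : ℤ) = t + k + 1 := by push_cast; ring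
      rw [e, h2]; ring
  have hC := hconst n le_rfl
  rcases hn with ⟨j, hj⟩ | ⟨j, hj⟩
  · refine ⟨j, Or.inl ?_⟩
    rw [← hC]
    exact C_mod Z _ _ hj
  · refine ⟨j, Or.inr ?_⟩
    rw [← hC, C_mod Z _ _ hj, C_add_m]

theorem Cyc2a_y (hL : 3 ≤ L) (j : ZMod L) (n : ℕ) :
    (Even n → Z.C (Z.p (j + n)) = Z.C (Z.p j)) ∧ (Odd n → Z.C (Z.p (j + n)) = 2 - Z.C (Z.p j)) := by
  induction n with
  | zero => constructor <;> intro h <;> simp at *
  | succ n ih =>
    have e : j + ((n + 1 : ℕ) : ZMod L) = j + n + 1 := by push_cast; ring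
    rw [e, C_rec Z hL]
    constructor
    · intro h
      have ho : Odd n := by
        rcases Nat.even_or_odd n with h' | h'
        · exfalso; rw [Nat.even_add_one] at h; exact h h'
        · exact h'
      rw [ih.2 ho]; ring
    · intro h
      have he : Even n := by
        rcases Nat.even_or_odd n with h' | h'
        · exact h'
        · exfalso
          rcases h with ⟨a, ha⟩; rcases h' with ⟨b, hb⟩; omega
      rw [ih.1 he]

theorem C_odd (hL : 3 ≤ L) (ho : Odd L) (t : ℤ) : Z.C t = 1 ∨ Z.C t = -1 := by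
  have hy : ∀ j, Z.C (Z.p j) = 1 := by
    intro j
    have h := (Cyc2a_y Z hL j L).2 ho
    rw [ZMod.natCast_self, add_zero] at h
    omega
  obtain ⟨j, hj | hj⟩ := Cyc2a_value Z t
  · left; rw [hj, hy]
  · right; rw [hj, hy]

theorem Cyc2a_eps (hL : 3 ≤ L) (s : ℤ) : Z.eps s = 0 ∨ Z.eps s = 1 ∨ Z.eps s = -1 := by
  by_cases h1 : ∃ j, (2 * W.m) ∣ (s - Z.p j)
  · obtain ⟨j, hj⟩ := h1
    exact Or.inr (Or.inl (eps_p Z hL j s hj))
  · by_cases h2 : ∃ j, (2 * W.m) ∣ (s - (Z.p j + W.m))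
    · obtain ⟨j, hj⟩ := h2
      exact Or.inr (Or.inr (eps_q Z hL j s hj))
    · push Not at h1 h2
      exact Or.inl (eps_zero Z s h1 h2)

open Classical in
theorem Cyc2a_even_nat (hL : 3 ≤ L) (he : Even L) (n : ℕ) : Even (Z.C n) := by
  induction n with
  | zero =>
    have h := two_cost Z hL
    obtain ⟨a, ha⟩ := he
    rw [Int.even_iff]
    generalize (∑ j, (if W.dn (Z.f j) (Z.f (j + 1)) then (-1 : ℤ) else 2)) = S at h
    simp only [Nat.cast_zero]
    omega
  | succ n ih =>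
    have h2 := C_succ Z n
    have e : ((n + 1 : ℕ) : ℤ) = (n : ℤ) + 1 := by push_cast; ring
    rw [e, h2]
    rw [Int.even_iff] at *
    omega

theorem Cyc2a_zero (hL : 3 ≤ L) (he : Even L) : ∃ t, Z.C t = 0 := by
  by_contra hne
  push Not at hne
  have hm := W.hm
  have hCm : Z.C ((W.m.toNat : ℕ) : ℤ) = - Z.C 0 := by
    rw [Int.toNat_of_nonneg hm.le]
    have h := C_add_m Z 0
    rwa [zero_add] at h
  rcases lt_or_gt_of_ne (hne 0) with h0 | h0
  · have hall : ∀ n : ℕ, Z.C n < 0 := by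
      intro n
      induction n with
      | zero => simpa using h0
      | succ n ih =>
        have h2 := C_succ Z n
        have h3 := Cyc2a_even_nat Z hL he n
        have h4 := Cyc2a_eps Z hL n
        have h5 := hne ((n : ℤ) + 1)
        have e : ((n + 1 : ℕ) : ℤ) = (n : ℤ) + 1 := by push_cast; ring
        rw [e]
        rw [Int.even_iff] at h3
        omega
    have := hall W.m.toNat
    rw [hCm] at this
    omega
  · have hall : ∀ n : ℕ, 0 < Z.C n := by
      intro n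
      induction n with
      | zero => simpa using h0
      | succ n ih =>
        have h2 := C_succ Z n
        have h3 := Cyc2a_even_nat Z hL he n
        have h4 := Cyc2a_eps Z hL n
        have h5 := hne ((n : ℤ) + 1)
        have e : ((n + 1 : ℕ) : ℤ) = (n : ℤ) + 1 := by push_cast; ring
        rw [e]
        rw [Int.even_iff] at h3
        omega
    have := hall W.m.toNat
    rw [hCm] at this
    omega

theorem Cyc2a_all (hL : 3 ≤ L) (j : ZMod L) :
    Z.C (Z.p j) = Z.C (Z.p 0) ∨ Z.C (Z.p j) = 2 - Z.C (Z.p 0) := by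
  have h := Cyc2a_y Z hL 0 j.val
  rw [zero_add, ZMod.natCast_zmod_val] at h
  rcases Nat.even_or_odd j.val with h1 | h1
  · exact Or.inl (h.1 h1)
  · exact Or.inr (h.2 h1)

theorem y_even (hL : 3 ≤ L) (he : Even L) (j : ZMod L) :
    Z.C (Z.p j) = 0 ∨ Z.C (Z.p j) = 2 := by
  obtain ⟨t, ht⟩ := Cyc2a_zero Z hL he
  obtain ⟨i, hi⟩ := Cyc2a_value Z t
  have h1 := Cyc2a_all Z hL i
  have h2 := Cyc2a_all Z hL j
  omega

theorem C_even (hL : 3 ≤ L) (he : Even L) (t : ℤ) : Z.C t = 0 ∨ Z.C t = 2 ∨ Z.C t = -2 := by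
  obtain ⟨i, hi⟩ := Cyc2a_value Z t
  have h1 := y_even Z hL he i
  omega

end B2

end Pool.Agent.MP_377e48_co
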