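import Mathlib

set_option autoImplicit false

namespace Pool.Agent.MP_377e48_co

/-! Words: a cyclic word of even length `2 m` (written as a `2 m`-periodic function on the
integers) whose label classes are pairwise noncrossing; the edges are the antipodal pairs
`w i`, `w (i + m)`; no loops and no repeated edges. -/

structure Wrd (V : Type*) where
  m : ℤ
  hm : 0 < m
  w : ℤ → V
  per : ∀ i, w (i + 2 * m) = w i
  nc : ∀ i j k l, i < j → j < k → k < l → l < i + 2 * m → w i = w k → w j = w l → w i = w j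
  smp : ∀ i j, w i = w j → w (i + m) = w (j + m) → (2 * m) ∣ (i - j)
  noloop : ∀ i, w i ≠ w (i + m)

/-- indicator of `s ≡ x` modulo `2 m` -/
noncomputable def Wrd.hit {V : Type*} (W : Wrd V) (x s : ℤ) : ℤ :=
  if (2 * W.m) ∣ (s - x) then 1 else 0

/-- the edge from `u` to `v` goes down with respect to the cut before position `0` -/
def Wrd.dn {V : Type*} (W : Wrd V) (u v : V) : Prop :=
  ∃ i, 0 ≤ i ∧ i < W.m ∧ W.w i = u ∧ W.w (i + W.m) = v

/-- `W` is not 3-colourable, but becomes so when any vertex is deleted -/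
structure Wrd.Crit {V : Type*} (W : Wrd V) : Prop where
  no : ¬ ∃ g : V → Fin 3, ∀ i, g (W.w i) ≠ g (W.w (i + W.m))
  del : ∀ v, ∃ g : V → Fin 3, ∀ i, W.w i ≠ v → W.w (i + W.m) ≠ v →
    g (W.w i) ≠ g (W.w (i + W.m))

/-- rotate the cut -/
def Wrd.shift {V : Type*} (W : Wrd V) (t : ℤ) : Wrd V where
  m := W.m
  hm := W.hm
  w := fun i => W.w (i + t)
  per := fun i => by
    have h := W.per (i + t)
    have e : i + 2 * W.m + t = i + t + 2 * W.m := by ring
    show W.w (i + 2 * W.m + t) = W.w (i + t)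
    rw [e]; exact h
  nc := fun i j k l h1 h2 h3 h4 h5 h6 =>
    W.nc (i + t) (j + t) (k + t) (l + t) (by omega) (by omega) (by omega) (by omega) h5 h6
  smp := fun i j h1 h2 => by
    have e1 : i + W.m + t = i + t + W.m := by ring
    have e2 : j + W.m + t = j + t + W.m := by ring
    rw [e1, e2] at h2
    have h := W.smp (i + t) (j + t) h1 h2
    have e : i + t - (j + t) = i - j := by ring
    rwa [e] at h
  noloop := fun i => by
    have h := W.noloop (i + t)
    have e1 : i + W.m + t = i + t + W.m := by ring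
    show W.w (i + t) ≠ W.w (i + W.m + t)
    rw [e1]; exact h

/-- a simple cycle `f 0, f 1, ..., f (L-1)`; `p j` is the position at `f j` of the edge from
`f j` to `f (j+1)`, so `p j + m` is its position at `f (j+1)` -/
structure Cyc {V : Type*} (W : Wrd V) (L : ℕ) where
  f : ZMod L → V
  inj : Function.Injective f
  p : ZMod L → ℤ
  hp : ∀ j, W.w (p j) = f j
  hq : ∀ j, W.w (p j + W.m) = f (j + 1)

noncomputable def Cyc.eps {V : Type*} {W : Wrd V} {L : ℕ} [NeZero L] (Z : Cyc W L) (s : ℤ) : ℤ :=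
  ∑ j, (W.hit (Z.p j) s - W.hit (Z.p j + W.m) s)

/-- the signed number of exits in the window `[t, t+m)` -/
noncomputable def Cyc.C {V : Type*} {W : Wrd V} {L : ℕ} [NeZero L] (Z : Cyc W L) (t : ℤ) : ℤ :=
  ∑ s ∈ Finset.Ico t (t + W.m), Z.eps s

/-! Families of discs in the complex plane. -/

/-- the cross product -/
def crs (x y : ℂ) : ℝ := x.re * y.im - x.im * y.re

structure Fam (V : Type*) where
  c : V → ℂ
  r : V → ℝ
  inj : Function.Injective c
  pos : ∀ v, 0 < r v
  meet : ∀ u v, ‖c u - c v‖ ≤ r u + r v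

def Fam.Adj {V : Type*} (F : Fam V) (u v : V) : Prop := ‖F.c u - F.c v‖ = F.r u + F.r v

structure Fam.Crit {V : Type*} (F : Fam V) : Prop where
  no : ¬ ∃ g : V → Fin 3, ∀ u v, F.Adj u v → g u ≠ g v
  del : ∀ x, ∃ g : V → Fin 3, ∀ u v, u ≠ x → v ≠ x → F.Adj u v → g u ≠ g v

open Classical in
/-- no nonzero stress -/
def Fam.SF {V : Type*} [Fintype V] (F : Fam V) : Prop :=
  ∀ w : V → V → ℝ, (∀ i j, w i j = w j i) →
    (∀ j, ∑ i, (if F.Adj i j then (w i j) • (F.c i - F.c j) else 0) = 0) →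
    ∀ i j, F.Adj i j → w i j = 0

end Pool.Agent.MP_377e48_co
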