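import Pool.Agent.Lib.MP_377e48_co.Core

set_option autoImplicit false

/-! # Tangent graphs of pairwise intersecting discs -/

namespace Pool.Agent.Lib.MP_377e48_co


/-- the plane -/
abbrev E2 := EuclideanSpace ℝ (Fin 2)

/-- coordinates -/
def toP (x : E2) : ℝ × ℝ := (x 0, x 1)

theorem toP_sub (x y : E2) : toP (x - y) = toP x - toP y := by
  simp [toP]

theorem toP_add (x y : E2) : toP (x + y) = toP x + toP y := by
  simp [toP]

theorem toP_smul (r : ℝ) (x : E2) : toP (r • x) = r • toP x := by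
  simp [toP]

theorem toP_inj {x y : E2} (h : toP x = toP y) : x = y := by
  have h1 := congrArg Prod.fst h
  have h2 := congrArg Prod.snd h
  simp only [toP] at h1 h2
  ext i
  fin_cases i
  · exact h1
  · exact h2

theorem exists_smul {a b : E2} (ha : a ≠ 0) (h : cr (toP a) (toP b) = 0) : ∃ r : ℝ, b = r • a := by
  have hd : 0 < dt (toP a) (toP a) := dt_self_pos (fun h0 => ha (toP_inj (by
    rw [h0]; rfl)))
  refine ⟨dt (toP a) (toP b) / dt (toP a) (toP a), ?_⟩
  apply toP_inj
  rw [toP_smul]
  have h' : (toP a).1 * (toP b).2 - (toP a).2 * (toP b).1 = 0 := h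
  have hd' := hd.ne'
  ext
  · simp only [Prod.smul_fst, smul_eq_mul]
    field_simp
    simp only [dt]
    linear_combination (-(toP a).2) * h'
  · simp only [Prod.smul_snd, smul_eq_mul]
    field_simp
    simp only [dt]
    linear_combination ((toP a).1) * h'

variable {V : Type*}

/-- the tangent graph -/
def tg (c : V → E2) (ρ : V → ℝ) : SimpleGraph V :=
  SimpleGraph.fromRel (fun i j => dist (c i) (c j) = ρ i + ρ j)

/-- pairwise intersecting family of discs with different centres -/
structure Discs (c : V → E2) (ρ : V → ℝ) : Prop where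
  inj : Function.Injective c
  pos : ∀ i, 0 < ρ i
  meet : ∀ i j, dist (c i) (c j) ≤ ρ i + ρ j

variable {c : V → E2} {ρ : V → ℝ}

theorem tg_adj (h : Discs c ρ) {u v : V} : (tg c ρ).Adj u v ↔ dist (c u) (c v) = ρ u + ρ v := by
  unfold tg
  rw [SimpleGraph.fromRel_adj]
  constructor
  · rintro ⟨_, h1 | h1⟩
    · exact h1
    · rw [dist_comm, h1, add_comm]
  · intro h1
    refine ⟨?_, Or.inl h1⟩
    rintro rfl
    rw [dist_self] at h1
    linarith [h.pos u]

/-- two neighbours of `u` on one side of `u` : the neighbourhoods are nested -/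
theorem nested (h : Discs c ρ) {u v z : V} (huv : (tg c ρ).Adj u v) (huz : (tg c ρ).Adj u z)
    {r : ℝ} (hr : 1 ≤ r) (hz : c u - c z = r • (c u - c v)) {x : V} (hx : (tg c ρ).Adj z x) :
    (tg c ρ).Adj v x := by
  rw [tg_adj h] at *
  have e1 : dist (c v) (c z) = dist (c u) (c z) - dist (c u) (c v) := by
    have h1 : c v - c z = (r - 1) • (c u - c v) := by
      have : c v - c z = (c u - c z) - (c u - c v) := by abel
      rw [this, hz]; module
    rw [dist_eq_norm, dist_eq_norm, dist_eq_norm, h1, hz, norm_smul, norm_smul,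
      Real.norm_of_nonneg (by linarith), Real.norm_of_nonneg (by linarith)]
    ring
  have e2 := h.meet v x
  have e3 := dist_triangle (c z) (c v) (c x)
  rw [dist_comm (c z) (c v)] at e3
  apply le_antisymm e2
  linarith

/-- criticality -/
def Crit (G : SimpleGraph V) : Prop := ∀ a b, a ≠ b → ∃ x, G.Adj a x ∧ ¬ G.Adj b x

theorem no_same_side (h : Discs c ρ) (hc : Crit (tg c ρ)) {u v z : V} (huv : (tg c ρ).Adj u v)
    (huz : (tg c ρ).Adj u z) (hvz : v ≠ z) {r : ℝ} (hr : 0 < r)
    (hz : c u - c z = r • (c u - c v)) : False := by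
  rcases le_total 1 r with h1 | h1
  · obtain ⟨x, hx1, hx2⟩ := hc z v hvz.symm
    exact hx2 (nested h huv huz h1 hz hx1)
  · obtain ⟨x, hx1, hx2⟩ := hc v z hvz
    apply hx2
    apply nested h huz huv (r := r⁻¹) (one_le_inv_iff₀.2 ⟨hr, h1⟩) _ hx1
    rw [hz, smul_smul, inv_mul_cancel₀ hr.ne', one_smul]

theorem no_between (h : Discs c ρ) {u v z : V} (huv : (tg c ρ).Adj u v)
    (huz : (tg c ρ).Adj u z) {r : ℝ} (hr : 0 < r)
    (hz : c z - c u = r • (c u - c v)) : False := by
  rw [tg_adj h] at huv huz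
  have e1 : dist (c v) (c z) = dist (c u) (c z) + dist (c u) (c v) := by
    have h1 : c v - c z = (-(r + 1)) • (c u - c v) := by
      have : c v - c z = -(c z - c u) - (c u - c v) := by abel
      rw [this, hz]; module
    have h2 : c u - c z = (-r) • (c u - c v) := by
      have : c u - c z = -(c z - c u) := by abel
      rw [this, hz]; module
    rw [dist_eq_norm, dist_eq_norm, dist_eq_norm, h1, h2, norm_smul, norm_smul, norm_neg, norm_neg,
      Real.norm_of_nonneg (by linarith), Real.norm_of_nonneg (by linarith)]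
    ring
  have e2 := h.meet v z
  have e3 := h.pos u
  linarith

/-- equality case: `|uv| + |wz| = |uz| + |wv|` and the segments `uz`, `wv` meet in `r` -/
theorem cross_point (h : Discs c ρ) {u v w z : V} (huv : (tg c ρ).Adj u v)
    (hwz : (tg c ρ).Adj w z) (r : E2) (h1 : Wbtw ℝ (c u) r (c z)) (h2 : Wbtw ℝ (c w) r (c v)) :
    Wbtw ℝ (c u) r (c v) ∧ Wbtw ℝ (c w) r (c z) ∧ dist (c u) (c z) = ρ u + ρ z ∧
      dist (c w) (c v) = ρ w + ρ v := by
  rw [tg_adj h] at huv hwz
  have e1 := dist_add_dist_eq_iff.2 h1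
  have e2 := dist_add_dist_eq_iff.2 h2
  have m1 := h.meet u z
  have m2 := h.meet w v
  have t1 := dist_triangle (c u) r (c v)
  have t2 := dist_triangle (c w) r (c z)
  refine ⟨dist_add_dist_eq_iff.1 ?_, dist_add_dist_eq_iff.1 ?_, ?_, ?_⟩ <;> linarith

theorem geo_np (h : Discs c ρ) (hc : Crit (tg c ρ)) (u v w z : V) (huv : (tg c ρ).Adj u v)
    (hwz : (tg c ρ).Adj w z) (h1 : ¬ (u = w ∧ v = z)) (h2 : ¬ (u = z ∧ v = w)) :
    cr (toP (c u) - toP (c v)) (toP (c w) - toP (c z)) ≠ 0 := by
  intro h0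
  rw [← toP_sub, ← toP_sub] at h0
  have huv' : c u - c v ≠ 0 := sub_ne_zero.2 (fun e => huv.ne (h.inj e))
  obtain ⟨r, hr⟩ := exists_smul huv' h0
  -- the case of a positive factor
  have main : ∀ (u v w z : V) (r : ℝ), (tg c ρ).Adj u v → (tg c ρ).Adj w z →
      ¬ (u = w ∧ v = z) → ¬ (u = z ∧ v = w) → 0 < r → c w - c z = r • (c u - c v) → False := by
    intro u v w z r huv hwz h1 h2 hr0 hr
    by_cases e1 : u = w
    · subst e1
      exact no_same_side h hc huv hwz (fun e => h1 ⟨rfl, e⟩) hr0 hr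
    by_cases e2 : v = z
    · subst e2
      refine no_same_side h hc huv.symm hwz.symm e1 hr0 ?_
      have : c v - c w = -(c w - c v) := by abel
      rw [this, hr]; module
    by_cases e3 : u = z
    · subst e3
      exact no_between h huv hwz.symm hr0 hr
    by_cases e4 : v = w
    · subst e4
      refine no_between h huv.symm hwz (r := r) hr0 ?_
      have : c z - c v = -(c v - c z) := by abel
      rw [this, hr]; module
    -- all distinct
    have hr1 : (0 : ℝ) < 1 + r := by linarith
    set p : E2 := (1 + r)⁻¹ • (c z + r • c u) with hp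
    have hp' : p = (1 + r)⁻¹ • (c w + r • c v) := by
      rw [hp]
      congr 1
      have : c w = c z + r • (c u - c v) := by rw [← hr]; abel
      rw [this]; module
    have hle : (1 + r)⁻¹ ≤ 1 := by
      rw [inv_le_one_iff₀]; right; linarith
    have b1 : Wbtw ℝ (c u) p (c z) := by
      refine ⟨(1 + r)⁻¹, ⟨inv_nonneg.2 hr1.le, hle⟩, ?_⟩
      rw [AffineMap.lineMap_apply_module, hp, smul_add, smul_smul]
      have : (1 : ℝ) - (1 + r)⁻¹ = (1 + r)⁻¹ * r := by field_simp; ring
      rw [this]; abel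
    have b2 : Wbtw ℝ (c w) p (c v) := by
      rw [wbtw_comm]
      refine ⟨(1 + r)⁻¹, ⟨inv_nonneg.2 hr1.le, hle⟩, ?_⟩
      rw [AffineMap.lineMap_apply_module, hp', smul_add, smul_smul]
      have : (1 : ℝ) - (1 + r)⁻¹ = (1 + r)⁻¹ * r := by field_simp; ring
      rw [this]; abel
    obtain ⟨b3, -, d1, -⟩ := cross_point h huv hwz p b1 b2
    obtain ⟨a, ⟨ha0, ha1⟩, ha⟩ := b3
    rw [AffineMap.lineMap_apply_module] at ha
    -- `c z - c u = (1 + r) a (c v - c u)`
    have hz : c u - c z = ((1 + r) * a) • (c u - c v) := by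
      have k1 : (1 + r) • p = c z + r • c u := by
        rw [hp, smul_smul, mul_inv_cancel₀ hr1.ne', one_smul]
      rw [← ha] at k1
      have k2 : c z = (1 + r) • ((1 - a) • c u + a • c v) - r • c u := by rw [k1]; abel
      rw [k2]; module
    have ha' : 0 < a := by
      rcases lt_or_eq_of_le ha0 with h3 | h3
      · exact h3
      · exfalso
        rw [← h3, mul_zero, zero_smul, sub_eq_zero] at hz
        exact e3 (h.inj hz)
    exact no_same_side h hc huv ((tg_adj h).2 d1) e2 (mul_pos hr1 ha') hz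
  rcases lt_trichotomy r 0 with hneg | h00 | hpos
  · apply main u v z w (-r) huv hwz.symm h2 h1 (by linarith)
    have : c z - c w = -(c w - c z) := by abel
    rw [this, hr]; module
  · rw [h00, zero_smul, sub_eq_zero] at hr
    exact hwz.ne (h.inj hr)
  · exact main u v w z r huv hwz h1 h2 hpos hr

theorem geo_of_crit (h : Discs c ρ) (hc : Crit (tg c ρ)) :
    Geo (tg c ρ) (fun v => toP (c v)) := by
  refine ⟨geo_np h hc, ?_⟩
  intro u v w z huv hwz huw s t hs ht he
  have he' : c u + s • (c u - c v) = c w + t • (c w - c z) := by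
    apply toP_inj
    rw [toP_add, toP_add, toP_smul, toP_smul, toP_sub, toP_sub]
    exact he
  by_cases hsame : u = z ∧ v = w
  · obtain ⟨e1, e2⟩ := hsame
    subst e1 e2
    have : (1 + s + t) • (c u - c v) = 0 := by
      have : (1 + s + t) • (c u - c v) = (c u + s • (c u - c v)) - (c v + t • (c v - c u)) := by
        module
      rw [this, he', sub_self]
    rw [smul_eq_zero] at this
    rcases this with h1 | h1
    · linarith
    · exact huw (h.inj (sub_eq_zero.1 h1))
  have hnp := geo_np h hc u v w z huv hwz (fun e => huw e.1) hsame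
  have hst : (0 : ℝ) < 1 + s + t := by linarith
  set p : E2 := (1 + s + t)⁻¹ • ((1 + s) • c u + t • c z) with hp
  have hp' : p = (1 + s + t)⁻¹ • ((1 + t) • c w + s • c v) := by
    rw [hp]
    congr 1
    have k : (1 + s) • c u + t • c z = (c u + s • (c u - c v)) + s • c v + t • c z := by module
    rw [k, he']; module
  have b1 : Wbtw ℝ (c u) p (c z) := by
    refine ⟨(1 + s + t)⁻¹ * t, ⟨by positivity, ?_⟩, ?_⟩
    · rw [inv_mul_le_iff₀ hst]; linarith
    · rw [AffineMap.lineMap_apply_module, hp, smul_add, smul_smul, smul_smul]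
      have : (1 : ℝ) - (1 + s + t)⁻¹ * t = (1 + s + t)⁻¹ * (1 + s) := by field_simp; ring
      rw [this]
  have b2 : Wbtw ℝ (c w) p (c v) := by
    refine ⟨(1 + s + t)⁻¹ * s, ⟨by positivity, ?_⟩, ?_⟩
    · rw [inv_mul_le_iff₀ hst]; linarith
    · rw [AffineMap.lineMap_apply_module, hp', smul_add, smul_smul, smul_smul]
      have : (1 : ℝ) - (1 + s + t)⁻¹ * s = (1 + s + t)⁻¹ * (1 + t) := by field_simp; ring
      rw [this]
  obtain ⟨b3, b4, -, -⟩ := cross_point h huv hwz p b1 b2
  obtain ⟨a, ⟨ha0, ha1⟩, ha⟩ := b3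
  obtain ⟨b, ⟨hb0, hb1⟩, hb⟩ := b4
  rw [AffineMap.lineMap_apply_module] at ha hb
  -- both lines contain `p` and the common point of the rays
  have k1 : (a + s) • (c u - c v) = (b + t) • (c w - c z) := by
    have e1 : (a + s) • (c u - c v) = (c u + s • (c u - c v)) - ((1 - a) • c u + a • c v) := by
      module
    have e2 : (b + t) • (c w - c z) = (c w + t • (c w - c z)) - ((1 - b) • c w + b • c z) := by
      module
    rw [e1, e2, ha, hb, he']
  have k2 : (a + s) * cr (toP (c u) - toP (c v)) (toP (c w) - toP (c z)) = 0 := by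
    rw [← toP_sub, ← toP_sub, ← cr_smul_left, ← toP_smul, k1, toP_smul, cr_smul_left, cr_self,
      mul_zero]
  have k3 : (b + t) * cr (toP (c u) - toP (c v)) (toP (c w) - toP (c z)) = 0 := by
    rw [← toP_sub, ← toP_sub, ← cr_smul_right, ← toP_smul, ← k1, toP_smul, cr_smul_right, cr_self,
      mul_zero]
  have k4 : a + s = 0 := (mul_eq_zero.1 k2).resolve_right hnp
  have k5 : b + t = 0 := (mul_eq_zero.1 k3).resolve_right hnp
  have hs0 : s = 0 := by linarith
  have ht0 : t = 0 := by linarith
  rw [hs0, ht0, zero_smul, zero_smul, add_zero, add_zero] at he'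
  exact huw (h.inj he')

end Pool.Agent.Lib.MP_377e48_co
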