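import Pool.Agent.Lib.MP_377e48_co.Quad

set_option autoImplicit false

/-! # In a minimal non-3-colourable graph four-cycles bound empty faces -/

namespace Pool.Agent.Lib.MP_377e48_co

open SimpleGraph Finset

variable {V : Type*} {G : SimpleGraph V} {P : V → ℝ × ℝ} {o y o' z : V}

theorem Quad.swap (q : Quad G P o y o' z) : Quad G P o z o' y := by
  refine ⟨q.oz, q.o'z, q.yo', q.oy, q.ne1, q.ne2.symm, ?_⟩
  rw [cr_comm (P o' - P z) (P o - P z), cr_comm (P o' - P y) (P o' - P z),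
    cr_comm (P o - P y) (P o' - P y), cr_comm (P o - P y) (P o - P z)]
  rcases q.ori with ⟨h1, h2, h3, h4⟩ | ⟨h1, h2, h3, h4⟩
  · right; exact ⟨by linarith, by linarith, by linarith, by linarith⟩
  · left; exact ⟨by linarith, by linarith, by linarith, by linarith⟩

/-- the directions inside the face -/
def InA (P : V → ℝ × ℝ) (o y o' z : V) (d : ℝ × ℝ) : Prop :=
  InCone (P o - P y) (P o' - P y) d ∨ InCone (P o' - P z) (P o - P z) d

theorem inA_swap (d : ℝ × ℝ) : InA P o z o' y d ↔ InA P o y o' z d := by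
  unfold InA
  rw [inCone_comm (P o - P z), inCone_comm (P o' - P y), or_comm]

/-- positively oriented quadrilateral -/
structure PQuad (G : SimpleGraph V) (P : V → ℝ × ℝ) (o y o' z : V) : Prop where
  oy : G.Adj o y
  yo' : G.Adj o' y
  o'z : G.Adj o' z
  oz : G.Adj o z
  ne1 : o ≠ o'
  ne2 : y ≠ z
  c12 : 0 < cr (P o - P y) (P o' - P y)
  c23 : 0 < cr (P o' - P y) (P o' - P z)
  c34 : 0 < cr (P o' - P z) (P o - P z)
  c14 : 0 < cr (P o - P y) (P o - P z)

theorem PQuad.c13 (q : PQuad G P o y o' z) : 0 < cr (P o - P y) (P o' - P z) := by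
  have h1 := q.c12
  have h2 := q.c14
  have : cr (P o - P y) (P o' - P z) =
      cr (P o - P y) (P o' - P y) + cr (P o - P y) (P o - P z) := by
    simp only [cr, Prod.fst_sub, Prod.snd_sub]; ring
  linarith

theorem PQuad.c24 (q : PQuad G P o y o' z) : 0 < cr (P o' - P y) (P o - P z) := by
  have h1 := q.c34
  have h2 := q.c14
  have : cr (P o' - P y) (P o - P z) =
      cr (P o' - P z) (P o - P z) + cr (P o - P y) (P o - P z) := by
    simp only [cr, Prod.fst_sub, Prod.snd_sub]; ring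
  linarith

theorem inCone_pos {a b d : ℝ × ℝ} (h : 0 < cr a b) : InCone a b d ↔ 0 < cr a d ∧ cr b d < 0 := by
  unfold InCone
  rw [mul_pos_iff_of_pos_right h, mul_pos_iff_of_pos_right h, cr_comm b d]
  constructor
  · rintro ⟨h1, h2⟩; exact ⟨h1, by linarith⟩
  · rintro ⟨h1, h2⟩; exact ⟨h1, by linarith⟩

/-- middle value formula -/
theorem middle (a b c d : ℝ × ℝ) : cr a c * cr b d = cr a b * cr c d + cr b c * cr a d := by
  simp only [cr]; ring

theorem PQuad.inA (q : PQuad G P o y o' z) {d : ℝ × ℝ} (h : InA P o y o' z d) :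
    InCone (P o - P y) (P o - P z) d ∧ ¬ InCone (P o' - P y) (P o' - P z) d := by
  unfold InA at h
  rw [inCone_pos q.c12, inCone_pos q.c34] at h
  rw [inCone_pos q.c14, inCone_pos q.c23]
  rcases h with ⟨h1, h2⟩ | ⟨h1, h2⟩
  · have m := middle (P o - P y) (P o' - P y) (P o - P z) d
    have e1 := mul_neg_of_pos_of_neg q.c14 h2
    have e2 := mul_pos q.c24 h1
    have e3 : cr (P o - P y) (P o' - P y) * cr (P o - P z) d < 0 := by linarith
    exact ⟨⟨h1, by
      by_contra hc
      push Not at hc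
      have := mul_nonneg q.c12.le hc
      linarith⟩, fun h3 => by linarith [h3.1]⟩
  · have m := middle (P o - P y) (P o' - P z) (P o - P z) d
    have e1 := mul_neg_of_pos_of_neg q.c13 h2
    have e2 := mul_pos q.c14 h1
    have e3 : 0 < cr (P o' - P z) (P o - P z) * cr (P o - P y) d := by linarith
    exact ⟨⟨(pos_iff_pos_of_mul_pos e3).1 q.c34, h2⟩, fun h3 => by linarith [h3.2]⟩

theorem PQuad.inA_of (q : PQuad G P o y o' z) {d : ℝ × ℝ}
    (h1 : InCone (P o - P y) (P o - P z) d) (h2 : ¬ InCone (P o' - P y) (P o' - P z) d)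
    (h3 : cr (P o' - P y) d ≠ 0) (h4 : cr (P o' - P z) d ≠ 0) : InA P o y o' z d := by
  unfold InA
  rw [inCone_pos q.c12, inCone_pos q.c34]
  rw [inCone_pos q.c14] at h1
  rw [inCone_pos q.c23] at h2
  rcases lt_or_gt_of_ne h3 with h5 | h5
  · exact Or.inl ⟨h1.1, h5⟩
  · rcases lt_or_gt_of_ne h4 with h6 | h6
    · exact absurd ⟨h5, h6⟩ h2
    · exact Or.inr ⟨h6, h1.2⟩

theorem PQuad.pos_of_inA (q : PQuad G P o y o' z) {d : ℝ × ℝ} (h : InA P o y o' z d) :
    0 < cr (P o - P y) d := ((inCone_pos q.c14).1 (q.inA h).1).1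

theorem PQuad.not_inA_neg (q : PQuad G P o y o' z) {d : ℝ × ℝ} (h : InA P o y o' z d) :
    ¬ InA P o y o' z (-d) := by
  intro h2
  have h3 := q.pos_of_inA h
  have h4 := q.pos_of_inA h2
  rw [cr_neg_right] at h4
  linarith

/-- the property of being inside is the same for all neighbours of a white vertex -/
theorem PQuad.white (hG : Geo G P) (q : PQuad G P o y o' z) {u v v' : V} (h1 : u ≠ o)
    (h2 : u ≠ o') (hv : G.Adj u v) (hv' : G.Adj u v') (h : InA P o y o' z (P u - P v)) :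
    InA P o y o' z (P u - P v') := by
  obtain ⟨h3, h4⟩ := q.inA h
  have h5 := hG.noncross h1.symm q.oy q.oz q.ne2 hv hv' h3
  have h6 : ¬ InCone (P o' - P y) (P o' - P z) (P u - P v') := fun h7 =>
    h4 (hG.noncross h2.symm q.yo' q.o'z q.ne2 hv' hv h7)
  rw [inCone_pos q.c14] at h5
  apply q.inA_of ((inCone_pos q.c14).2 h5) h6
  · by_cases hs : o' = v' ∧ y = u
    · exfalso
      obtain ⟨e1, e2⟩ := hs
      have : cr (P o - P y) (P u - P v') < 0 := by
        have := q.c12
        rw [← e1, ← e2, cr_sub_right] at *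
        linarith
      linarith [h5.1]
    · exact hG.np o' y u v' q.yo' hv' (fun e => h2 e.1.symm) hs
  · by_cases hs : o' = v' ∧ z = u
    · exfalso
      obtain ⟨e1, e2⟩ := hs
      have : cr (P o - P y) (P u - P v') < 0 := by
        have := q.c13
        rw [← e1, ← e2, cr_sub_right] at *
        linarith
      linarith [h5.1]
    · exact hG.np o' z u v' q.o'z hv' (fun e => h2 e.1.symm) hs

/-- the property of being inside is the same for all neighbours of a black vertex -/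
theorem PQuad.black (hG : Geo G P) (q : PQuad G P o y o' z) {u v v' : V} (h1 : u ≠ y)
    (h2 : u ≠ z) (hv : G.Adj u v) (hv' : G.Adj u v') (h : InA P o y o' z (P v - P u)) :
    InA P o y o' z (P v' - P u) := by
  have key : ∀ a b c : V, InCone (P a - P b) (P c - P b) (P v - P u) ↔
      InCone (P b - P a) (P b - P c) (P u - P v) := by
    intro a b c
    rw [← inCone_neg, neg_sub, neg_sub, neg_sub]
  have key' : ∀ a b c : V, InCone (P a - P b) (P c - P b) (P v' - P u) ↔
      InCone (P b - P a) (P b - P c) (P u - P v') := by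
    intro a b c
    rw [← inCone_neg, neg_sub, neg_sub, neg_sub]
  unfold InA at h ⊢
  rw [key, key] at h
  rw [key', key']
  rcases h with h | h
  · exact Or.inl (hG.noncross h1.symm q.oy.symm q.yo'.symm q.ne1 hv hv' h)
  · exact Or.inr (hG.noncross h2.symm q.o'z.symm q.oz.symm q.ne1.symm hv hv' h)

theorem fin3_aux : ∀ a b c d : Fin 3, a ≠ c → a ≠ d → b ≠ c → b ≠ d → a = b ∨ c = d := by
  decide

theorem fin3_other : ∀ a : Fin 3, ∃ b : Fin 3, b ≠ a := by decide

/-- in a minimal graph the face is empty -/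
theorem PQuad.empty (hG : Geo G P) (q : PQuad G P o y o' z) (hcol : ¬ G.Colorable 3)
    (hmin : ∀ X : Set V, X ≠ Set.univ → ∃ f : V → Fin 3, ∀ u ∈ X, ∀ v ∈ X, G.Adj u v → f u ≠ f v)
    {u v : V} (huv : G.Adj u v) : ¬ InA P o y o' z (P u - P v) := by
  classical
  intro hin
  -- interior vertices
  set W : Set V := {x | x ≠ o ∧ x ≠ o' ∧ ∀ x', G.Adj x x' → InA P o y o' z (P x - P x')} with hW
  set B : Set V := {x | x ≠ y ∧ x ≠ z ∧ ∀ x', G.Adj x x' → InA P o y o' z (P x' - P x)} with hB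
  have hW1 : ∀ x x', G.Adj x x' → InA P o y o' z (P x - P x') → x ≠ o → x ≠ o' → x ∈ W :=
    fun x x' h1 h2 h3 h4 => ⟨h3, h4, fun x'' h5 => q.white hG h3 h4 h1 h5 h2⟩
  have hB1 : ∀ x x', G.Adj x x' → InA P o y o' z (P x' - P x) → x ≠ y → x ≠ z → x ∈ B :=
    fun x x' h1 h2 h3 h4 => ⟨h3, h4, fun x'' h5 => q.black hG h3 h4 h1 h5 h2⟩
  have hnegt : ∀ a b, InA P o y o' z (P a - P b) → ¬ InA P o y o' z (P b - P a) := by
    intro a b h1 h2
    apply q.not_inA_neg h1
    rw [neg_sub]; exact h2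
  -- the four vertices are not interior
  have p1 := q.c12
  have p2 := q.c13
  have hyo : ¬ InA P o y o' z (P y - P o) := by
    intro h
    have h1 := q.pos_of_inA h
    have : cr (P o - P y) (P y - P o) = 0 := by
      simp only [cr, Prod.fst_sub, Prod.snd_sub]; ring
    linarith
  have hyo' : ¬ InA P o y o' z (P y - P o') := by
    intro h
    have h1 := q.pos_of_inA h
    have : cr (P o - P y) (P y - P o') = - cr (P o - P y) (P o' - P y) := by
      simp only [cr, Prod.fst_sub, Prod.snd_sub]; ring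
    linarith
  have hzo' : ¬ InA P o y o' z (P z - P o') := by
    intro h
    have h1 := q.pos_of_inA h
    have : cr (P o - P y) (P z - P o') = - cr (P o - P y) (P o' - P z) := by
      simp only [cr, Prod.fst_sub, Prod.snd_sub]; ring
    linarith
  have hzo : ¬ InA P o y o' z (P z - P o) := by
    intro h
    have h1 := ((inCone_pos q.c14).1 (q.inA h).1).2
    have : cr (P o - P z) (P z - P o) = 0 := by
      simp only [cr, Prod.fst_sub, Prod.snd_sub]; ring
    linarith
  have hoy : ¬ InA P o y o' z (P o - P y) := by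
    intro h
    have h1 := q.pos_of_inA h
    rw [cr_self] at h1
    exact lt_irrefl _ h1
  have hoz : ¬ InA P o y o' z (P o - P z) := by
    intro h
    have h1 := ((inCone_pos q.c14).1 (q.inA h).1).2
    rw [cr_self] at h1
    exact lt_irrefl _ h1
  have hc23 := q.c23
  have ho'y : ¬ InA P o y o' z (P o' - P y) := by
    unfold InA
    rw [inCone_pos q.c12, inCone_pos q.c34, cr_self]
    rintro (⟨_, h⟩ | ⟨h, _⟩)
    · exact lt_irrefl _ h
    · have : cr (P o' - P z) (P o' - P y) = - cr (P o' - P y) (P o' - P z) := cr_comm _ _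
      linarith
  have ho'z : ¬ InA P o y o' z (P o' - P z) := by
    unfold InA
    rw [inCone_pos q.c12, inCone_pos q.c34, cr_self]
    rintro (⟨_, h⟩ | ⟨h, _⟩)
    · linarith
    · exact lt_irrefl _ h
  have oX : o ∉ W ∧ o ∉ B := ⟨fun h => h.1 rfl, fun h => hyo (h.2.2 y q.oy)⟩
  have o'X : o' ∉ W ∧ o' ∉ B := ⟨fun h => h.2.1 rfl, fun h => hyo' (h.2.2 y q.yo')⟩
  have yX : y ∉ W ∧ y ∉ B := ⟨fun h => hyo (h.2.2 o q.oy.symm), fun h => h.1 rfl⟩
  have zX : z ∉ W ∧ z ∉ B := ⟨fun h => hzo (h.2.2 o q.oz.symm), fun h => h.2.1 rfl⟩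
  -- neighbours
  have nW : ∀ x x', x ∈ W → G.Adj x x' → x' ∈ B ∨ x' = y ∨ x' = z := by
    intro x x' hx hxx
    by_cases h1 : x' = y
    · exact Or.inr (Or.inl h1)
    by_cases h2 : x' = z
    · exact Or.inr (Or.inr h2)
    exact Or.inl (hB1 x' x hxx.symm (hx.2.2 x' hxx) h1 h2)
  have nB : ∀ x x', x ∈ B → G.Adj x x' → x' ∈ W ∨ x' = o ∨ x' = o' := by
    intro x x' hx hxx
    by_cases h1 : x' = o
    · exact Or.inr (Or.inl h1)
    by_cases h2 : x' = o'
    · exact Or.inr (Or.inr h2)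
    exact Or.inl (hW1 x' x hxx.symm (hx.2.2 x' hxx) h1 h2)
  have dWB : ∀ x x', G.Adj x x' → x ∈ W → x ∉ B := by
    intro x x' hxx h1 h2
    exact hnegt _ _ (h1.2.2 x' hxx) (h2.2.2 x' hxx)
  -- there is an interior vertex
  have hne : ∃ x, x ∈ W ∨ x ∈ B := by
    by_cases h1 : u = o
    · by_cases h2 : v = y
      · exact absurd (by rw [h1, h2] at hin; exact hin) hoy
      by_cases h3 : v = z
      · exact absurd (by rw [h1, h3] at hin; exact hin) hoz
      exact ⟨v, Or.inr (hB1 v u huv.symm hin h2 h3)⟩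
    by_cases h1' : u = o'
    · by_cases h2 : v = y
      · exact absurd (by rw [h1', h2] at hin; exact hin) ho'y
      by_cases h3 : v = z
      · exact absurd (by rw [h1', h3] at hin; exact hin) ho'z
      exact ⟨v, Or.inr (hB1 v u huv.symm hin h2 h3)⟩
    exact ⟨u, Or.inl (hW1 u v huv hin h1 h1')⟩
  obtain ⟨x0, hx0⟩ := hne
  obtain ⟨f, hf⟩ := hmin {x | x ∉ W ∧ x ∉ B} (by
    intro h
    have : x0 ∈ ({x | x ∉ W ∧ x ∉ B} : Set V) := by rw [h]; trivial
    rcases hx0 with h1 | h1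
    · exact this.1 h1
    · exact this.2 h1)
  have foy := hf o oX y yX q.oy
  have foz := hf o oX z zX q.oz
  have fo'y := hf o' o'X y yX q.yo'
  have fo'z := hf o' o'X z zX q.o'z
  have hab : ∃ α β : Fin 3, α ≠ β ∧ α ≠ f y ∧ α ≠ f z ∧ β ≠ f o ∧ β ≠ f o' := by
    rcases fin3_aux (f o) (f o') (f y) (f z) foy foz fo'y fo'z with h1 | h1
    · obtain ⟨β, hβ⟩ := fin3_other (f o)
      exact ⟨f o, β, hβ.symm, foy, foz, hβ, h1 ▸ hβ⟩
    · obtain ⟨α, hα⟩ := fin3_other (f y)
      exact ⟨α, f y, hα, hα, h1 ▸ hα, foy.symm, fo'y.symm⟩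
  obtain ⟨α, β, hαβ, hαy, hαz, hβo, hβo'⟩ := hab
  apply hcol
  refine ⟨SimpleGraph.Coloring.mk (fun x => if x ∈ W then α else if x ∈ B then β else f x) ?_⟩
  have gen : ∀ a b, G.Adj a b → a ∈ W → b ∉ W ∧ (if b ∈ B then β else f b) ≠ α := by
    intro a b hab ha
    rcases nW a b ha hab with h1 | h1 | h1
    · refine ⟨fun h2 => dWB b a hab.symm h2 h1, ?_⟩
      rw [if_pos h1]; exact hαβ.symm
    · rw [h1]
      refine ⟨yX.1, ?_⟩
      rw [if_neg yX.2]; exact hαy.symm
    · rw [h1]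
      refine ⟨zX.1, ?_⟩
      rw [if_neg zX.2]; exact hαz.symm
  have gen2 : ∀ a b, G.Adj a b → a ∈ B → b ∉ W → b ∉ B ∧ f b ≠ β := by
    intro a b hab ha hb
    rcases nB a b ha hab with h1 | h1 | h1
    · exact absurd h1 hb
    · rw [h1]; exact ⟨oX.2, hβo.symm⟩
    · rw [h1]; exact ⟨o'X.2, hβo'.symm⟩
  intro a b hab
  show (if a ∈ W then α else if a ∈ B then β else f a) ≠
    (if b ∈ W then α else if b ∈ B then β else f b)
  by_cases ha : a ∈ W
  · obtain ⟨h1, h2⟩ := gen a b hab ha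
    rw [if_pos ha, if_neg h1]
    exact h2.symm
  by_cases hb : b ∈ W
  · obtain ⟨h1, h2⟩ := gen b a hab.symm hb
    rw [if_pos hb, if_neg h1]
    exact h2
  rw [if_neg ha, if_neg hb]
  by_cases ha' : a ∈ B
  · obtain ⟨h1, h2⟩ := gen2 a b hab ha' hb
    rw [if_pos ha', if_neg h1]
    exact h2.symm
  by_cases hb' : b ∈ B
  · obtain ⟨h1, h2⟩ := gen2 b a hab.symm hb' ha
    rw [if_pos hb', if_neg h1]
    exact h2
  rw [if_neg ha', if_neg hb']
  exact hf a ⟨ha, ha'⟩ b ⟨hb, hb'⟩ hab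

end Pool.Agent.Lib.MP_377e48_co
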