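import Pool.Agent.Lib.MP_377e48_co.Stress

set_option autoImplicit false

/-! # Dimensions one and two -/

namespace Pool.Agent.Lib.MP_377e48_co

open Finset

theorem dist_one (x y : EuclideanSpace ℝ (Fin 1)) : dist x y = |x 0 - y 0| := by
  rw [EuclideanSpace.dist_eq]
  simp [Real.sqrt_sq_eq_abs, Real.dist_eq]

theorem line_colorable {n : ℕ} (c : Fin n → EuclideanSpace ℝ (Fin 1)) (ρ : Fin n → ℝ)
    (hpos : ∀ i, 0 < ρ i) (hmeet : ∀ i j, dist (c i) (c j) ≤ ρ i + ρ j) :
    (SimpleGraph.fromRel (fun i j : Fin n => dist (c i) (c j) = ρ i + ρ j)).Colorable 2 := by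
  classical
  simp only [dist_one] at *
  -- orient every edge
  have hor : ∀ i j, |c i 0 - c j 0| = ρ i + ρ j → c j 0 - c i 0 = ρ i + ρ j ∨
      c i 0 - c j 0 = ρ i + ρ j := by
    intro i j hij
    rcases abs_cases (c i 0 - c j 0) with ⟨h, _⟩ | ⟨h, _⟩
    · right; linarith
    · left; linarith
  by_cases hex : ∃ i j, c j 0 - c i 0 = ρ i + ρ j
  · obtain ⟨i0, j0, h0⟩ := hex
    set t := c i0 0 + ρ i0 with ht
    have hin : ∀ k, c k 0 - ρ k ≤ t ∧ t ≤ c k 0 + ρ k := by
      intro k
      have h1 := (abs_le.1 (hmeet k i0)).2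
      have h2 := (abs_le.1 (hmeet k j0)).1
      constructor <;> linarith
    -- adjacent intervals lie on different sides
    have key : ∀ i j, c j 0 - c i 0 = ρ i + ρ j → c i 0 < t ∧ ¬ (c j 0 < t) := by
      intro i j hij
      have h1 := (hin i).2
      have h2 := (hin j).1
      have h3 := hpos i
      have h4 := hpos j
      constructor <;> linarith
    refine ⟨SimpleGraph.Coloring.mk (fun k => if c k 0 < t then (0 : Fin 2) else 1) ?_⟩
    intro i j hij
    rw [SimpleGraph.fromRel_adj] at hij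
    have hij' : |c i 0 - c j 0| = ρ i + ρ j := by
      rcases hij.2 with h | h
      · exact h
      · rw [abs_sub_comm, h, add_comm]
    rcases hor i j hij' with h | h
    · obtain ⟨k1, k2⟩ := key i j h
      simp [k1, k2]
    · obtain ⟨k1, k2⟩ := key j i (by linarith)
      simp [k1, k2]
  · push Not at hex
    refine ⟨SimpleGraph.Coloring.mk (fun _ => (0 : Fin 2)) ?_⟩
    intro i j hij
    exfalso
    rw [SimpleGraph.fromRel_adj] at hij
    have hij' : |c i 0 - c j 0| = ρ i + ρ j := by
      rcases hij.2 with h | h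
      · exact h
      · rw [abs_sub_comm, h, add_comm]
    rcases hor i j hij' with h | h
    · exact hex i j h
    · exact hex j i (by linarith)

/-- the planar case -/
theorem plane_colorable {n : ℕ} (c : Fin n → E2) (ρ : Fin n → ℝ) (hD : Discs c ρ)
    (hs : SF c ρ) : (tg c ρ).Colorable 3 := by
  classical
  by_contra hcon
  obtain ⟨S, h4, hS⟩ := exists_dense hD hcon
  have h1 := sf_count (hD.sub S) (hs.sub S) (by rw [Fintype.card_coe]; omega)
  rw [Fintype.card_coe] at h1
  have h2 := hS
  omega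

/-- the dense subfamily, with the pairs counted in the order of the indices -/
theorem dense_pairs {n : ℕ} (c : Fin n → E2) (ρ : Fin n → ℝ) (hD : Discs c ρ)
    (hcol : ¬ (tg c ρ).Colorable 3) :
    ∃ S : Finset (Fin n), 4 ≤ S.card ∧
      2 * S.card ≤ ((S ×ˢ S).filter (fun p : Fin n × Fin n =>
        p.1 < p.2 ∧ dist (c p.1) (c p.2) = ρ p.1 + ρ p.2)).card + 2 := by
  classical
  obtain ⟨S, h4, hS⟩ := exists_dense hD hcol
  refine ⟨S, h4, ?_⟩
  refine hS.trans (Nat.add_le_add_right ?_ 2)
  set T : Finset ({x // x ∈ S} × {x // x ∈ S}) := Finset.univ.filter (fun p =>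
    p.1.1 < p.2.1 ∧ dist (c p.1.1) (c p.2.1) = ρ p.1.1 + ρ p.2.1) with hT
  have h1 : (tg (fun v : {x // x ∈ S} => c v.1) (fun v : {x // x ∈ S} => ρ v.1)).edgeFinset ⊆
      T.image (fun p => s(p.1, p.2)) := by
    intro e he
    induction e using Sym2.ind with
    | _ u v =>
      rw [SimpleGraph.mem_edgeFinset, SimpleGraph.mem_edgeSet] at he
      have hne := he.ne
      rw [tg_adj (hD.sub S)] at he
      rw [Finset.mem_image]
      rcases lt_or_gt_of_ne (fun e => hne (Subtype.ext e) : u.1 ≠ v.1) with h | h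
      · exact ⟨(u, v), by rw [hT, Finset.mem_filter]; exact ⟨mem_univ _, h, he⟩, rfl⟩
      · refine ⟨(v, u), ?_, Sym2.eq_swap⟩
        rw [hT, Finset.mem_filter]
        refine ⟨mem_univ _, h, ?_⟩
        rw [dist_comm, add_comm]; exact he
  refine (Finset.card_le_card h1).trans (Finset.card_image_le.trans ?_)
  apply Finset.card_le_card_of_injOn (fun p => (p.1.1, p.2.1))
  · intro p hp
    rw [hT, Finset.mem_coe, Finset.mem_filter] at hp
    rw [Finset.mem_coe, Finset.mem_filter, Finset.mem_product]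
    exact ⟨⟨p.1.2, p.2.2⟩, hp.2⟩
  · intro p _ q _ h
    simp only [Prod.mk.injEq] at h
    exact Prod.ext (Subtype.ext h.1) (Subtype.ext h.2)

end Pool.Agent.Lib.MP_377e48_co
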