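import Pool.Agent.Lib.MP_377e48_co.Potential
import Pool.Agent.Lib.MP_377e48_co.Curve

set_option autoImplicit false

/-! # Monotone four-cycles -/

namespace Pool.Agent.Lib.MP_377e48_co

open SimpleGraph Finset

variable {V : Type*} {G : SimpleGraph V} {P : V → ℝ × ℝ}

theorem wt_eq_sum (ℓ : V → ℝ) {u v : V} (p : G.Walk u v) :
    wt ℓ p = ∑ i ∈ range p.length, stp ℓ (p.getVert i) (p.getVert (i + 1)) := by
  induction p with
  | nil => simp [wt]
  | cons h p ih =>
    rw [Walk.length_cons, sum_range_succ']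
    simp only [Walk.getVert_cons_succ, wt, Walk.getVert_zero]
    rw [ih]; ring

/-- indicator of an ascent -/
noncomputable def asc (ℓ : V → ℝ) (v : ℕ → V) (i : ℕ) : ℕ := if ℓ (v i) < ℓ (v (i + 1)) then 1 else 0

theorem sum_pairs (f : ℕ → ℕ) (K : ℕ) :
    ∑ i ∈ range (2 * K), f i = ∑ j ∈ range K, f (2 * j) + ∑ j ∈ range K, f (2 * j + 1) := by
  induction K with
  | zero => simp
  | succ K ih =>
    rw [show 2 * (K + 1) = 2 * K + 1 + 1 by ring, sum_range_succ, sum_range_succ, ih,
      sum_range_succ _ K, sum_range_succ _ K]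
    ring

theorem sum_zmod (K : ℕ) [NeZero K] (f : ℕ → ℕ) : ∑ j : ZMod K, f j.val = ∑ j ∈ range K, f j := by
  apply sum_bij' (fun (j : ZMod K) _ => j.val) (fun (j : ℕ) _ => (j : ZMod K))
  · intro j _; exact mem_range.2 (ZMod.val_lt j)
  · intro j _; exact mem_univ _
  · intro j _; exact ZMod.natCast_zmod_val j
  · intro j hj; exact ZMod.val_cast_of_lt (mem_range.1 hj)
  · intro j _; rfl

/-- ascents of a periodic closed walk -/
theorem asc_bound (h : Geo G P) (p : ℝ × ℝ) (hp : p ≠ 0)
    (hgen : ∀ u v, G.Adj u v → cr p (P u - P v) ≠ 0) (m K : ℕ) (hK : 2 ≤ K) (hmK : m ∣ 2 * K)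
    (hinj2 : ∀ a b, a < K → b < K → 2 * a ≡ 2 * b [MOD m] → a = b)
    (v : ℕ → V) (hper : ∀ i j, i ≡ j [MOD m] ↔ v i = v j) (hadj : ∀ i, G.Adj (v i) (v (i + 1))) :
    ∑ i ∈ range (2 * K), asc (fun x => cr p (P x)) v i ≤ K + 1 := by
  have : NeZero K := ⟨by omega⟩
  have hnext : ∀ j : ZMod K, v (2 * (j + 1).val) = v (2 * j.val + 2) := by
    intro j
    rw [← hper]
    apply Nat.ModEq.of_dvd hmK
    have h1 : (j + 1).val = (j.val + 1) % K := by
      rw [ZMod.val_add]
      have : Fact (1 < K) := ⟨by omega⟩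
      rw [ZMod.val_one]
    rw [h1]
    have h2 : (j.val + 1) % K ≡ j.val + 1 [MOD K] := Nat.mod_modEq _ _
    have h3 := h2.mul_left' 2
    rw [show 2 * j.val + 2 = 2 * (j.val + 1) by ring]
    exact h3
  have hc := curve_bound h p hp hgen K hK (fun j => v (2 * j.val)) (fun j => v (2 * j.val + 1))
    ?_ ?_ (fun j => hadj _) (fun j => by rw [hnext]; exact hadj _)
  · have e1 : (univ.filter (fun j : ZMod K => cr p (P (v (2 * j.val))) <
        cr p (P (v (2 * j.val + 1))))).card =
        ∑ j ∈ range K, asc (fun x => cr p (P x)) v (2 * j) := by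
      rw [card_filter, ← sum_zmod K (fun j => asc (fun x => cr p (P x)) v (2 * j))]
      rfl
    have e2 : (univ.filter (fun j : ZMod K => cr p (P (v (2 * j.val + 1))) <
        cr p (P (v (2 * (j + 1).val))))).card =
        ∑ j ∈ range K, asc (fun x => cr p (P x)) v (2 * j + 1) := by
      rw [card_filter, ← sum_zmod K (fun j => asc (fun x => cr p (P x)) v (2 * j + 1))]
      apply sum_congr rfl
      intro j _
      simp only [asc]
      rw [hnext]
    rw [e1, e2] at hc
    rw [sum_pairs]
    exact hc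
  · intro a b hab
    have h1 := hinj2 a.val b.val (ZMod.val_lt a) (ZMod.val_lt b) ((hper _ _).2 hab)
    exact ZMod.val_injective K h1
  · intro a b hab
    have h1 := (hper _ _).2 hab
    have h2 : 2 * a.val ≡ 2 * b.val [MOD m] := Nat.ModEq.add_right_cancel' 1 h1
    exact ZMod.val_injective K (hinj2 a.val b.val (ZMod.val_lt a) (ZMod.val_lt b) h2)

/-- if the graph is not 3-colourable then there is a monotone four-cycle -/
theorem exists_mono [Fintype V] (h : Geo G P) (p : ℝ × ℝ) (hp : p ≠ 0)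
    (hgen : ∀ u v, G.Adj u v → cr p (P u - P v) ≠ 0) (hcol : ¬ G.Colorable 3) :
    ∃ a b c d, G.Adj a b ∧ G.Adj b c ∧ G.Adj c d ∧ G.Adj d a ∧ cr p (P a) < cr p (P b) ∧
      cr p (P b) < cr p (P c) ∧ cr p (P c) < cr p (P d) := by
  set ℓ : V → ℝ := fun x => cr p (P x) with hℓ
  have hne : ∀ u v, G.Adj u v → ℓ u ≠ ℓ v := by
    intro u v huv he
    apply hgen u v huv
    rw [cr_sub_right]
    simp only [hℓ] at he
    rw [he, sub_self]
  have hpos : ∃ (u : V) (q : G.Walk u u), q.IsCycle ∧ 0 < wt ℓ q := by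
    by_contra hcon
    push Not at hcon
    exact hcol (minty ℓ hne hcon)
  obtain ⟨u, q, hq, hw⟩ := hpos
  set m := q.length with hm
  have hm3 : 3 ≤ m := hq.three_le_length
  set v : ℕ → V := fun i => q.getVert (i % m) with hv
  have hvm : ∀ i, i < m → v i = q.getVert i := by
    intro i hi
    simp only [hv]
    rw [Nat.mod_eq_of_lt hi]
  have hsucc : ∀ i, v (i + 1) = q.getVert (i % m + 1) := by
    intro i
    simp only [hv]
    rcases Nat.lt_or_ge (i % m + 1) m with h1 | h1
    · rw [Nat.add_mod, Nat.mod_eq_of_lt (show 1 < m by omega), Nat.mod_eq_of_lt h1]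
    · have h2 : i % m < m := Nat.mod_lt _ (by omega)
      have h3 : i % m + 1 = m := by omega
      rw [Nat.add_mod, Nat.mod_eq_of_lt (show 1 < m by omega), h3, Nat.mod_self, hm,
        Walk.getVert_length, Walk.getVert_zero]
  have hadj : ∀ i, G.Adj (v i) (v (i + 1)) := by
    intro i
    rw [hsucc]
    simp only [hv]
    exact q.adj_getVert_succ (Nat.mod_lt _ (by omega))
  have hper : ∀ i j, i ≡ j [MOD m] ↔ v i = v j := by
    intro i j
    constructor
    · intro hij
      simp only [hv]
      rw [show i % m = j % m from hij]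
    · intro hij
      have h1 := hq.getVert_injOn' (x₁ := i % m) (x₂ := j % m)
        (by
          have := Nat.mod_lt i (show 0 < m by omega)
          show i % m ≤ q.length - 1
          omega)
        (by
          have := Nat.mod_lt j (show 0 < m by omega)
          show j % m ≤ q.length - 1
          omega) hij
      exact h1
  have hwt : wt ℓ q = 3 * (∑ i ∈ range m, asc ℓ v i : ℕ) - 2 * m := by
    rw [wt_eq_sum, ← hm]
    have : ∀ i ∈ range m, stp ℓ (q.getVert i) (q.getVert (i + 1)) = 3 * (asc ℓ v i : ℤ) - 2 := by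
      intro i hi
      have hi' := mem_range.1 hi
      have e1 := hvm i hi'
      have e2 := hsucc i
      rw [Nat.mod_eq_of_lt hi'] at e2
      simp only [stp, asc]
      rw [e1, e2]
      split_ifs <;> norm_num
    rw [sum_congr rfl this, sum_sub_distrib, ← mul_sum]
    push_cast
    simp
    ring
  have hascper : ∀ i, asc ℓ v (m + i) = asc ℓ v i := by
    intro i
    have e1 : v (m + i) = v i := (hper _ _).1 (by simp [Nat.ModEq])
    have e2 : v (m + i + 1) = v (i + 1) := (hper _ _).1 (by
      rw [show m + i + 1 = m + (i + 1) by ring]; simp [Nat.ModEq])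
    simp only [asc]
    rw [e1, e2]
  have hm4 : m = 4 := by
    rcases Nat.even_or_odd m with he | ho
    · obtain ⟨K, hK⟩ := he
      have h1 : ∑ i ∈ range (2 * K), asc ℓ v i ≤ K + 1 := asc_bound h p hp hgen m K (by omega) ⟨1, by omega⟩ (by
        intro a b ha hb hab
        have := Nat.ModEq.eq_of_lt_of_lt hab (by omega) (by omega)
        omega) v hper hadj
      rw [show 2 * K = m by omega] at h1
      rw [hwt] at hw
      omega
    · have h1 : ∑ i ∈ range (2 * m), asc ℓ v i ≤ m + 1 := asc_bound h p hp hgen m m (by omega) ⟨2, by ring⟩ (by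
        intro a b ha hb hab
        have h2 : Nat.gcd m 2 = 1 := by
          have := Nat.Coprime.symm (Nat.coprime_two_left.2 ho)
          exact this
        have h3 := Nat.ModEq.cancel_left_of_coprime h2 hab
        exact Nat.ModEq.eq_of_lt_of_lt h3 ha hb) v hper hadj
      rw [show 2 * m = m + m by ring, sum_range_add] at h1
      simp only [hascper] at h1
      rw [hwt] at hw
      obtain ⟨k, hk⟩ := ho
      omega
  rw [hwt, hm4] at hw
  rw [hm4] at hper
  have h4 : v 4 = v 0 := (hper _ _).1 (by decide)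
  have h5 : v 5 = v 1 := (hper _ _).1 (by decide)
  have h6 : v 6 = v 2 := (hper _ _).1 (by decide)
  have hsum : 3 ≤ asc ℓ v 0 + asc ℓ v 1 + asc ℓ v 2 + asc ℓ v 3 := by
    simp only [sum_range_succ, sum_range_zero] at hw
    omega
  have hle : ∀ i, asc ℓ v i ≤ 1 := by
    intro i; simp only [asc]; split_ifs <;> omega
  have hone : ∀ i, asc ℓ v i = 1 → ℓ (v i) < ℓ (v (i + 1)) := by
    intro i hi
    simp only [asc] at hi
    by_contra hcon
    rw [if_neg hcon] at hi
    omega
  have a0 := hadj 0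
  have a1 := hadj 1
  have a2 := hadj 2
  have a3 := hadj 3
  simp only [zero_add] at a0
  norm_num at a1 a2 a3
  rw [h4] at a3
  have l0 := hle 0
  have l1 := hle 1
  have l2 := hle 2
  have l3 := hle 3
  have c0 := hone 0
  have c1 := hone 1
  have c2 := hone 2
  have c3 := hone 3
  simp only [zero_add] at c0
  norm_num at c1 c2 c3
  rw [h4] at c3
  by_cases n0 : asc ℓ v 0 = 1
  · by_cases n1 : asc ℓ v 1 = 1
    · by_cases n2 : asc ℓ v 2 = 1
      · exact ⟨v 0, v 1, v 2, v 3, a0, a1, a2, a3, c0 n0, c1 n1, c2 n2⟩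
      · exact ⟨v 3, v 0, v 1, v 2, a3, a0, a1, a2, c3 (by omega), c0 n0, c1 n1⟩
    · exact ⟨v 2, v 3, v 0, v 1, a2, a3, a0, a1, c2 (by omega), c3 (by omega), c0 n0⟩
  · exact ⟨v 1, v 2, v 3, v 0, a1, a2, a3, a0, c1 (by omega), c2 (by omega), c3 (by omega)⟩

end Pool.Agent.Lib.MP_377e48_co
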