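import Pool.Agent.Lib.MP_377e48_co.Basic

set_option autoImplicit false

/-! # The linear order of directions and the alternation of crossings -/

namespace Pool.Agent.Lib.MP_377e48_co

/-- inner product -/
def dt (a b : ℝ × ℝ) : ℝ := a.1 * b.1 + a.2 * b.2

theorem dt_self_pos {p : ℝ × ℝ} (hp : p ≠ 0) : 0 < dt p p := by
  unfold dt
  by_contra h
  push Not at h
  have h1 : p.1 = 0 := by nlinarith [mul_self_nonneg p.1, mul_self_nonneg p.2]
  have h2 : p.2 = 0 := by nlinarith [mul_self_nonneg p.1, mul_self_nonneg p.2]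
  exact hp (Prod.ext h1 h2)

theorem dt_cr (p a b : ℝ × ℝ) : dt p a * cr p b - dt p b * cr p a = dt p p * cr a b := by
  simp only [dt, cr]; ring

/-- the linear order of the directions, cut at `p` -/
noncomputable def key (p d : ℝ × ℝ) : Bool ×ₗ ℝ := toLex (decide (cr p d < 0), - dt p d / cr p d)

theorem key_lt_iff {p a b : ℝ × ℝ} (hp : p ≠ 0) (ha : cr p a ≠ 0) (hb : cr p b ≠ 0) :
    key p a < key p b ↔
      (0 < cr p a ∧ cr p b < 0) ∨ (0 < cr p a * cr p b ∧ 0 < cr a b) := by
  have hpp := dt_self_pos hp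
  have hid := dt_cr p a b
  unfold key
  rw [Prod.Lex.toLex_lt_toLex]
  rcases lt_or_gt_of_ne ha with ha' | ha' <;> rcases lt_or_gt_of_ne hb with hb' | hb'
  · -- both negative
    have e1 : decide (cr p a < 0) = true := decide_eq_true ha'
    have e2 : decide (cr p b < 0) = true := decide_eq_true hb'
    simp only [e1, e2, lt_irrefl, true_and, false_or]
    have h1 : 0 < cr p a * cr p b := mul_pos_of_neg_of_neg ha' hb'
    have h2 : - dt p a / cr p a < - dt p b / cr p b ↔ 0 < cr a b := by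
      have e : - dt p b / cr p b - - dt p a / cr p a = dt p p * cr a b / (cr p a * cr p b) := by
        rw [← hid]; field_simp; ring
      rw [← sub_pos, e, div_pos_iff_of_pos_right h1]
      exact mul_pos_iff_of_pos_left hpp
    rw [h2]
    constructor
    · intro h; exact Or.inr ⟨h1, h⟩
    · rintro (⟨h, _⟩ | ⟨_, h⟩)
      · linarith
      · exact h
  · have e1 : decide (cr p a < 0) = true := decide_eq_true ha'
    have e2 : decide (cr p b < 0) = false := decide_eq_false (not_lt.2 hb'.le)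
    simp only [e1, e2]
    constructor
    · rintro (h | ⟨h, _⟩)
      · exact absurd h (by decide)
      · exact absurd h (by decide)
    · rintro (⟨h, _⟩ | ⟨h, _⟩)
      · linarith
      · nlinarith
  · have e1 : decide (cr p a < 0) = false := decide_eq_false (not_lt.2 ha'.le)
    have e2 : decide (cr p b < 0) = true := decide_eq_true hb'
    simp only [e1, e2]
    constructor
    · intro _; exact Or.inl ⟨ha', hb'⟩
    · intro _; exact Or.inl (by decide)
  · have e1 : decide (cr p a < 0) = false := decide_eq_false (not_lt.2 ha'.le)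
    have e2 : decide (cr p b < 0) = false := decide_eq_false (not_lt.2 hb'.le)
    simp only [e1, e2, lt_irrefl, true_and, false_or]
    have h1 : 0 < cr p a * cr p b := mul_pos ha' hb'
    have h2 : - dt p a / cr p a < - dt p b / cr p b ↔ 0 < cr a b := by
      have e : - dt p b / cr p b - - dt p a / cr p a = dt p p * cr a b / (cr p a * cr p b) := by
        rw [← hid]; field_simp; ring
      rw [← sub_pos, e, div_pos_iff_of_pos_right h1]
      exact mul_pos_iff_of_pos_left hpp
    rw [h2]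
    constructor
    · intro h; exact Or.inr ⟨h1, h⟩
    · rintro (⟨_, h⟩ | ⟨_, h⟩)
      · linarith
      · exact h

theorem key_ne {p a b : ℝ × ℝ} (hp : p ≠ 0) (ha : cr p a ≠ 0) (hb : cr p b ≠ 0)
    (hab : cr a b ≠ 0 ∨ b = -a) : key p a ≠ key p b := by
  intro he
  have h1 := (key_lt_iff hp ha hb).not.1 (by rw [he]; exact lt_irrefl _)
  have h2 := (key_lt_iff hp hb ha).not.1 (by rw [he]; exact lt_irrefl _)
  rw [cr_comm a b] at h2
  rw [not_or] at h1 h2
  rcases hab with hab | hab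
  · rcases lt_or_gt_of_ne ha with ha' | ha' <;> rcases lt_or_gt_of_ne hb with hb' | hb'
    · rcases lt_or_gt_of_ne hab with h | h
      · exact h2.2 ⟨mul_pos_of_neg_of_neg hb' ha', by linarith⟩
      · exact h1.2 ⟨mul_pos_of_neg_of_neg ha' hb', h⟩
    · exact h2.1 ⟨hb', ha'⟩
    · exact h1.1 ⟨ha', hb'⟩
    · rcases lt_or_gt_of_ne hab with h | h
      · exact h2.2 ⟨mul_pos hb' ha', by linarith⟩
      · exact h1.2 ⟨mul_pos ha' hb', h⟩
  · rw [hab, cr_neg_right] at h1 h2
    rcases lt_or_gt_of_ne ha with ha' | ha'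
    · exact h2.1 ⟨by linarith, ha'⟩
    · exact h1.1 ⟨ha', by linarith⟩

theorem sign_case (x y z u v w : SignType)
    (h1 : ¬ (x * w = 1 ∧ - (y * v) = 1 ∧ z * u = 1))
    (h2 : ¬ (x * w = -1 ∧ - (y * v) = -1 ∧ z * u = -1))
    (hx : x ≠ 0) (hy : y ≠ 0) (hz : z ≠ 0) (hu : u ≠ 0)
    (hv : v ≠ 0 ∨ (z = -x ∧ v = 0 ∧ w = u)) (hw : w ≠ 0 ∨ (z = -y ∧ w = 0 ∧ v = -u))
    (hlt : (x = 1 ∧ y = -1) ∨ (x * y = 1 ∧ u = 1)) :
    (u = 1 → ((((x = 1 ∧ z = -1) ∨ (x * z = 1 ∧ v = 1)) ∧
      ((z = 1 ∧ y = -1) ∨ (z * y = 1 ∧ -w = 1))) ↔ (v * u = 1 ∧ -w * u = 1))) ∧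
    (u = -1 → ((((x = 1 ∧ z = -1) ∨ (x * z = 1 ∧ v = 1)) ∧
      ((z = 1 ∧ y = -1) ∨ (z * y = 1 ∧ -w = 1))) ↔ ¬ (v * u = 1 ∧ -w * u = 1))) := by
  cases x <;> first | exact absurd rfl hx | skip
  all_goals cases y <;> first | exact absurd rfl hy | skip
  all_goals cases z <;> first | exact absurd rfl hz | skip
  all_goals cases u <;> first | exact absurd rfl hu | skip
  all_goals (cases v <;> cases w <;> revert h1 h2 hv hw hlt <;> decide)

open SignType in
theorem between_iff {p a b d : ℝ × ℝ} (hp : p ≠ 0) (ha : cr p a ≠ 0) (hb : cr p b ≠ 0)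
    (hd : cr p d ≠ 0) (hab : cr a b ≠ 0) (had : cr a d ≠ 0 ∨ d = -a) (hbd : cr b d ≠ 0 ∨ d = -b)
    (hlt : key p a < key p b) :
    (0 < cr a b → ((key p a < key p d ∧ key p d < key p b) ↔ InCone a b d)) ∧
    (cr a b < 0 → ((key p a < key p d ∧ key p d < key p b) ↔ ¬ InCone a b d)) := by
  have hpl := plucker p a b d
  rw [key_lt_iff hp ha hb] at hlt
  rw [key_lt_iff hp ha hd, key_lt_iff hp hd hb]
  unfold InCone
  rw [cr_comm b d]
  have key1 := sign_case (sign (cr p a)) (sign (cr p b)) (sign (cr p d)) (sign (cr a b))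
    (sign (cr a d)) (sign (cr b d)) ?_ ?_ (sign_ne_zero.2 ha) (sign_ne_zero.2 hb)
    (sign_ne_zero.2 hd) (sign_ne_zero.2 hab) ?_ ?_ ?_
  · simpa only [← sign_mul, ← Left.sign_neg, sign_eq_one_iff, sign_eq_neg_one_iff] using key1
  · simp only [← sign_mul, ← Left.sign_neg, sign_eq_one_iff]
    rintro ⟨h1, h2, h3⟩
    linarith
  · simp only [← sign_mul, ← Left.sign_neg, sign_eq_neg_one_iff]
    rintro ⟨h1, h2, h3⟩
    linarith
  · rcases had with h | h
    · exact Or.inl (sign_ne_zero.2 h)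
    · right
      subst h
      refine ⟨?_, ?_, ?_⟩
      · rw [cr_neg_right, Left.sign_neg]
      · rw [cr_neg_right, cr_self, neg_zero, sign_zero]
      · rw [cr_neg_right, cr_comm a b, neg_neg]
  · rcases hbd with h | h
    · exact Or.inl (sign_ne_zero.2 h)
    · right
      subst h
      refine ⟨?_, ?_, ?_⟩
      · rw [cr_neg_right, Left.sign_neg]
      · rw [cr_neg_right, cr_self, neg_zero, sign_zero]
      · rw [cr_neg_right, Left.sign_neg]
  · simpa only [← sign_mul, sign_eq_one_iff, sign_eq_neg_one_iff] using hlt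

end Pool.Agent.Lib.MP_377e48_co
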