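import Pool.Agent.Lib.MP_377e48_co.Basic

set_option autoImplicit false

/-! # Minty's theorem for three colours -/

namespace Pool.Agent.Lib.MP_377e48_co

open SimpleGraph

variable {V : Type*} {G : SimpleGraph V}

/-- weight of a step: `+1` for an ascent, `-2` for a descent -/
noncomputable def stp (ℓ : V → ℝ) (u v : V) : ℤ := if ℓ u < ℓ v then 1 else -2

/-- weight of a walk -/
noncomputable def wt (ℓ : V → ℝ) : ∀ {u v : V}, G.Walk u v → ℤ
  | _, _, .nil => 0
  | u, _, .cons (v := b) _ p => stp ℓ u b + wt ℓ p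

theorem wt_append (ℓ : V → ℝ) {u v w : V} (p : G.Walk u v) (q : G.Walk v w) :
    wt ℓ (p.append q) = wt ℓ p + wt ℓ q := by
  induction p with
  | nil => simp [wt]
  | cons h p ih => simp only [Walk.cons_append, wt, ih]; ring

theorem wt_le_length (ℓ : V → ℝ) {u v : V} (p : G.Walk u v) : wt ℓ p ≤ p.length := by
  induction p with
  | nil => simp [wt]
  | cons h p ih =>
    simp only [wt, Walk.length_cons, stp]
    split_ifs <;> push_cast <;> linarith

theorem wt_bypass [DecidableEq V] (ℓ : V → ℝ)
    (hcyc : ∀ (u : V) (p : G.Walk u u), p.IsCycle → wt ℓ p ≤ 0) {u v : V} (p : G.Walk u v) :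
    wt ℓ p ≤ wt ℓ p.bypass := by
  induction p with
  | nil => simp [Walk.bypass]
  | @cons u b w h q ih =>
    simp only [Walk.bypass]
    have hq := q.bypass_isPath
    set q' := q.bypass with hq'
    split_ifs with hs
    · have h1 : wt ℓ q' = wt ℓ (q'.takeUntil u hs) + wt ℓ (q'.dropUntil u hs) := by
        rw [← wt_append, Walk.take_spec]
      have ht : (q'.takeUntil u hs).IsPath := hq.takeUntil hs
      have h2 : stp ℓ u b + wt ℓ (q'.takeUntil u hs) ≤ 0 := by
        generalize q'.takeUntil u hs = t at ht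
        by_cases hmem : s(u, b) ∈ t.edges
        · -- `t` is a single edge
          cases t with
          | nil => simp at hmem
          | @cons _ x _ h' r =>
            rw [Walk.cons_isPath_iff] at ht
            have hxu : x = u := by
              rw [Walk.edges_cons, List.mem_cons] at hmem
              rcases hmem with hm | hm
              · rw [Sym2.eq_iff] at hm
                rcases hm with ⟨h3, h4⟩ | ⟨h3, h4⟩
                · exact absurd h3 h.ne
                · exact h3.symm
              · exact absurd (Walk.snd_mem_support_of_mem_edges r hm) ht.2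
            subst hxu
            have hr : r = Walk.nil := (Walk.isPath_iff_eq_nil).1 ht.1
            rw [hr]
            simp only [wt, stp]
            split_ifs with h5 h6
            · linarith
            · norm_num
            · norm_num
            · norm_num
        · exact hcyc u (Walk.cons h t) ((Walk.cons_isCycle_iff t h).2 ⟨ht, hmem⟩)
      simp only [wt]
      linarith
    · simp only [wt]
      linarith

theorem exists_potential [Fintype V] (ℓ : V → ℝ)
    (hcyc : ∀ (u : V) (p : G.Walk u u), p.IsCycle → wt ℓ p ≤ 0) :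
    ∃ h : V → ℤ, ∀ u v, G.Adj u v → h u + stp ℓ u v ≤ h v := by
  classical
  have hmax : ∀ v : V, ∃ z : ℤ, (∃ u, ∃ p : G.Walk u v, p.IsPath ∧ wt ℓ p = z) ∧
      ∀ z', (∃ u, ∃ p : G.Walk u v, p.IsPath ∧ wt ℓ p = z') → z' ≤ z := by
    intro v
    apply Int.exists_greatest_of_bdd
    · refine ⟨Fintype.card V, ?_⟩
      rintro z ⟨u, p, hp, rfl⟩
      have h1 := wt_le_length ℓ p
      have h2 := hp.length_lt
      have h3 : (p.length : ℤ) < Fintype.card V := by exact_mod_cast h2
      linarith
    · exact ⟨0, v, Walk.nil, Walk.IsPath.nil, by simp [wt]⟩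
  choose h h1 h2 using hmax
  refine ⟨h, fun u v huv => ?_⟩
  obtain ⟨a, p, hp, hw⟩ := h1 u
  have h3 := wt_bypass ℓ hcyc (p.append (Walk.cons huv Walk.nil))
  rw [wt_append, hw] at h3
  simp only [wt, add_zero] at h3
  exact h3.trans (h2 v _ ⟨a, _, Walk.bypass_isPath _, rfl⟩)

theorem minty [Fintype V] (ℓ : V → ℝ) (hℓ : ∀ u v, G.Adj u v → ℓ u ≠ ℓ v)
    (hcyc : ∀ (u : V) (p : G.Walk u u), p.IsCycle → wt ℓ p ≤ 0) : G.Colorable 3 := by
  obtain ⟨h, hh⟩ := exists_potential ℓ hcyc
  have key : ∀ u v, G.Adj u v → ℓ u < ℓ v → h v - h u = 1 ∨ h v - h u = 2 := by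
    intro u v huv hlt
    have h1 := hh u v huv
    have h2 := hh v u huv.symm
    simp only [stp] at h1 h2
    rw [if_pos hlt] at h1
    rw [if_neg (not_lt.2 hlt.le)] at h2
    omega
  have hne : ∀ u v, G.Adj u v → ((h u : ℤ) : ZMod 3) ≠ ((h v : ℤ) : ZMod 3) := by
    intro u v huv he
    rw [ZMod.intCast_eq_intCast_iff_dvd_sub] at he
    rcases lt_or_gt_of_ne (hℓ u v huv) with hlt | hlt
    · rcases key u v huv hlt with h1 | h1 <;> omega
    · rcases key v u huv.symm hlt with h1 | h1 <;> omega
  exact ⟨SimpleGraph.Coloring.mk (fun v => ((h v : ℤ) : ZMod 3)) (fun {u v} huv => hne u v huv)⟩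

end Pool.Agent.Lib.MP_377e48_co
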