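import Pool.Agent.Lib.MP_377e48_co.Mono

set_option autoImplicit false

/-! # Four-cycles and their faces -/

namespace Pool.Agent.Lib.MP_377e48_co

open SimpleGraph Finset

variable {V : Type*} {G : SimpleGraph V} {P : V → ℝ × ℝ}

/-- two disjoint edges: one of the lines separates the ends of the other edge (non degenerate
case) -/
theorem Geo.opp (h : Geo G P) {u v w z : V} (huv : G.Adj u v) (hwz : G.Adj w z) (h1 : u ≠ w)
    (h2 : u ≠ z) (h3 : v ≠ w) (h4 : v ≠ z)
    (hA : 0 < cr (P w - P u) (P w - P z) * cr (P w - P v) (P w - P z))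
    (hB : 0 < cr (P u - P w) (P u - P v) * cr (P u - P z) (P u - P v)) : False := by
  have hD : cr (P u - P v) (P w - P z) ≠ 0 :=
    h.np _ _ _ _ huv hwz (fun e => h1 e.1) (fun e => h2 e.1)
  set D := cr (P u - P v) (P w - P z) with hDdef
  set Au := cr (P w - P u) (P w - P z) with hAu
  set Av := cr (P w - P v) (P w - P z) with hAv
  set Bw := cr (P u - P w) (P u - P v) with hBw
  set Bz := cr (P u - P z) (P u - P v) with hBz
  have e1 : D = Av - Au := by simp only [hDdef, hAu, hAv, cr, Prod.fst_sub, Prod.snd_sub]; ring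
  have e2 : -D = Bz - Bw := by
    simp only [hDdef, hBw, hBz, cr, Prod.fst_sub, Prod.snd_sub]; ring
  -- the common point of the two lines
  have hq : ∀ (s t : ℝ), s * D = Au → t * (-D) = Bw →
      P u + s • (P u - P v) = P w + t • (P w - P z) := by
    intro s t hs ht
    have k1 : s * D - Au = 0 := by linarith
    have k2 : t * D + Bw = 0 := by linarith
    have key1 : D * ((P u).1 + s * ((P u).1 - (P v).1)) =
        D * ((P w).1 + t * ((P w).1 - (P z).1)) := by
      have : D * ((P u).1 + s * ((P u).1 - (P v).1)) -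
        D * ((P w).1 + t * ((P w).1 - (P z).1)) =
        (s * D - Au) * ((P u).1 - (P v).1) - (t * D + Bw) * ((P w).1 - (P z).1) := by
        simp only [hDdef, hAu, hBw, cr, Prod.fst_sub, Prod.snd_sub]; ring
      rw [k1, k2] at this
      linarith
    have key2 : D * ((P u).2 + s * ((P u).2 - (P v).2)) =
        D * ((P w).2 + t * ((P w).2 - (P z).2)) := by
      have : D * ((P u).2 + s * ((P u).2 - (P v).2)) -
        D * ((P w).2 + t * ((P w).2 - (P z).2)) =
        (s * D - Au) * ((P u).2 - (P v).2) - (t * D + Bw) * ((P w).2 - (P z).2) := by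
        simp only [hDdef, hAu, hBw, cr, Prod.fst_sub, Prod.snd_sub]; ring
      rw [k1, k2] at this
      linarith
    ext
    · simp only [Prod.fst_add, Prod.smul_fst, Prod.fst_sub, smul_eq_mul]
      exact mul_left_cancel₀ hD key1
    · simp only [Prod.snd_add, Prod.smul_snd, Prod.snd_sub, smul_eq_mul]
      exact mul_left_cancel₀ hD key2
  have hs : (Au / D) * D = Au := div_mul_cancel₀ _ hD
  have ht : (-Bw / D) * (-D) = Bw := by field_simp
  have hpt := hq _ _ hs ht
  set s := Au / D with hsdef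
  set t := -Bw / D with htdef
  -- `s ≥ 0` or `-(1+s) ≥ 0`
  have hs' : 0 ≤ s ∨ 0 ≤ -(1 + s) := by
    have hD2 : 0 < D * D := mul_self_pos.2 hD
    by_contra hcon
    push Not at hcon
    obtain ⟨c1, c2⟩ := hcon
    have c3 : Av = (1 + s) * D := by linarith
    have c4 : Au * Av = s * (1 + s) * (D * D) := by rw [c3, ← hs]; ring
    have c5 : s * (1 + s) < 0 := mul_neg_of_neg_of_pos c1 (by linarith)
    have c6 := mul_neg_of_neg_of_pos c5 hD2
    linarith
  have ht' : 0 ≤ t ∨ 0 ≤ -(1 + t) := by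
    have hD2 : 0 < D * D := mul_self_pos.2 hD
    by_contra hcon
    push Not at hcon
    obtain ⟨c1, c2⟩ := hcon
    have c3 : Bz = (1 + t) * (-D) := by linarith
    have c4 : Bw * Bz = t * (1 + t) * (D * D) := by rw [c3, ← ht]; ring
    have c5 : t * (1 + t) < 0 := mul_neg_of_neg_of_pos c1 (by linarith)
    have c6 := mul_neg_of_neg_of_pos c5 hD2
    linarith
  have alt1 : P u + s • (P u - P v) = P v + (-(1 + s)) • (P v - P u) := by module
  have alt2 : P w + t • (P w - P z) = P z + (-(1 + t)) • (P z - P w) := by module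
  rcases hs' with hs' | hs' <;> rcases ht' with ht' | ht'
  · exact h.ray u v w z huv hwz h1 s t hs' ht' hpt
  · exact h.ray u v z w huv hwz.symm h2 s _ hs' ht' (hpt.trans alt2)
  · exact h.ray v u w z huv.symm hwz h3 _ t hs' ht' (alt1.symm.trans hpt)
  · exact h.ray v u z w huv.symm hwz.symm h4 _ _ hs' ht' (alt1.symm.trans (hpt.trans alt2))

/-- a four-cycle `o y o' z` with `o` inside the triangle `y o' z` -/
structure Quad (G : SimpleGraph V) (P : V → ℝ × ℝ) (o y o' z : V) : Prop where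
  oy : G.Adj o y
  yo' : G.Adj o' y
  o'z : G.Adj o' z
  oz : G.Adj o z
  ne1 : o ≠ o'
  ne2 : y ≠ z
  ori : (0 < cr (P o - P y) (P o' - P y) ∧ 0 < cr (P o' - P y) (P o' - P z) ∧
      0 < cr (P o' - P z) (P o - P z) ∧ 0 < cr (P o - P y) (P o - P z)) ∨
    (cr (P o - P y) (P o' - P y) < 0 ∧ cr (P o' - P y) (P o' - P z) < 0 ∧
      cr (P o' - P z) (P o - P z) < 0 ∧ cr (P o - P y) (P o - P z) < 0)

theorem exists_quad [Fintype V] (h : Geo G P) (p : ℝ × ℝ) (hp : p ≠ 0)
    (hgen : ∀ u v, G.Adj u v → cr p (P u - P v) ≠ 0) (hcol : ¬ G.Colorable 3) :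
    ∃ o y o' z, Quad G P o y o' z ∧ (InCone (P o' - P z) (P o - P z) p ∨
      InCone (P o' - P z) (P o - P z) (-p)) := by
  obtain ⟨a, b, c, d, hab, hbc, hcd, hda, h1, h2, h3⟩ := exists_mono h p hp hgen hcol
  have hac : a ≠ c := by rintro rfl; linarith
  have hbd : b ≠ d := by rintro rfl; linarith
  -- signed areas
  set s1 := cr (P b - P a) (P c - P a) with hs1
  set s2 := cr (P c - P b) (P d - P b) with hs2
  set s3 := cr (P d - P c) (P a - P c) with hs3
  set s4 := cr (P a - P d) (P b - P d) with hs4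
  have n1 : s1 ≠ 0 := by
    have := h.np a b b c hab hbc (fun e => hab.ne e.1) (fun e => hac e.1)
    intro h0
    apply this
    rw [← h0]
    simp only [hs1, cr, Prod.fst_sub, Prod.snd_sub]; ring
  have n2 : s2 ≠ 0 := by
    have := h.np b c c d hbc hcd (fun e => hbc.ne e.1) (fun e => hbd e.1)
    intro h0
    apply this
    rw [← h0]
    simp only [hs2, cr, Prod.fst_sub, Prod.snd_sub]; ring
  have n3 : s3 ≠ 0 := by
    have := h.np c d d a hcd hda (fun e => hcd.ne e.1) (fun e => hac e.1.symm)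
    intro h0
    apply this
    rw [← h0]
    simp only [hs3, cr, Prod.fst_sub, Prod.snd_sub]; ring
  have n4 : s4 ≠ 0 := by
    have := h.np d a a b hda hab (fun e => hda.ne e.1) (fun e => hbd e.1.symm)
    intro h0
    apply this
    rw [← h0]
    simp only [hs4, cr, Prod.fst_sub, Prod.snd_sub]; ring
  have hsum : s1 + s3 = s2 + s4 := by
    simp only [hs1, hs2, hs3, hs4, cr, Prod.fst_sub, Prod.snd_sub]; ring
  -- the two pairs of opposite edges
  have o1 : ¬ (0 < s1 * s4 ∧ 0 < s2 * s3) := by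
    rintro ⟨q1, q2⟩
    apply h.opp hab hcd hac hda.ne.symm hbc.ne hbd
    · have : cr (P c - P a) (P c - P d) * cr (P c - P b) (P c - P d) = s2 * s3 := by
        simp only [hs2, hs3, cr, Prod.fst_sub, Prod.snd_sub]; ring
      rw [this]; exact q2
    · have : cr (P a - P c) (P a - P b) * cr (P a - P d) (P a - P b) = s1 * s4 := by
        simp only [hs1, hs4, cr, Prod.fst_sub, Prod.snd_sub]; ring
      rw [this]; exact q1
  have o2 : ¬ (0 < s1 * s2 ∧ 0 < s3 * s4) := by
    rintro ⟨q1, q2⟩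
    apply h.opp hbc hda hbd hab.ne.symm hcd.ne hac.symm
    · have : cr (P d - P b) (P d - P a) * cr (P d - P c) (P d - P a) = s3 * s4 := by
        simp only [hs3, hs4, cr, Prod.fst_sub, Prod.snd_sub]; ring
      rw [this]; exact q2
    · have : cr (P b - P d) (P b - P c) * cr (P b - P a) (P b - P c) = s1 * s2 := by
        simp only [hs1, hs2, cr, Prod.fst_sub, Prod.snd_sub]; ring
      rw [this]; exact q1
  -- barycentric identities
  have ba : s2 * cr p (P a) = s3 * cr p (P b) - s4 * cr p (P c) + s1 * cr p (P d) := by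
    simp only [hs1, hs2, hs3, hs4, cr, Prod.fst_sub, Prod.snd_sub]; ring
  have bd : s1 * cr p (P d) = s2 * cr p (P a) - s3 * cr p (P b) + s4 * cr p (P c) := by
    simp only [hs1, hs2, hs3, hs4, cr, Prod.fst_sub, Prod.snd_sub]; ring
  have ba' : 0 = s3 * (cr p (P b) - cr p (P a)) - s4 * (cr p (P c) - cr p (P a)) +
      s1 * (cr p (P d) - cr p (P a)) := by
    have : s2 = s3 - s4 + s1 := by linarith
    rw [this] at ba
    linarith
  have bd' : 0 = s2 * (cr p (P d) - cr p (P a)) - s3 * (cr p (P d) - cr p (P b)) +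
      s4 * (cr p (P d) - cr p (P c)) := by
    have : s1 = s2 - s3 + s4 := by linarith
    rw [this] at bd
    linarith
  have pab : 0 < cr p (P b) - cr p (P a) := by linarith
  have pac : 0 < cr p (P c) - cr p (P a) := by linarith
  have pad : 0 < cr p (P d) - cr p (P a) := by linarith
  have pbd : 0 < cr p (P d) - cr p (P b) := by linarith
  have pcd : 0 < cr p (P d) - cr p (P c) := by linarith
  -- main case distinction
  have inner_b : (s1 < 0 ∧ 0 < s2 ∧ 0 < s3 ∧ 0 < s4) ∨ (0 < s1 ∧ s2 < 0 ∧ s3 < 0 ∧ s4 < 0) →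
      ∃ o y o' z, Quad G P o y o' z ∧ (InCone (P o' - P z) (P o - P z) p ∨
        InCone (P o' - P z) (P o - P z) (-p)) := by
    intro hh
    have e1 : cr (P b - P a) (P d - P a) = s4 := by
      simp only [hs4, cr, Prod.fst_sub, Prod.snd_sub]; ring
    have e2 : cr (P d - P a) (P d - P c) = s3 := by
      simp only [hs3, cr, Prod.fst_sub, Prod.snd_sub]; ring
    have e3 : cr (P d - P c) (P b - P c) = s2 := by
      simp only [hs2, cr, Prod.fst_sub, Prod.snd_sub]; ring
    have e4 : cr (P b - P a) (P b - P c) = -s1 := by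
      simp only [hs1, cr, Prod.fst_sub, Prod.snd_sub]; ring
    refine ⟨b, a, d, c, ⟨hab.symm, hda, hcd.symm, hbc, hbd, hac, ?_⟩, ?_⟩
    · rw [e1, e2, e3, e4]
      rcases hh with ⟨q1, q2, q3, q4⟩ | ⟨q1, q2, q3, q4⟩
      · left; exact ⟨q4, q3, q2, by linarith⟩
      · right; exact ⟨q4, q3, q2, by linarith⟩
    · unfold InCone
      rw [e3]
      have f1 : cr (P d - P c) p = cr p (P c) - cr p (P d) := by
        rw [cr_comm p, cr_sub_right]; ring
      have f2 : cr p (P b - P c) = cr p (P b) - cr p (P c) := cr_sub_right _ _ _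
      rw [cr_neg_right, cr_neg_left, f1, f2]
      rcases hh with ⟨q1, q2, q3, q4⟩ | ⟨q1, q2, q3, q4⟩
      · right; exact ⟨mul_pos (by linarith) q2, mul_pos (by linarith) q2⟩
      · left
        exact ⟨mul_pos_of_neg_of_neg (by linarith) q2, mul_pos_of_neg_of_neg (by linarith) q2⟩
  have inner_c : (0 < s1 ∧ s2 < 0 ∧ 0 < s3 ∧ 0 < s4) ∨ (s1 < 0 ∧ 0 < s2 ∧ s3 < 0 ∧ s4 < 0) →
      ∃ o y o' z, Quad G P o y o' z ∧ (InCone (P o' - P z) (P o - P z) p ∨
        InCone (P o' - P z) (P o - P z) (-p)) := by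
    intro hh
    have e1 : cr (P c - P d) (P a - P d) = -s3 := by
      simp only [hs3, cr, Prod.fst_sub, Prod.snd_sub]; ring
    have e2 : cr (P a - P d) (P a - P b) = -s4 := by
      simp only [hs4, cr, Prod.fst_sub, Prod.snd_sub]; ring
    have e3 : cr (P a - P b) (P c - P b) = -s1 := by
      simp only [hs1, cr, Prod.fst_sub, Prod.snd_sub]; ring
    have e4 : cr (P c - P d) (P c - P b) = s2 := by
      simp only [hs2, cr, Prod.fst_sub, Prod.snd_sub]; ring
    refine ⟨c, d, a, b, ⟨hcd, hda.symm, hab, hbc.symm, hac.symm, hbd.symm, ?_⟩, ?_⟩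
    · rw [e1, e2, e3, e4]
      rcases hh with ⟨q1, q2, q3, q4⟩ | ⟨q1, q2, q3, q4⟩
      · right; exact ⟨by linarith, by linarith, by linarith, q2⟩
      · left; exact ⟨by linarith, by linarith, by linarith, q2⟩
    · unfold InCone
      rw [e3]
      have f1 : cr (P a - P b) p = cr p (P b) - cr p (P a) := by
        rw [cr_comm p, cr_sub_right]; ring
      have f2 : cr p (P c - P b) = cr p (P c) - cr p (P b) := cr_sub_right _ _ _
      rw [cr_neg_right, cr_neg_left, f1, f2]
      rcases hh with ⟨q1, q2, q3, q4⟩ | ⟨q1, q2, q3, q4⟩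
      · right
        exact ⟨mul_pos_of_neg_of_neg (by linarith) (by linarith),
          mul_pos_of_neg_of_neg (by linarith) (by linarith)⟩
      · left; exact ⟨mul_pos (by linarith) (by linarith), mul_pos (by linarith) (by linarith)⟩
  rcases lt_or_gt_of_ne n1 with m1 | m1 <;> rcases lt_or_gt_of_ne n2 with m2 | m2 <;>
  rcases lt_or_gt_of_ne n3 with m3 | m3 <;> rcases lt_or_gt_of_ne n4 with m4 | m4
  · exact absurd ⟨mul_pos_of_neg_of_neg m1 m4, mul_pos_of_neg_of_neg m2 m3⟩ o1
  · -- s4 > 0, others < 0 : a inner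
    exfalso
    linarith [mul_neg_of_neg_of_pos m3 pab, mul_pos m4 pac, mul_neg_of_neg_of_pos m1 pad]
  · -- s3 > 0 : d inner
    exfalso
    linarith [mul_neg_of_neg_of_pos m2 pad, mul_pos m3 pbd, mul_neg_of_neg_of_pos m4 pcd]
  · exact absurd ⟨mul_pos_of_neg_of_neg m1 m2, mul_pos m3 m4⟩ o2
  · exact inner_c (Or.inr ⟨m1, m2, m3, m4⟩)
  · exfalso; linarith
  · exact absurd ⟨mul_pos_of_neg_of_neg m1 m4, mul_pos m2 m3⟩ o1
  · exact inner_b (Or.inl ⟨m1, m2, m3, m4⟩)
  · exact inner_b (Or.inr ⟨m1, m2, m3, m4⟩)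
  · exact absurd ⟨mul_pos m1 m4, mul_pos_of_neg_of_neg m2 m3⟩ o1
  · exfalso; linarith
  · exact inner_c (Or.inl ⟨m1, m2, m3, m4⟩)
  · exact absurd ⟨mul_pos m1 m2, mul_pos_of_neg_of_neg m3 m4⟩ o2
  · exfalso
    linarith [mul_pos m2 pad, mul_neg_of_neg_of_pos m3 pbd, mul_pos m4 pcd]
  · exfalso
    linarith [mul_pos m3 pab, mul_neg_of_neg_of_pos m4 pac, mul_pos m1 pad]
  · exact absurd ⟨mul_pos m1 m4, mul_pos m2 m3⟩ o1

end Pool.Agent.Lib.MP_377e48_co
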