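import Pool.Agent.Lib.MP_377e48_co.Defs

set_option autoImplicit false

namespace Pool.Agent.MP_377e48_co

open Finset

/-- the rigidity vector of the edge `u v` -/
noncomputable def rank_vec {V : Type*} [DecidableEq V] (c : V → ℂ) (u u' : V) : V → ℂ :=
  fun v => (if u = v then c u' - c v else 0) + (if u' = v then c u - c v else 0)

theorem rank_crs_add (x y z : ℂ) : crs x (y + z) = crs x y + crs x z := by
  simp only [crs, Complex.add_re, Complex.add_im]; ring

theorem rank_crs_smul (x y : ℂ) (t : ℝ) : crs x (t • y) = t * crs x y := by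
  simp only [crs, Complex.smul_re, Complex.smul_im, smul_eq_mul]; ring

/-- total force and total moment -/
noncomputable def rank_Phi {V : Type*} [Fintype V] (c : V → ℂ) : (V → ℂ) →ₗ[ℝ] ℂ × ℝ where
  toFun F := (∑ v, F v, ∑ v, crs (c v) (F v))
  map_add' F F' := by
    simp only [Pi.add_apply, rank_crs_add, Finset.sum_add_distrib, Prod.mk_add_mk]
  map_smul' t F := by
    simp only [Pi.smul_apply, rank_crs_smul, Finset.mul_sum, Finset.smul_sum, RingHom.id_apply,
      Prod.smul_mk, smul_eq_mul]

theorem rank_Phi_vec {V : Type*} [Fintype V] [DecidableEq V] (c : V → ℂ) (u u' : V) :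
    rank_Phi c (rank_vec c u u') = 0 := by
  have h1 : ∑ v, rank_vec c u u' v = 0 := by
    simp only [rank_vec, Finset.sum_add_distrib, Finset.sum_ite_eq, Finset.mem_univ, if_true]
    ring
  have h2 : ∑ v, crs (c v) (rank_vec c u u' v) = 0 := by
    have e : ∀ v, crs (c v) (rank_vec c u u' v) =
        (if u = v then crs (c v) (c u' - c v) else 0) +
          (if u' = v then crs (c v) (c u - c v) else 0) := by
      intro v
      rw [rank_vec, rank_crs_add]
      congr 1
      · split_ifs
        · rfl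
        · simp [crs]
      · split_ifs
        · rfl
        · simp [crs]
    simp only [e, Finset.sum_add_distrib, Finset.sum_ite_eq, Finset.mem_univ, if_true]
    simp only [crs, Complex.sub_re, Complex.sub_im]
    ring
  change (∑ v, rank_vec c u u' v, ∑ v, crs (c v) (rank_vec c u u' v)) = 0
  rw [h1, h2]
  rfl

theorem rank_Phi_surj {V : Type*} [Fintype V] [DecidableEq V] (c : V → ℂ) (u u' : V)
    (h : c u ≠ c u') : Function.Surjective (rank_Phi c) := by
  rintro ⟨z, s⟩
  have hne : u ≠ u' := fun e => h (by rw [e])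
  set x : ℂ := c u - c u' with hx
  have hx0 : x ≠ 0 := sub_ne_zero.mpr h
  have hn : 0 < x.re ^ 2 + x.im ^ 2 := by
    have := Complex.normSq_pos.mpr hx0
    rw [Complex.normSq_apply] at this
    nlinarith
  set q : ℝ := (s - crs (c u') z) / (x.re ^ 2 + x.im ^ 2) with hq
  set a : ℂ := ⟨-x.im * q, x.re * q⟩ with ha
  refine ⟨fun v => (if u = v then a else 0) + (if u' = v then z - a else 0), ?_⟩
  have h1 : ∑ v, ((if u = v then a else 0) + (if u' = v then z - a else 0)) = z := by
    simp only [Finset.sum_add_distrib, Finset.sum_ite_eq, Finset.mem_univ, if_true]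
    ring
  have h2 : ∑ v, crs (c v) ((if u = v then a else 0) + (if u' = v then z - a else 0)) = s := by
    have e : ∀ v, crs (c v) ((if u = v then a else 0) + (if u' = v then z - a else 0)) =
        (if u = v then crs (c v) a else 0) + (if u' = v then crs (c v) (z - a) else 0) := by
      intro v
      rw [rank_crs_add]
      congr 1
      · split_ifs
        · rfl
        · simp [crs]
      · split_ifs
        · rfl
        · simp [crs]
    simp only [e, Finset.sum_add_distrib, Finset.sum_ite_eq, Finset.mem_univ, if_true]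
    have e2 : crs (c u) a + crs (c u') (z - a) = crs x a + crs (c u') z := by
      rw [hx]
      simp only [crs, Complex.sub_re, Complex.sub_im]
      ring
    have e3 : crs x a = (x.re ^ 2 + x.im ^ 2) * q := by
      simp only [ha, crs]
      ring
    rw [e2, e3, hq, mul_div_cancel₀ _ hn.ne']
    ring
  change (∑ v, _, ∑ v, _) = _
  rw [h1, h2]

theorem rank_indep {V : Type*} [Fintype V] [DecidableEq V] (F : Fam V) (hSF : F.SF) (M : ℕ)
    (w : ℤ → V) (per : ∀ i, w (i + 2 * (M : ℤ)) = w i)
    (hadj : ∀ i, F.Adj (w i) (w (i + (M : ℤ))))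
    (hsmp : ∀ i j, w i = w j → w (i + (M : ℤ)) = w (j + (M : ℤ)) → (2 * (M : ℤ)) ∣ (i - j)) :
    LinearIndependent ℝ (fun k : Fin M => rank_vec F.c (w (k : ℤ)) (w ((k : ℤ) + (M : ℤ)))) := by
  classical
  rw [Fintype.linearIndependent_iff]
  intro ω hω k
  have hsymm : ∀ i j, F.Adj i j → F.Adj j i := by
    intro i j h
    have h' : ‖F.c i - F.c j‖ = F.r i + F.r j := h
    change ‖F.c j - F.c i‖ = F.r j + F.r i
    rw [norm_sub_rev, h', add_comm]
  let W : V → V → ℝ := fun i j => ∑ k : Fin M, ω k *
    ((if w (k : ℤ) = i ∧ w ((k : ℤ) + (M : ℤ)) = j then 1 else 0) +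
      (if w (k : ℤ) = j ∧ w ((k : ℤ) + (M : ℤ)) = i then 1 else 0))
  have hWs : ∀ i j, W i j = W j i := by
    intro i j
    refine Finset.sum_congr rfl fun k _ => ?_
    rw [add_comm]
  have hW0 : ∀ i j, ¬ F.Adj i j → W i j = 0 := by
    intro i j hij
    refine Finset.sum_eq_zero fun k _ => ?_
    have h1 : ¬ (w (k : ℤ) = i ∧ w ((k : ℤ) + (M : ℤ)) = j) := by
      rintro ⟨h, h'⟩
      exact hij (h ▸ h' ▸ hadj k)
    have h2 : ¬ (w (k : ℤ) = j ∧ w ((k : ℤ) + (M : ℤ)) = i) := by
      rintro ⟨h, h'⟩
      exact hij (hsymm _ _ (h ▸ h' ▸ hadj k))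
    rw [if_neg h1, if_neg h2]
    ring
  have hbal : ∀ j, ∑ i, (if F.Adj i j then (W i j) • (F.c i - F.c j) else 0) = 0 := by
    intro j
    have e1 : ∀ i, (if F.Adj i j then (W i j) • (F.c i - F.c j) else 0) =
        (W i j) • (F.c i - F.c j) := by
      intro i
      by_cases h : F.Adj i j
      · rw [if_pos h]
      · rw [if_neg h, hW0 i j h, zero_smul]
    have e2 : ∑ i, (W i j) • (F.c i - F.c j) = ∑ k : Fin M, ω k •
        rank_vec F.c (w (k : ℤ)) (w ((k : ℤ) + (M : ℤ))) j := by
      simp only [W, Finset.sum_smul]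
      rw [Finset.sum_comm]
      refine Finset.sum_congr rfl fun k _ => ?_
      simp only [mul_smul, ← Finset.smul_sum, add_smul, Finset.sum_add_distrib]
      congr 1
      rw [rank_vec, add_comm]
      congr 1
      · by_cases hj : w (k : ℤ) = j
        · rw [if_pos hj, Finset.sum_eq_single (w ((k : ℤ) + (M : ℤ)))]
          · rw [if_pos ⟨hj, rfl⟩, one_smul]
          · intro b _ hb
            rw [if_neg (fun h => hb h.2.symm), zero_smul]
          · intro h; exact absurd (Finset.mem_univ _) h
        · rw [if_neg hj]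
          refine Finset.sum_eq_zero fun b _ => ?_
          rw [if_neg (fun h => hj h.1), zero_smul]
      · by_cases hj : w ((k : ℤ) + (M : ℤ)) = j
        · rw [if_pos hj, Finset.sum_eq_single (w (k : ℤ))]
          · rw [if_pos ⟨rfl, hj⟩, one_smul]
          · intro b _ hb
            rw [if_neg (fun h => hb h.1.symm), zero_smul]
          · intro h; exact absurd (Finset.mem_univ _) h
        · rw [if_neg hj]
          refine Finset.sum_eq_zero fun b _ => ?_
          rw [if_neg (fun h => hj h.2), zero_smul]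
    rw [Finset.sum_congr rfl (fun i _ => e1 i), e2]
    have := congrFun hω j
    simpa only [Finset.sum_apply, Pi.smul_apply, Pi.zero_apply] using this
  have hz := hSF W hWs hbal _ _ (hadj (k : ℤ))
  have e3 : W (w (k : ℤ)) (w ((k : ℤ) + (M : ℤ))) = ω k := by
    change ∑ k' : Fin M, _ = _
    rw [Finset.sum_eq_single k]
    · have h2 : ¬ (w (k : ℤ) = w ((k : ℤ) + (M : ℤ)) ∧ w ((k : ℤ) + (M : ℤ)) = w (k : ℤ)) := by
        rintro ⟨h, _⟩
        have h3 : ‖F.c (w (k : ℤ)) - F.c (w ((k : ℤ) + (M : ℤ)))‖ =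
          F.r (w (k : ℤ)) + F.r (w ((k : ℤ) + (M : ℤ))) := hadj (k : ℤ)
        rw [← h, sub_self, norm_zero] at h3
        have := F.pos (w (k : ℤ))
        linarith
      rw [if_pos ⟨rfl, rfl⟩, if_neg h2]
      ring
    · intro k' _ hk'
      have h1 : ¬ (w (k' : ℤ) = w (k : ℤ) ∧
          w ((k' : ℤ) + (M : ℤ)) = w ((k : ℤ) + (M : ℤ))) := by
        rintro ⟨h, h'⟩
        obtain ⟨q, hq⟩ := hsmp _ _ h h'
        have hk1 := k.2
        have hk2 := k'.2
        apply hk'
        apply Fin.ext
        have hq0 : q = 0 := by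
          by_contra hq0
          rcases lt_or_gt_of_ne hq0 with h3 | h3
          · have : (2 * (M : ℤ)) * q ≤ -(2 * (M : ℤ)) := by nlinarith
            omega
          · have : 2 * (M : ℤ) ≤ (2 * (M : ℤ)) * q := by nlinarith
            omega
        rw [hq0] at hq
        omega
      have h2 : ¬ (w (k' : ℤ) = w ((k : ℤ) + (M : ℤ)) ∧
          w ((k' : ℤ) + (M : ℤ)) = w (k : ℤ)) := by
        rintro ⟨h, h'⟩
        have h'' : w ((k' : ℤ) + (M : ℤ)) = w ((k : ℤ) + (M : ℤ) + (M : ℤ)) := by
          rw [h', ← per (k : ℤ)]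
          congr 1
          ring
        obtain ⟨q, hq⟩ := hsmp _ _ h h''
        have hk1 := k.2
        have hk2 := k'.2
        rcases lt_trichotomy q 0 with h3 | h3 | h3
        · have : (2 * (M : ℤ)) * q ≤ -(2 * (M : ℤ)) := by nlinarith
          omega
        · rw [h3] at hq
          omega
        · have : 2 * (M : ℤ) ≤ (2 * (M : ℤ)) * q := by nlinarith
          omega
      rw [if_neg h1, if_neg h2]
      ring
    · intro h; exact absurd (Finset.mem_univ _) h
  rw [← e3]
  exact hz

theorem rank_bound {V : Type*} [Fintype V] (F : Fam V) (hSF : F.SF) (m : ℤ) (hm : 0 < m)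
    (w : ℤ → V) (per : ∀ i, w (i + 2 * m) = w i) (hadj : ∀ i, F.Adj (w i) (w (i + m)))
    (hsmp : ∀ i j, w i = w j → w (i + m) = w (j + m) → (2 * m) ∣ (i - j)) :
    m + 3 ≤ 2 * (Fintype.card V : ℤ) := by
  classical
  obtain ⟨M, rfl⟩ : ∃ M : ℕ, m = (M : ℤ) := ⟨m.toNat, by omega⟩
  have hind := rank_indep F hSF M w per hadj hsmp
  have hne : F.c (w 0) ≠ F.c (w (0 + (M : ℤ))) := by
    intro h
    have h3 : ‖F.c (w 0) - F.c (w (0 + (M : ℤ)))‖ = F.r (w 0) + F.r (w (0 + (M : ℤ))) := hadj 0
    rw [h, sub_self, norm_zero] at h3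
    have := F.pos (w 0)
    have := F.pos (w (0 + (M : ℤ)))
    linarith
  have hsurj := rank_Phi_surj F.c _ _ hne
  have h1 := LinearMap.finrank_range_add_finrank_ker (rank_Phi F.c)
  have h2 : Module.finrank ℝ (LinearMap.range (rank_Phi F.c)) = 3 := by
    rw [LinearMap.range_eq_top.mpr hsurj, finrank_top, Module.finrank_prod,
      Complex.finrank_real_complex, Module.finrank_self]
  have h3 : Module.finrank ℝ (V → ℂ) = 2 * Fintype.card V := by
    rw [Module.finrank_pi_fintype]
    simp [Complex.finrank_real_complex, mul_comm]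
  have h4 : M ≤ Module.finrank ℝ (LinearMap.ker (rank_Phi F.c)) := by
    have h5 := finrank_span_eq_card hind
    rw [Fintype.card_fin] at h5
    rw [← h5]
    refine Submodule.finrank_mono ?_
    rw [Submodule.span_le]
    rintro _ ⟨k, rfl⟩
    exact rank_Phi_vec F.c _ _
  omega

end Pool.Agent.MP_377e48_co
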