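import Pool.Agent.Lib.MP_377e48_co.Defs

set_option autoImplicit false

namespace Pool.Agent.MP_377e48_co

theorem rays_cramer (d u v : ℂ) (s t : ℝ) (hD : crs u v ≠ 0)
    (hs : s = crs d v / crs u v) (ht : t = crs d u / crs u v) :
    d = (s : ℂ) * u - (t : ℂ) * v := by
  have e1 : s * crs u v = crs d v := by rw [hs]; field_simp
  have e2 : t * crs u v = crs d u := by rw [ht]; field_simp
  have key : ∀ x y : ℝ, x * crs u v = y * crs u v → x = y := fun x y h =>
    mul_right_cancel₀ hD h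
  apply Complex.ext
  · apply key
    simp only [Complex.sub_re, Complex.mul_re, Complex.ofReal_re, Complex.ofReal_im, zero_mul,
      sub_zero]
    have : (s * u.re - t * v.re) * crs u v = (s * crs u v) * u.re - (t * crs u v) * v.re := by ring
    rw [this, e1, e2]
    unfold crs
    ring
  · apply key
    simp only [Complex.sub_im, Complex.mul_im, Complex.ofReal_re, Complex.ofReal_im, zero_mul,
      add_zero]
    have : (s * u.im - t * v.im) * crs u v = (s * crs u v) * u.im - (t * crs u v) * v.im := by ring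
    rw [this, e1, e2]
    unfold crs
    ring

theorem rays_inner_lt (u v : ℂ) (hD : 0 < crs u v) :
    0 < ‖u‖ ∧ 0 < ‖v‖ ∧ inner ℝ u v < ‖u‖ * ‖v‖ := by
  have hu : u ≠ 0 := by
    rintro rfl
    simp [crs] at hD
  have hv : v ≠ 0 := by
    rintro rfl
    simp [crs] at hD
  refine ⟨norm_pos_iff.mpr hu, norm_pos_iff.mpr hv, ?_⟩
  rw [inner_lt_norm_mul_iff_real]
  intro h
  have hnu := norm_pos_iff.mpr hu
  have h1 : ‖v‖ * u.re = ‖u‖ * v.re := by
    have := congrArg Complex.re h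
    simpa using this
  have h2 : ‖v‖ * u.im = ‖u‖ * v.im := by
    have := congrArg Complex.im h
    simpa using this
  have h3 : ‖u‖ * crs u v = 0 := by
    unfold crs
    have : ‖u‖ * (u.re * v.im - u.im * v.re) = u.re * (‖u‖ * v.im) - u.im * (‖u‖ * v.re) := by ring
    rw [this, ← h1, ← h2]
    ring
  rcases mul_eq_zero.mp h3 with h4 | h4
  · exact absurd h4 hnu.ne'
  · exact absurd h4 hD.ne'

theorem rays_disjoint (a a' b b' : ℂ) (ra ra' rb rb' : ℝ) (h1 : ‖a - a'‖ = ra + ra')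
    (h2 : ‖b - b'‖ = rb + rb') (h3 : ‖a - b'‖ ≤ ra + rb') (h4 : ‖b - a'‖ ≤ rb + ra')
    (hab : a ≠ b) (hpos : 0 < crs (a - a') (b - b')) :
    ¬ (0 ≤ crs (b - a) (a - a') ∧ 0 ≤ crs (b - a) (b - b')) := by
  rintro ⟨g1, g2⟩
  obtain ⟨hu, hv, hlt⟩ := rays_inner_lt _ _ hpos
  set u := a - a' with hu_def
  set v := b - b' with hv_def
  set s : ℝ := crs (b - a) v / crs u v with hs_def
  set t : ℝ := crs (b - a) u / crs u v with ht_def
  have hs : 0 ≤ s := div_nonneg g2 hpos.le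
  have ht : 0 ≤ t := div_nonneg g1 hpos.le
  have hd : b - a = (s : ℂ) * u - (t : ℂ) * v :=
    rays_cramer (b - a) u v s t hpos.ne' hs_def ht_def
  have hst : 0 < s ∨ 0 < t := by
    by_contra hcon
    push Not at hcon
    have hs0 : s = 0 := le_antisymm hcon.1 hs
    have ht0 : t = 0 := le_antisymm hcon.2 ht
    rw [hs0, ht0] at hd
    simp at hd
    exact hab (sub_eq_zero.mp hd).symm
  -- `b - a' = (s+1) u - t v`, `a - b' = (t+1) v - s u`
  have e1 : b - a' = (s + 1 : ℝ) • u - t • v := by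
    have : b - a' = (b - a) + u := by rw [hu_def]; ring
    rw [this, hd, Complex.real_smul, Complex.real_smul]
    push_cast
    ring
  have e2 : a - b' = (t + 1 : ℝ) • v - s • u := by
    have : a - b' = -(b - a) + v := by rw [hv_def]; ring
    rw [this, hd, Complex.real_smul, Complex.real_smul]
    push_cast
    ring
  have i1 : inner ℝ (b - a') u ≤ ‖b - a'‖ * ‖u‖ := real_inner_le_norm _ _
  have i2 : inner ℝ (a - b') v ≤ ‖a - b'‖ * ‖v‖ := real_inner_le_norm _ _
  rw [e1, inner_sub_left, real_inner_smul_left, real_inner_smul_left,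
    real_inner_self_eq_norm_sq, real_inner_comm, ← e1] at i1
  rw [e2, inner_sub_left, real_inner_smul_left, real_inner_smul_left,
    real_inner_self_eq_norm_sq, ← e2] at i2
  set c : ℝ := inner ℝ u v with hc
  -- divide
  have j1 : ‖b - a'‖ * ‖u‖ ≤ ‖u‖ * (rb + ra') := by
    rw [mul_comm]; exact mul_le_mul_of_nonneg_left h4 hu.le
  have j2 : ‖a - b'‖ * ‖v‖ ≤ ‖v‖ * (ra + rb') := by
    rw [mul_comm]; exact mul_le_mul_of_nonneg_left h3 hv.le
  have k1 := le_trans i1 j1
  have k2 := le_trans i2 j2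
  -- multiply k1 by |v| and k2 by |u| and add
  have m1 : ((s + 1) * ‖u‖ ^ 2 - t * c) * ‖v‖ ≤ ‖u‖ * (rb + ra') * ‖v‖ :=
    mul_le_mul_of_nonneg_right k1 hv.le
  have m2 : ((t + 1) * ‖v‖ ^ 2 - s * c) * ‖u‖ ≤ ‖v‖ * (ra + rb') * ‖u‖ :=
    mul_le_mul_of_nonneg_right k2 hu.le
  have hsum : (rb + ra') + (ra + rb') = ‖u‖ + ‖v‖ := by rw [h1, h2]; ring
  have m3 : ‖u‖ * (rb + ra') * ‖v‖ + ‖v‖ * (ra + rb') * ‖u‖ = ‖u‖ * ‖v‖ * (‖u‖ + ‖v‖) := by
    rw [← hsum]; ring
  have m4 : ((s + 1) * ‖u‖ ^ 2 - t * c) * ‖v‖ + ((t + 1) * ‖v‖ ^ 2 - s * c) * ‖u‖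
      = ‖u‖ * ‖v‖ * (‖u‖ + ‖v‖) + (s * ‖u‖ + t * ‖v‖) * (‖u‖ * ‖v‖ - c) := by ring
  have m5 : 0 < (s * ‖u‖ + t * ‖v‖) * (‖u‖ * ‖v‖ - c) := by
    apply mul_pos _ (sub_pos.mpr hlt)
    rcases hst with h | h
    · have := mul_pos h hu
      have := mul_nonneg ht hv.le
      linarith
    · have := mul_pos h hv
      have := mul_nonneg hs hu.le
      linarith
  linarith

theorem rays_adj_symm {V : Type*} (F : Fam V) {u v : V} (h : F.Adj u v) : F.Adj v u := by
  unfold Fam.Adj at *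
  rw [norm_sub_rev, h, add_comm]

theorem rays_adj_irrefl {V : Type*} (F : Fam V) (u : V) : ¬ F.Adj u u := by
  intro h
  unfold Fam.Adj at h
  rw [sub_self, norm_zero] at h
  have := F.pos u
  linarith

/-- two neighbours in the same direction: the dominated case -/
theorem rays_dom {V : Type*} (F : Fam V) (hF : F.Crit) (x y1 y2 : V) (h1 : F.Adj y1 x)
    (h2 : F.Adj y2 x) (r : ℝ) (hr : 1 < r)
    (h : F.c y1 - F.c x = (r : ℂ) * (F.c y2 - F.c x)) : False := by
  classical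
  have hne : y1 ≠ y2 := by
    rintro rfl
    have h0 : F.c y1 - F.c x ≠ 0 := by
      intro h0
      unfold Fam.Adj at h1
      rw [h0, norm_zero] at h1
      have := F.pos y1
      have := F.pos x
      linarith
    have h3 : ((r : ℂ) - 1) * (F.c y1 - F.c x) = 0 := by
      linear_combination -h
    rcases mul_eq_zero.mp h3 with h4 | h4
    · have : (r : ℂ) = 1 := by linear_combination h4
      have : r = 1 := by exact_mod_cast this
      linarith
    · exact h0 h4
  have hn : ‖F.c y1 - F.c x‖ = r * ‖F.c y2 - F.c x‖ := by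
    rw [h, norm_mul, Complex.norm_real, Real.norm_of_nonneg (by linarith)]
  have hn2 : ‖F.c y1 - F.c y2‖ = F.r y1 - F.r y2 := by
    have e : F.c y1 - F.c y2 = ((r - 1 : ℝ) : ℂ) * (F.c y2 - F.c x) := by
      push_cast
      linear_combination h
    rw [e, norm_mul, Complex.norm_real, Real.norm_of_nonneg (by linarith)]
    unfold Fam.Adj at h1 h2
    have e2 : (r - 1) * ‖F.c y2 - F.c x‖ = r * ‖F.c y2 - F.c x‖ - ‖F.c y2 - F.c x‖ := by ring
    rw [e2, ← hn, h1, h2]
    ring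
  have hsub : ∀ z, F.Adj z y1 → F.Adj z y2 := by
    intro z hz
    unfold Fam.Adj at hz ⊢
    apply le_antisymm (F.meet z y2)
    have t : ‖F.c z - F.c y1‖ ≤ ‖F.c z - F.c y2‖ + ‖F.c y2 - F.c y1‖ := norm_sub_le_norm_sub_add_norm_sub _ _ _
    rw [norm_sub_rev (F.c y2), hn2, hz] at t
    linarith
  obtain ⟨g, hg⟩ := hF.del y1
  apply hF.no
  refine ⟨Function.update g y1 (g y2), ?_⟩
  intro u v huv
  have huv' : u ≠ v := by
    rintro rfl
    exact rays_adj_irrefl F _ huv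
  by_cases hu : u = y1
  · subst hu
    have hv : F.Adj v y2 := hsub v (rays_adj_symm F huv)
    rw [Function.update_self, Function.update_of_ne huv'.symm]
    exact (hg v y2 huv'.symm hne.symm hv).symm
  · by_cases hv : v = y1
    · subst hv
      rw [Function.update_of_ne hu, Function.update_self]
      exact hg u y2 hu hne.symm (hsub u huv)
    · rw [Function.update_of_ne hu, Function.update_of_ne hv]
      exact hg u v hu hv huv

theorem rays_same {V : Type*} (F : Fam V) (hF : F.Crit) (x y1 y2 : V) (h1 : F.Adj y1 x)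
    (h2 : F.Adj y2 x) (r : ℝ) (hr : 0 < r)
    (h : F.c y1 - F.c x = (r : ℂ) * (F.c y2 - F.c x)) : y1 = y2 := by
  rcases lt_trichotomy r 1 with h3 | h3 | h3
  · exfalso
    refine rays_dom F hF x y2 y1 h2 h1 r⁻¹ ((one_lt_inv₀ hr).mpr h3) ?_
    rw [h]
    have : (r : ℂ) ≠ 0 := by exact_mod_cast hr.ne'
    push_cast
    field_simp
  · rw [h3] at h
    apply F.inj
    have : F.c y1 - F.c x = F.c y2 - F.c x := by simpa using h
    exact sub_left_inj.mp this
  · exact (rays_dom F hF x y1 y2 h1 h2 r h3 h).elim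

theorem no_parallel {V : Type*} (F : Fam V) (hF : F.Crit) (u v u' v' : V)
    (h1 : F.Adj u v) (h2 : F.Adj u' v') (r : ℝ) (hr : 0 < r)
    (h : F.c u - F.c v = (r : ℂ) * (F.c u' - F.c v')) : u = u' ∧ v = v' := by
  by_cases hv : v = v'
  · subst hv
    exact ⟨rays_same F hF v u u' h1 h2 r hr h, rfl⟩
  by_cases hu : u = u'
  · subst hu
    refine ⟨rfl, rays_same F hF u v v' (rays_adj_symm F h1) (rays_adj_symm F h2) r hr ?_⟩
    linear_combination -h
  exfalso
  set w : ℂ := F.c v - F.c u with hw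
  set w' : ℂ := F.c v' - F.c u' with hw'
  have hww : w = r • w' := by
    rw [Complex.real_smul, hw, hw']
    linear_combination -h
  have hnw : ‖w‖ = F.r u + F.r v := by
    rw [hw, norm_sub_rev]; exact h1
  have hnw' : ‖w'‖ = F.r u' + F.r v' := by
    rw [hw', norm_sub_rev]; exact h2
  have hw0 : 0 < ‖w‖ := by
    rw [hnw]; have := F.pos u; have := F.pos v; linarith
  have m1 : ‖F.c v - F.c u'‖ ≤ F.r v + F.r u' := F.meet _ _
  have m2 : ‖F.c v' - F.c u‖ ≤ F.r v' + F.r u := F.meet _ _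
  have i1 : inner ℝ (F.c v - F.c u') w ≤ ‖F.c v - F.c u'‖ * ‖w‖ := real_inner_le_norm _ _
  have i2 : inner ℝ (F.c v' - F.c u) w ≤ ‖F.c v' - F.c u‖ * ‖w‖ := real_inner_le_norm _ _
  have hsum : inner ℝ (F.c v - F.c u') w + inner ℝ (F.c v' - F.c u) w
      = (‖w‖ + ‖w'‖) * ‖w‖ := by
    rw [← inner_add_left]
    have : F.c v - F.c u' + (F.c v' - F.c u) = w + w' := by rw [hw, hw']; ring
    rw [this, inner_add_left, real_inner_self_eq_norm_sq]
    have e3 : inner ℝ w' w = ‖w'‖ * ‖w‖ := by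
      rw [hww, real_inner_smul_right, real_inner_self_eq_norm_sq, norm_smul,
        Real.norm_of_nonneg hr.le]
      ring
    rw [e3]; ring
  have hle : (‖w‖ + ‖w'‖) * ‖w‖ ≤ (‖F.c v - F.c u'‖ + ‖F.c v' - F.c u‖) * ‖w‖ := by
    rw [← hsum, add_mul]; linarith
  have hle2 : ‖w‖ + ‖w'‖ ≤ ‖F.c v - F.c u'‖ + ‖F.c v' - F.c u‖ :=
    le_of_mul_le_mul_right hle hw0
  have q1 : ‖F.c v - F.c u'‖ = F.r v + F.r u' := by
    apply le_antisymm m1
    rw [hnw, hnw'] at hle2
    linarith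
  have q2 : ‖F.c v' - F.c u‖ = F.r v' + F.r u := by
    apply le_antisymm m2
    rw [hnw, hnw'] at hle2
    linarith
  have i3 : inner ℝ (F.c v - F.c u') w = ‖F.c v - F.c u'‖ * ‖w‖ := by
    apply le_antisymm i1
    have e4 : (‖w‖ + ‖w'‖) = ‖F.c v - F.c u'‖ + ‖F.c v' - F.c u‖ := by
      rw [q1, q2, hnw, hnw']; ring
    rw [e4, add_mul] at hsum
    linarith
  rw [inner_eq_norm_mul_iff_real] at i3
  -- `‖w‖ • (c v - c u') = ‖c v - c u'‖ • w`
  have hp : 0 < ‖F.c v - F.c u'‖ := by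
    rw [q1]; have := F.pos v; have := F.pos u'; linarith
  have h5 : F.c u' - F.c v = ((‖F.c v - F.c u'‖ / ‖w‖ : ℝ) : ℂ) * (F.c u - F.c v) := by
    rw [Complex.real_smul, Complex.real_smul] at i3
    have hwc : (‖w‖ : ℂ) ≠ 0 := by exact_mod_cast hw0.ne'
    apply mul_left_cancel₀ hwc
    push_cast
    have e6 : (‖w‖ : ℂ) * (((‖F.c v - F.c u'‖ : ℝ) : ℂ) / (‖w‖ : ℂ) * (F.c u - F.c v))
        = ((‖F.c v - F.c u'‖ : ℝ) : ℂ) * (F.c u - F.c v) := by
      field_simp
    rw [e6]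
    have e7 : F.c u - F.c v = -w := by rw [hw]; ring
    rw [e7]
    linear_combination -i3
  have h6 : u' = u := rays_same F hF v u' u
    (by
      apply rays_adj_symm
      unfold Fam.Adj
      exact q1) h1 (‖F.c v - F.c u'‖ / ‖w‖) (div_pos hp hw0) h5
  exact hu h6.symm

end Pool.Agent.MP_377e48_co
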