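import Pool.Agent.Lib.MP_377e48_co.Defs

/-!
# MP_377e48_co, piece E: sorting the darts by argument (helper54)
-/

set_option autoImplicit false

namespace Pool.Agent.MP_377e48_co

open Finset

/-- the upper half plane together with the positive real axis -/
def Sort_up (z : ℂ) : Prop := 0 < z.im ∨ (z.im = 0 ∧ 0 < z.re)

theorem Sort_up_or {z : ℂ} (hz : z ≠ 0) : Sort_up z ∨ Sort_up (-z) := by
  unfold Sort_up
  rcases lt_trichotomy z.im 0 with h | h | h
  · right; left
    rw [Complex.neg_im]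
    linarith
  · rcases lt_trichotomy z.re 0 with h' | h' | h'
    · right; right
      rw [Complex.neg_im, Complex.neg_re]
      exact ⟨by linarith, by linarith⟩
    · exact absurd (Complex.ext h' h) hz
    · exact Or.inl (Or.inr ⟨h, h'⟩)
  · exact Or.inl (Or.inl h)

open Classical in
/-- minus the cotangent of the argument -/
noncomputable def Sort_key (z : ℂ) : WithBot ℝ := if z.im = 0 then ⊥ else ((- z.re / z.im : ℝ) : WithBot ℝ)

theorem Sort_lt {x y : ℂ} (hx : Sort_up x) (hy : Sort_up y) (h : Sort_key x < Sort_key y) :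
    0 < crs x y := by
  unfold Sort_key at h
  unfold crs
  rcases hx with hx | ⟨hx, hx'⟩
  · rcases hy with hy | ⟨hy, hy'⟩
    · rw [if_neg hx.ne', if_neg hy.ne', WithBot.coe_lt_coe, div_lt_div_iff₀ hx hy] at h
      linarith
    · rw [if_pos hy] at h
      exact absurd h not_lt_bot
  · rcases hy with hy | ⟨hy, hy'⟩
    · rw [hx, zero_mul, sub_zero]
      exact mul_pos hx' hy
    · rw [if_pos hx, if_pos hy] at h
      exact absurd h (lt_irrefl _)

theorem Sort_eq {x y : ℂ} (hx : Sort_up x) (hy : Sort_up y) (h : Sort_key x = Sort_key y) :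
    ∃ r : ℝ, 0 < r ∧ x = (r : ℂ) * y := by
  unfold Sort_key at h
  rcases hx with hx | ⟨hx, hx'⟩
  · rcases hy with hy | ⟨hy, hy'⟩
    · rw [if_neg hx.ne', if_neg hy.ne', WithBot.coe_inj, div_eq_div_iff hx.ne' hy.ne'] at h
      refine ⟨x.im / y.im, div_pos hx hy, ?_⟩
      apply Complex.ext
      · rw [Complex.re_ofReal_mul, div_mul_eq_mul_div, eq_div_iff hy.ne']
        linarith
      · rw [Complex.im_ofReal_mul, div_mul_cancel₀ _ hy.ne']
    · rw [if_neg hx.ne', if_pos hy] at h
      exact absurd h (WithBot.coe_ne_bot)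
  · rcases hy with hy | ⟨hy, hy'⟩
    · rw [if_pos hx, if_neg hy.ne'] at h
      exact absurd h.symm (WithBot.coe_ne_bot)
    · refine ⟨x.re / y.re, div_pos hx' hy', ?_⟩
      apply Complex.ext
      · rw [Complex.re_ofReal_mul, div_mul_cancel₀ _ hy'.ne']
      · rw [Complex.im_ofReal_mul, hx, hy, mul_zero]

theorem Sort_crs_neg_neg (x y : ℂ) : crs (-x) (-y) = crs x y := by
  simp [crs]

theorem Sort_crs_neg_right (x y : ℂ) : crs x (-y) = crs y x := by
  simp [crs]; ring

theorem sort_darts {V : Type*} [Fintype V] (c : V → ℂ) (hc : Function.Injective c)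
    (R : V → V → Prop) (hR : ∀ u v, R u v → R v u) (hne : ∀ u v, R u v → u ≠ v)
    (h0 : ∃ u v, R u v)
    (hpar : ∀ u v u' v', R u v → R u' v' → ∀ r : ℝ, 0 < r →
      c u - c v = (r : ℂ) * (c u' - c v') → u = u' ∧ v = v') :
    ∃ (m : ℤ) (w : ℤ → V), 0 < m ∧ (∀ i, w (i + 2 * m) = w i) ∧
      (∀ i, R (w i) (w (i + m))) ∧ (∀ u v, R u v → ∃ i, w i = u ∧ w (i + m) = v) ∧
      (∀ i j, i < j → j < i + m →
        0 < crs (c (w i) - c (w (i + m))) (c (w j) - c (w (j + m)))) := by
  classical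
  -- the darts in the upper half plane
  let U : Finset (V × V) := univ.filter fun d => R d.1 d.2 ∧ Sort_up (c d.1 - c d.2)
  have hU : ∀ d, d ∈ U ↔ R d.1 d.2 ∧ Sort_up (c d.1 - c d.2) := fun d => by simp [U]
  let key : V × V → WithBot ℝ := fun d => Sort_key (c d.1 - c d.2)
  have hinj : ∀ d ∈ U, ∀ d' ∈ U, key d = key d' → d = d' := by
    intro d hd d' hd' h
    obtain ⟨h1, h2⟩ := (hU d).1 hd
    obtain ⟨h1', h2'⟩ := (hU d').1 hd'
    obtain ⟨r, hr, he⟩ := Sort_eq h2 h2' h
    obtain ⟨e1, e2⟩ := hpar _ _ _ _ h1 h1' r hr he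
    exact Prod.ext e1 e2
  have hor : ∀ u v, R u v → (u, v) ∈ U ∨ (v, u) ∈ U := by
    intro u v h
    rcases Sort_up_or (sub_ne_zero.2 fun h' => hne u v h (hc h')) with h1 | h1
    · exact Or.inl ((hU _).2 ⟨h, h1⟩)
    · rw [neg_sub] at h1
      exact Or.inr ((hU _).2 ⟨hR u v h, h1⟩)
  have hUne : U.Nonempty := by
    obtain ⟨u, v, h⟩ := h0
    rcases hor u v h with h1 | h1
    · exact ⟨_, h1⟩
    · exact ⟨_, h1⟩
  obtain ⟨k, hk⟩ : ∃ k, k = (U.image key).card := ⟨_, rfl⟩
  have hk0 : 0 < k := by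
    rw [hk]
    exact card_pos.2 (hUne.image key)
  let e := (U.image key).orderEmbOfFin hk.symm
  have hch : ∀ i : Fin k, ∃ d ∈ U, key d = e i := by
    intro i
    have := (U.image key).orderEmbOfFin_mem hk.symm i
    exact mem_image.1 this
  choose d hdU hde using hch
  -- the darts indexed by the natural numbers
  let dn : ℕ → V × V := fun n => if h : n < k then d ⟨n, h⟩ else d ⟨0, hk0⟩
  have hdn : ∀ n, dn n ∈ U := by
    intro n
    by_cases h : n < k
    · simp only [dn, dif_pos h]; exact hdU _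
    · simp only [dn, dif_neg h]; exact hdU _
  have hdlt : ∀ a b : ℕ, a < b → b < k → 0 < crs (c (dn a).1 - c (dn a).2) (c (dn b).1 - c (dn b).2) := by
    intro a b hab hb
    apply Sort_lt ((hU _).1 (hdn a)).2 ((hU _).1 (hdn b)).2
    show key (dn a) < key (dn b)
    simp only [dn, dif_pos hb, dif_pos (hab.trans hb)]
    rw [hde, hde]
    exact e.strictMono (by exact hab)
  have hsurj : ∀ x ∈ U, ∃ n : ℕ, n < k ∧ dn n = x := by
    intro x hx
    have h1 : key x ∈ Set.range e := by
      rw [Finset.range_orderEmbOfFin]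
      exact mem_coe.2 (mem_image_of_mem key hx)
    obtain ⟨i, hi⟩ := h1
    refine ⟨i.1, i.2, ?_⟩
    simp only [dn, dif_pos i.2]
    exact hinj _ (hdU i) _ hx (by rw [hde]; exact hi)
  -- the darts indexed by the integers
  let D : ℤ → V × V := fun i =>
    if (i / (k : ℤ)) % 2 = 0 then dn (i % (k : ℤ)).toNat else (dn (i % (k : ℤ)).toNat).swap
  have hkz : (0 : ℤ) < k := by exact_mod_cast hk0
  have hDadd : ∀ i, D (i + k) = (D i).swap := by
    intro i
    have h1 : (i + k) / (k : ℤ) = i / k + 1 := by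
      rw [Int.add_ediv_of_dvd_right (dvd_refl _), Int.ediv_self hkz.ne']
    have h2 : (i + k) % (k : ℤ) = i % k := Int.add_emod_right i k
    simp only [D, h1, h2]
    by_cases h : (i / (k : ℤ)) % 2 = 0
    · rw [if_pos h, if_neg (by omega)]
    · rw [if_neg h, if_pos (by omega), Prod.swap_swap]
  have hD0 : ∀ i : ℤ, 0 ≤ i → i < k → D i = dn i.toNat := by
    intro i h1 h2
    simp only [D, Int.ediv_eq_zero_of_lt h1 h2, Int.emod_eq_of_lt h1 h2]
    simp
  have hvec : ∀ i, c (D (i + k)).1 - c (D (i + k)).2 = -(c (D i).1 - c (D i).2) := by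
    intro i
    rw [hDadd, Prod.fst_swap, Prod.snd_swap, neg_sub]
  have hDR : ∀ i, R (D i).1 (D i).2 := by
    intro i
    have h1 := ((hU _).1 (hdn (i % (k : ℤ)).toNat)).1
    by_cases h : (i / (k : ℤ)) % 2 = 0
    · simp only [D, if_pos h]; exact h1
    · simp only [D, if_neg h]; exact hR _ _ h1
  have hstep : ∀ i j, (0 < crs (c (D (i + k)).1 - c (D (i + k)).2) (c (D (j + k)).1 - c (D (j + k)).2) ↔
      0 < crs (c (D i).1 - c (D i).2) (c (D j).1 - c (D j).2)) := by
    intro i j
    rw [hvec, hvec, Sort_crs_neg_neg]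
  have hshift : ∀ (q : ℤ) (i j : ℤ),
      (0 < crs (c (D (i + k * q)).1 - c (D (i + k * q)).2) (c (D (j + k * q)).1 - c (D (j + k * q)).2) ↔
      0 < crs (c (D i).1 - c (D i).2) (c (D j).1 - c (D j).2)) := by
    intro q
    induction q using Int.induction_on with
    | zero => intro i j; simp
    | succ q ih =>
      intro i j
      have e1 : ∀ x : ℤ, x + (k : ℤ) * ((q : ℤ) + 1) = x + k * q + k := fun x => by ring
      rw [e1, e1, hstep, ih]
    | pred q ih =>
      intro i j
      have e1 : ∀ x : ℤ, x + (k : ℤ) * (-(q : ℤ)) = x + k * (-(q : ℤ) - 1) + k := fun x => by ring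
      rw [← hstep, ← e1, ← e1, ih]
  have hw : ∀ i, (D (i + k)).1 = (D i).2 := fun i => by rw [hDadd, Prod.fst_swap]
  refine ⟨k, fun i => (D i).1, hkz, fun i => ?_, fun i => ?_, fun u v h => ?_, fun i j hij hji => ?_⟩
  · show (D (i + 2 * k)).1 = (D i).1
    have e1 : i + 2 * (k : ℤ) = i + k + k := by ring
    rw [e1, hDadd, hDadd, Prod.swap_swap]
  · show R (D i).1 (D (i + k)).1
    rw [hw]
    exact hDR i
  · show ∃ i, (D i).1 = u ∧ (D (i + k)).1 = v
    rcases hor u v h with h1 | h1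
    · obtain ⟨n, hn, he⟩ := hsurj _ h1
      refine ⟨n, ?_⟩
      rw [hw, hD0 n (by omega) (by exact_mod_cast hn), Int.toNat_natCast, he]
      exact ⟨rfl, rfl⟩
    · obtain ⟨n, hn, he⟩ := hsurj _ h1
      refine ⟨n + k, ?_⟩
      rw [hw (n + k), hDadd, hD0 n (by omega) (by exact_mod_cast hn), Int.toNat_natCast, he]
      exact ⟨rfl, rfl⟩
  · show 0 < crs (c (D i).1 - c (D (i + k)).1) (c (D j).1 - c (D (j + k)).1)
    rw [hw, hw]
    -- reduce to `0 ≤ i < k`
    have hi : i = i % k + k * (i / k) := (Int.emod_add_mul_ediv i k).symm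
    have hj : j = (j - k * (i / k)) + k * (i / k) := by ring
    have h1 := Int.emod_nonneg i hkz.ne'
    have h2 := Int.emod_lt_of_pos i hkz
    have h3 : i % k < j - k * (i / k) := by linarith
    have h4 : j - k * (i / k) < i % k + k := by linarith
    rw [hi, hj, hshift]
    generalize i % (k : ℤ) = a at h1 h2 h3 h4
    generalize j - (k : ℤ) * (i / k) = b at h3 h4
    rw [hD0 a h1 h2]
    by_cases hb : b < k
    · rw [hD0 b (by omega) hb]
      exact hdlt _ _ (by omega) (by omega)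
    · have e1 : b = (b - k) + k := by ring
      rw [e1, hvec, Sort_crs_neg_right, hD0 (b - k) (by omega) (by omega)]
      exact hdlt _ _ (by omega) (by omega)

end Pool.Agent.MP_377e48_co
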