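import Pool.Agent.Lib.MP_377e48_co.Critical

set_option autoImplicit false

/-! # Stress-free families have few tangencies -/

namespace Pool.Agent.Lib.MP_377e48_co

open Finset

variable {V : Type*}

/-- the tangent graph admits no nonzero stress -/
def SF [Fintype V] (c : V → E2) (ρ : V → ℝ) : Prop :=
  ∀ w : V → V → ℝ,
    (∀ i j, w i j = w j i) →
    (∀ j, ∑ i ∈ Finset.univ.filter (fun i => dist (c i) (c j) = ρ i + ρ j),
        w i j • (c i - c j) = 0) →
    ∀ i j, dist (c i) (c j) = ρ i + ρ j → w i j = 0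

variable {c : V → E2} {ρ : V → ℝ}

theorem SF.sub [Fintype V] [DecidableEq V] (h : SF c ρ) (S : Finset V) :
    SF (fun v : {x // x ∈ S} => c v.1) (fun v : {x // x ∈ S} => ρ v.1) := by
  intro w hw hs i j hij
  set w' : V → V → ℝ := fun a b => if h : a ∈ S ∧ b ∈ S then w ⟨a, h.1⟩ ⟨b, h.2⟩ else 0 with hw'
  have h1 : ∀ a b, w' a b = w' b a := by
    intro a b
    simp only [hw']
    by_cases h1 : a ∈ S <;> by_cases h2 : b ∈ S <;> simp [h1, h2, hw]
  have h2 : ∀ j, ∑ i ∈ Finset.univ.filter (fun i => dist (c i) (c j) = ρ i + ρ j),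
        w' i j • (c i - c j) = 0 := by
    intro j
    by_cases hj : j ∈ S
    · have := hs ⟨j, hj⟩
      rw [Finset.sum_filter] at this ⊢
      refine Eq.trans ?_ this
      rw [← Finset.sum_subset (Finset.subset_univ S)]
      · rw [← Finset.sum_coe_sort S]
        apply Finset.sum_congr rfl
        rintro ⟨i, hi⟩ -
        simp [hw', hi, hj]
      · intro x _ hx
        simp [hw', hx]
    · apply Finset.sum_eq_zero
      intro i _
      simp [hw', hj]
  have h3 := h w' h1 h2 i.1 j.1 hij
  simpa [hw'] using h3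

theorem sum_antisymm [Fintype V] (a : V → V → ℝ) (h : ∀ i j, a j i = - a i j) :
    ∑ j, ∑ i, a i j = 0 := by
  have h1 : ∑ j, ∑ i, a i j = ∑ j, ∑ i, a j i := Finset.sum_comm
  have h2 : ∑ j, ∑ i, a j i = - ∑ j, ∑ i, a i j := by
    rw [← Finset.sum_neg_distrib]
    apply Finset.sum_congr rfl
    intro j _
    rw [← Finset.sum_neg_distrib]
    apply Finset.sum_congr rfl
    intro i _
    exact h i j
  linarith

section count

variable [Fintype V] [DecidableEq V] (G : SimpleGraph V) [DecidableRel G.Adj]

/-- extension by zero -/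
def ext0 (x : {e // e ∈ G.edgeFinset} → ℝ) (e : Sym2 V) : ℝ :=
  if h : e ∈ G.edgeFinset then x ⟨e, h⟩ else 0

/-- stress map -/
noncomputable def stressMap (c : V → E2) : ({e // e ∈ G.edgeFinset} → ℝ) →ₗ[ℝ] (V → E2) where
  toFun x j := ∑ i, ext0 G x s(i, j) • (c i - c j)
  map_add' x y := by
    ext1 j
    simp only [Pi.add_apply]
    rw [← Finset.sum_add_distrib]
    apply Finset.sum_congr rfl
    intro i _
    rw [← add_smul]
    congr 1
    unfold ext0
    split_ifs <;> simp
  map_smul' r x := by
    ext1 j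
    simp only [Pi.smul_apply, RingHom.id_apply]
    rw [Finset.smul_sum]
    apply Finset.sum_congr rfl
    intro i _
    rw [smul_smul]
    congr 1
    unfold ext0
    split_ifs <;> simp

/-- total force and total torque -/
noncomputable def torque (c : V → E2) : (V → E2) →ₗ[ℝ] (ℝ × ℝ × ℝ) where
  toFun F := (∑ j, F j 0, ∑ j, F j 1, ∑ j, (c j 0 * F j 1 - c j 1 * F j 0))
  map_add' F F' := by
    simp only [Pi.add_apply, PiLp.add_apply, Prod.mk_add_mk, ← Finset.sum_add_distrib]
    refine Prod.ext rfl (Prod.ext rfl ?_)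
    apply Finset.sum_congr rfl
    intro j _
    ring
  map_smul' r F := by
    simp only [Pi.smul_apply, PiLp.smul_apply, smul_eq_mul, RingHom.id_apply, Prod.smul_mk,
      Finset.mul_sum]
    refine Prod.ext rfl (Prod.ext rfl ?_)
    apply Finset.sum_congr rfl
    intro j _
    ring

theorem torque_stress (c : V → E2) (x : {e // e ∈ G.edgeFinset} → ℝ) :
    torque c (stressMap G c x) = 0 := by
  simp only [torque, stressMap, LinearMap.coe_mk, AddHom.coe_mk]
  have h0 : ∀ (k : Fin 2) (j : V), (∑ i, ext0 G x s(i, j) • (c i - c j)) k =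
      ∑ i, ext0 G x s(i, j) * (c i k - c j k) := by
    intro k j
    rw [WithLp.ofLp_sum, Finset.sum_apply]
    apply Finset.sum_congr rfl
    intro i _
    simp
  refine Prod.ext ?_ (Prod.ext ?_ ?_)
  · simp only [h0]
    apply sum_antisymm (fun i j => ext0 G x s(i, j) * (c i 0 - c j 0))
    intro i j
    rw [Sym2.eq_swap]; ring
  · simp only [h0]
    apply sum_antisymm (fun i j => ext0 G x s(i, j) * (c i 1 - c j 1))
    intro i j
    rw [Sym2.eq_swap]; ring
  · simp only [h0]
    have : ∀ j, c j 0 * ∑ i, ext0 G x s(i, j) * (c i 1 - c j 1) -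
        c j 1 * ∑ i, ext0 G x s(i, j) * (c i 0 - c j 0) =
        ∑ i, ext0 G x s(i, j) * (c j 0 * c i 1 - c j 1 * c i 0) := by
      intro j
      rw [Finset.mul_sum, Finset.mul_sum, ← Finset.sum_sub_distrib]
      apply Finset.sum_congr rfl
      intro i _
      ring
    simp only [this]
    apply sum_antisymm (fun i j => ext0 G x s(i, j) * (c j 0 * c i 1 - c j 1 * c i 0))
    intro i j
    rw [Sym2.eq_swap]; ring

theorem torque_surj (c : V → E2) {a b : V} (hab : a ≠ b) (hc : c a ≠ c b) :
    Function.Surjective (torque c) := by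
  rintro ⟨p, q, r⟩
  set d0 := c a 0 - c b 0 with hd0
  set d1 := c a 1 - c b 1 with hd1
  have hd : d0 * d0 + d1 * d1 ≠ 0 := by
    intro h
    apply hc
    have h0 : d0 = 0 := by nlinarith [mul_self_nonneg d0, mul_self_nonneg d1]
    have h1 : d1 = 0 := by nlinarith [mul_self_nonneg d0, mul_self_nonneg d1]
    ext i
    fin_cases i
    · simp only [Fin.zero_eta]; linarith
    · simp only [Fin.mk_one]; linarith
  set l := (r - (c a 0 * q - c a 1 * p)) / (d0 * d0 + d1 * d1) with hl
  have hl' : l * (d0 * d0 + d1 * d1) = r - (c a 0 * q - c a 1 * p) := by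
    rw [hl]; exact div_mul_cancel₀ _ hd
  set Fa : E2 := WithLp.toLp 2 ![p - l * d1, q + l * d0] with hFa
  set Fb : E2 := WithLp.toLp 2 ![l * d1, -(l * d0)] with hFb
  refine ⟨fun j => if j = a then Fa else if j = b then Fb else 0, ?_⟩
  have key : ∀ f : V → E2 → ℝ, (∀ j, f j 0 = 0) →
      ∑ j, f j (if j = a then Fa else if j = b then Fb else 0) = f a Fa + f b Fb := by
    intro f hf
    rw [← Finset.sum_subset (Finset.subset_univ {a, b}), Finset.sum_pair hab]
    · simp [hab.symm]
    · intro x _ hx
      simp only [Finset.mem_insert, Finset.mem_singleton, not_or] at hx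
      simp [hx.1, hx.2, hf]
  simp only [torque, LinearMap.coe_mk, AddHom.coe_mk]
  rw [key (fun _ F => F 0) (by simp), key (fun _ F => F 1) (by simp),
    key (fun j F => c j 0 * F 1 - c j 1 * F 0) (by simp)]
  have a0 : Fa 0 = p - l * d1 := rfl
  have a1 : Fa 1 = q + l * d0 := rfl
  have b0 : Fb 0 = l * d1 := rfl
  have b1 : Fb 1 = -(l * d0) := rfl
  rw [a0, a1, b0, b1]
  refine Prod.ext (by ring) (Prod.ext (by ring) ?_)
  simp only
  rw [hd0, hd1] at hl'
  linear_combination hl'

end count

theorem sf_count [Fintype V] [DecidableEq V] (hD : Discs c ρ) (h : SF c ρ)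
    [DecidableRel (tg c ρ).Adj] (hcard : 2 ≤ Fintype.card V) :
    (tg c ρ).edgeFinset.card + 3 ≤ 2 * Fintype.card V := by
  obtain ⟨a, b, hab⟩ := Fintype.exists_ne_of_one_lt_card (show 1 < Fintype.card V by omega)
    (Classical.choice (Fintype.card_pos_iff.1 (by omega))) |>.elim (fun b hb =>
      (⟨_, b, hb.symm⟩ : ∃ a b : V, a ≠ b))
  have hinj : Function.Injective (stressMap (tg c ρ) c) := by
    rw [← LinearMap.ker_eq_bot, LinearMap.ker_eq_bot']
    intro x hx
    have h1 := h (fun i j => ext0 (tg c ρ) x s(i, j)) (fun i j => by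
      simp only [Sym2.eq_swap]) (fun j => by
        have h2 := congrFun hx j
        simp only [stressMap, LinearMap.coe_mk, AddHom.coe_mk, Pi.zero_apply] at h2
        rw [← h2, Finset.sum_filter]
        apply Finset.sum_congr rfl
        intro i _
        split_ifs with h3
        · rfl
        · have : ext0 (tg c ρ) x s(i, j) = 0 := by
            unfold ext0
            rw [dif_neg]
            rw [SimpleGraph.mem_edgeFinset, SimpleGraph.mem_edgeSet, tg_adj hD]
            exact h3
          rw [this, zero_smul])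
    ext ⟨e, he⟩
    induction e using Sym2.ind with
    | _ i j =>
      have h3 : dist (c i) (c j) = ρ i + ρ j := by
        rw [← tg_adj hD]
        rw [SimpleGraph.mem_edgeFinset, SimpleGraph.mem_edgeSet] at he
        exact he
      have h4 := h1 i j h3
      simp only [ext0, dif_pos he] at h4
      exact h4
  have hr : LinearMap.range (stressMap (tg c ρ) c) ≤ LinearMap.ker (torque c) := by
    rintro _ ⟨x, rfl⟩
    exact torque_stress _ c x
  have e1 : Module.finrank ℝ (LinearMap.range (stressMap (tg c ρ) c)) =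
      (tg c ρ).edgeFinset.card := by
    rw [LinearMap.finrank_range_of_inj hinj, Module.finrank_fintype_fun_eq_card, Fintype.card_coe]
  have e2 := Submodule.finrank_mono hr
  have e3 := LinearMap.finrank_range_add_finrank_ker (torque c)
  have e4 : Module.finrank ℝ (LinearMap.range (torque c)) = 3 := by
    rw [LinearMap.range_eq_top.2 (torque_surj c hab (fun e => hab (hD.inj e))), finrank_top]
    simp [Module.finrank_prod]
  have e5 : Module.finrank ℝ (V → E2) = 2 * Fintype.card V := by
    rw [Module.finrank_pi_fintype]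
    simp [mul_comm]
  omega

end Pool.Agent.Lib.MP_377e48_co
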